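import Pool.Agent.Work.MP_f82ddf_Q.Interface
import Pool.Agent.Work.MP_f82ddf_P.B_CDP

set_option autoImplicit false

/-! # Block CDR: the CD lemma with the rank of the chosen vectors -/

namespace Pool.ThmQ

open MvPolynomial Finset Pool.Agent.Work.MP_f82ddf_nt Pool.Agent.Work.MP_f82ddf_nt.DQ Pool.ThmM
  Pool.ThmM0 Pool.ThmP

/-- no vector orthogonal to all of `T`: the span is everything -/
theorem CDR_top {r : ℕ} (T : Finset (Fin (r + 1) → ℂ))
    (hsp : ∀ v : Fin (r + 1) → ℂ, (∀ u ∈ T, ∑ i, v i * u i = 0) → v = 0) :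
    Module.finrank ℂ (Submodule.span ℂ (T : Set (Fin (r + 1) → ℂ))) = r + 1 := by
  have htop : Submodule.span ℂ (T : Set (Fin (r + 1) → ℂ)) = ⊤ := by
    by_contra hne
    obtain ⟨f, hf0, hf⟩ := Submodule.exists_le_ker_of_lt_top _ (lt_top_iff_ne_top.2 hne)
    apply hf0
    have h1 : ∀ u : Fin (r + 1) → ℂ, f u = ∑ i, f (Pi.single i 1) * u i := by
      intro u
      have h5 : u = ∑ i, u i • (Pi.single i 1 : Fin (r + 1) → ℂ) := by
        funext j
        simp [Finset.sum_apply, Pi.single_apply]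
      conv_lhs => rw [h5, map_sum]
      refine Finset.sum_congr rfl fun i _ => ?_
      rw [map_smul, smul_eq_mul, mul_comm]
    have h2 := hsp (fun i => f (Pi.single i 1)) (fun u hu => by
      rw [← h1 u]
      exact hf (Submodule.subset_span hu))
    refine LinearMap.ext fun u => ?_
    rw [h1 u]
    refine Finset.sum_eq_zero fun i _ => ?_
    rw [congrFun h2 i]
    simp
  rw [htop, finrank_top, Module.finrank_fin_fun]

/-- ranks are kept by an injective linear map -/
theorem CDR_rank {r r' : ℕ} (E : (Fin (r' + 1) → ℂ) →ₗ[ℂ] (Fin (r + 1) → ℂ))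
    (hE : Function.Injective E) (T' : Set (Fin (r' + 1) → ℂ)) (T₁ : Set (Fin (r + 1) → ℂ))
    (h : E '' T' ⊆ T₁) :
    Module.finrank ℂ (Submodule.span ℂ T') ≤ Module.finrank ℂ (Submodule.span ℂ T₁) := by
  have h1 : Module.finrank ℂ ((Submodule.span ℂ T').map E) =
      Module.finrank ℂ (Submodule.span ℂ T') :=
    (LinearEquiv.finrank_eq (Submodule.equivMapOfInjective E hE (Submodule.span ℂ T'))).symm
  rw [← h1, Submodule.map_span]
  exact Submodule.finrank_mono (Submodule.span_mono h)

open Pool.ThmP.CDP in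
theorem p_CDR (h : Pool.ThmP.Stmt_CDP) : Stmt_CDR := by
  classical
  intro r b
  induction r using Nat.strong_induction_on with
  | _ r ih =>
  choose! fN hfN using ih
  obtain ⟨N₁, hT⟩ := h r (max (max b ((Finset.range r).sup fN)) 2)
  refine ⟨N₁, fun S hS hcard k x hk hx hper hpow => ?_⟩
  obtain ⟨T, hTS, hcT, hmk⟩ := hT S hS hcard k x hk hx hper hpow
  have hb : b ≤ T.card := (le_max_left _ _).trans ((le_max_left _ _).trans hcT)
  have hB : (Finset.range r).sup fN ≤ T.card :=
    (le_max_right _ _).trans ((le_max_left _ _).trans hcT)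
  have h2T : 2 ≤ T.card := (le_max_right _ _).trans hcT
  have hTnp : ∀ u ∈ T, ∀ v ∈ T, u ≠ v → NonProp u v :=
    fun u hu v hv => hS u (hTS hu) v (hTS hv)
  by_cases hsp : ∀ v : Fin (r + 1) → ℂ, (∀ u ∈ T, ∑ i, v i * u i = 0) → v = 0
  · refine ⟨T, hTS, hb, fun m u₀ τ hu₀ hτ hind => ?_⟩
    rw [CDR_top T hsp]
    have := hmk m u₀ τ hu₀ hτ hind
    omega
  · push Not at hsp
    obtain ⟨v, hvT, hv0⟩ := hsp
    obtain ⟨u₁, hu₁, u₂, hu₂, hne⟩ := Finset.one_lt_card.1 (show 1 < T.card by omega)
    have hu0 : u₁ ≠ 0 := by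
      intro h0
      have := hTnp u₁ hu₁ u₂ hu₂ hne 1 0 (by rw [h0]; simp)
      exact one_ne_zero this.1
    obtain ⟨r', E, Cc, hr', hE, hCE, hEC⟩ := coords T v hv0 hvT u₁ hu₁ hu0
    -- the new functions
    let x' : Fin (r' + 1) → Mer := fun i => L x (E (Pi.single i 1))
    have hLx : ∀ a, L x' a = L x (E a) := by
      intro a
      have h5 : a = ∑ i, a i • (Pi.single i 1 : Fin (r' + 1) → ℂ) := by
        funext j
        simp [Finset.sum_apply, Pi.single_apply]
      conv_rhs => rw [h5, map_sum, map_sum]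
      rw [L_apply]
      refine Finset.sum_congr rfl fun i _ => ?_
      rw [map_smul, map_smul, Algebra.smul_def]
    have hx' : LinearIndependent ℂ x' := by
      rw [Fintype.linearIndependent_iff]
      intro a ha i
      have h5 : L x' a = 0 := by
        rw [← ha]
        unfold L
        rw [Fintype.linearCombination_apply]
      rw [hLx] at h5
      have h6 : E a = 0 := L_inj hx (h5.trans (map_zero _).symm)
      have h7 : a = 0 := hE (h6.trans (map_zero _).symm)
      rw [h7]; rfl
    have hper' : ∀ i, Per (x' i) := by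
      intro i
      show Per (L x (E (Pi.single i 1)))
      rw [L_apply]
      exact per_sum _ _ fun l _ => per_const_mul _ (hper l)
    have hCinj : Set.InjOn Cc (T : Set (Fin (r + 1) → ℂ)) := by
      intro a ha b' hb' hab
      have h5 := congrArg E hab
      rwa [hEC a ha, hEC b' hb'] at h5
    have hcard' : (T.image Cc).card = T.card := Finset.card_image_of_injOn hCinj
    have hS' : ∀ u ∈ T.image Cc, ∀ v ∈ T.image Cc, u ≠ v → NonProp u v := by
      intro u hu v hv huv a b' hab
      obtain ⟨u', hu', rfl⟩ := Finset.mem_image.1 hu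
      obtain ⟨v', hv', rfl⟩ := Finset.mem_image.1 hv
      refine hTnp u' hu' v' hv' (fun h => huv (by rw [h])) a b' ?_
      have h5 := congrArg E hab
      rwa [map_smul, map_smul, hEC u' hu', hEC v' hv'] at h5
    have hLC : ∀ u ∈ T, ∑ i, algebraMap ℂ Mer (Cc u i) * x' i =
        ∑ i, algebraMap ℂ Mer (u i) * x i := by
      intro u hu
      rw [← L_apply, ← L_apply, hLx, hEC u hu]
    have hpow' : ∀ u ∈ T.image Cc, ∃ y : Mer, ∑ i, algebraMap ℂ Mer (u i) * x' i = y ^ k := by
      intro u hu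
      obtain ⟨u', hu', rfl⟩ := Finset.mem_image.1 hu
      obtain ⟨y, hy⟩ := hpow u' (hTS hu')
      exact ⟨y, by rw [hLC u' hu', hy]⟩
    have hN : fN r' ≤ (T.image Cc).card := by
      rw [hcard']
      exact (Finset.le_sup (f := fN) (Finset.mem_range.2 hr')).trans hB
    obtain ⟨T', hT'S, hbT', hT'⟩ := hfN r' hr' (T.image Cc) hS' hN k x' hk hx' hper' hpow'
    refine ⟨T.filter fun u => Cc u ∈ T', (Finset.filter_subset _ _).trans hTS, ?_, ?_⟩
    · refine hbT'.trans ?_
      have h5 : T' ⊆ (T.filter fun u => Cc u ∈ T').image Cc := by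
        intro a ha
        obtain ⟨u, hu, rfl⟩ := Finset.mem_image.1 (hT'S ha)
        exact Finset.mem_image_of_mem _ (Finset.mem_filter.2 ⟨hu, ha⟩)
      exact (Finset.card_le_card h5).trans Finset.card_image_le
    · intro m u₀ τ hu₀ hτ hind
      have h5 := hT' m (Cc u₀) (fun j => Cc (τ j)) (Finset.mem_filter.1 hu₀).2
        (fun j => (Finset.mem_filter.1 (hτ j)).2) (by
          have h6 : (fun j => (∑ i, algebraMap ℂ Mer (Cc (τ j) i) * x' i) /
              ∑ i, algebraMap ℂ Mer (Cc u₀ i) * x' i) =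
              fun j => (∑ i, algebraMap ℂ Mer (τ j i) * x i) /
                ∑ i, algebraMap ℂ Mer (u₀ i) * x i := by
            funext j
            rw [hLC _ (Finset.mem_filter.1 (hτ j)).1, hLC _ (Finset.mem_filter.1 hu₀).1]
          rw [h6]
          exact hind)
      refine h5.trans (CDR_rank E hE _ _ ?_)
      rintro _ ⟨a, ha, rfl⟩
      obtain ⟨u, hu, rfl⟩ := Finset.mem_image.1 (hT'S ha)
      rw [hEC u hu]
      exact Finset.mem_coe.2 (Finset.mem_filter.2 ⟨hu, ha⟩)

end Pool.ThmQ
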