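import Pool.Agent.Work.MP_f82ddf_Q.Interface
import Pool.Agent.Work.MP_f82ddf_P.B_GGL

set_option autoImplicit false

/-! # Block KEY (MP_f82ddf_nt, THEOREM U) -/

namespace Pool.ThmQ

open MvPolynomial Finset Pool.Agent.Work.MP_f82ddf_nt Pool.Agent.Work.MP_f82ddf_nt.DQ Pool.ThmM
  Pool.ThmM0 Pool.ThmP

/-- VAL for an arbitrary finite index type -/
theorem KEY_val (hVAL : Pool.ThmP.Stmt_VAL) {K Ω : Type} [Field K] [Field Ω] [Algebra K Ω]
    [IsAlgClosed Ω] {m n : ℕ} {ι : Type} [Fintype ι] [DecidableEq ι]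
    {S : Set (MvPolynomial (Fin (m + 1)) K)} (g : Mor K Ω m n S)
    (l : ι → Fin (n + 1) → Ω) (J : Finset ι) (hS : ∀ F ∈ S, ∃ d, F.IsHomogeneous d)
    (hJ : ∀ v, v ≠ 0 → OnX S v → ∃ j ∈ J, ¬ g.Meets (l j) v)
    (τ : Ω →+* ℂ) (x : Fin (m + 1) → Mer) (hx : OnK (tm τ) S x) (hx0 : x ≠ 0)
    (s : Fin (n + 1) → MvPolynomial (Fin (m + 1)) Ω) (hs : s ∈ g.tuples)
    (j₀ : ι) (hj₀ : j₀ ∈ J) (hne : ∑ c, tm τ (l j₀ c) * eval₂ (tm τ) x (s c) ≠ 0)
    (c : Fin (n + 1)) :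
    IsAlgebraic (Algebra.adjoin ℂ {q : Mer | ∃ j ∈ J,
          q = (∑ c, tm τ (l j c) * eval₂ (tm τ) x (s c)) /
            ∑ c, tm τ (l j₀ c) * eval₂ (tm τ) x (s c)})
        (eval₂ (tm τ) x (s c) / ∑ c, tm τ (l j₀ c) * eval₂ (tm τ) x (s c)) := by
  obtain ⟨N, hN⟩ : ∃ N, Fintype.card ι = N + 1 :=
    ⟨Fintype.card ι - 1, by
      have : 0 < Fintype.card ι := Fintype.card_pos_iff.2 ⟨j₀⟩
      omega⟩
  obtain ⟨e⟩ : Nonempty (ι ≃ Fin (N + 1)) := ⟨(Fintype.equivFinOfCardEq hN)⟩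
  have h1 := hVAL K Ω m n N S g (fun j => l (e.symm j)) (J.map e.toEmbedding) hS
    (by
      intro v hv hvS
      obtain ⟨j, hj, hjm⟩ := hJ v hv hvS
      refine ⟨e j, mem_map_of_mem _ hj, ?_⟩
      rw [e.symm_apply_apply]
      exact hjm) τ x hx hx0 s hs (e j₀) (mem_map_of_mem _ hj₀)
    (by
      rw [e.symm_apply_apply]
      exact hne) c
  rw [e.symm_apply_apply] at h1
  have h2 : {q : Mer | ∃ j ∈ J.map e.toEmbedding,
      q = (∑ c, tm τ (l (e.symm j) c) * eval₂ (tm τ) x (s c)) /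
        ∑ c, tm τ (l j₀ c) * eval₂ (tm τ) x (s c)} = {q : Mer | ∃ j ∈ J,
      q = (∑ c, tm τ (l j c) * eval₂ (tm τ) x (s c)) /
        ∑ c, tm τ (l j₀ c) * eval₂ (tm τ) x (s c)} := by
    ext q
    constructor
    · rintro ⟨j, hj, hq⟩
      obtain ⟨i, hi, rfl⟩ := mem_map.1 hj
      refine ⟨i, hi, ?_⟩
      rw [hq]
      simp only [Equiv.coe_toEmbedding, Equiv.symm_apply_apply]
    · rintro ⟨j, hj, hq⟩
      refine ⟨e j, mem_map_of_mem _ hj, ?_⟩
      rw [e.symm_apply_apply]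
      exact hq
  rw [h2] at h1
  exact h1

/-- the monomial with exponent `δ_u + (t - 1) δ_v` -/
theorem KEY_mono {b t : ℕ} (y : Fin b → Mer) (u v : Fin b) :
    ∏ i, y i ^ ((Finsupp.single u 1 + Finsupp.single v t : Fin b →₀ ℕ) i) = y u * y v ^ t := by
  have h : ∀ (w : Fin b) (q : ℕ), ∏ i, y i ^ (Finsupp.single w q i) = y w ^ q := by
    intro w q
    rw [Finset.prod_eq_single w]
    · rw [Finsupp.single_eq_same]
    · intro i _ hi
      rw [Finsupp.single_eq_of_ne hi, pow_zero]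
    · intro h
      exact absurd (mem_univ _) h
  simp only [Finsupp.add_apply, pow_add, Finset.prod_mul_distrib, h, pow_one]

theorem p_KEY (hNRS : Stmt_NRS) (hVER : Pool.ThmP.Stmt_VER) (hVAL : Pool.ThmP.Stmt_VAL)
    (hTRX : Pool.ThmP.Stmt_TRX) (hHOMR : Pool.ThmM0.Stmt_HOMR) : Stmt_KEY := by
  classical
  intro K Ω _ _ _ _ m n N t a δ S ht hS g F J hF hD τ x hx hx0 s hs r hr j₀ hj₀ hne
  rcases Nat.eq_zero_or_pos δ with hδ | hδ
  · have hem : IsEmpty (Fin (δ - a)) := by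
      rw [hδ, Nat.zero_sub]
      infer_instance
    exact ⟨fun _ => 0, algebraicIndependent_empty_type, fun i => (hem.false i).elim⟩
  obtain ⟨δ', rfl⟩ : ∃ δ', δ = δ' + 1 := ⟨δ - 1, by omega⟩
  have hinf : Infinite Ω := IsAlgClosed.instInfinite
  obtain ⟨h, hh⟩ := hNRS Ω n a (zeros g F J) hD
  obtain ⟨ε, g', hε, hεs, hgt, -, hver⟩ := hVER K Ω m n t S g ht
  obtain ⟨y, hy⟩ : ∃ y : Fin (n + 1) → Mer, ∀ c, y c = eval₂ (tm τ) x (s c) := ⟨_, fun _ => rfl⟩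
  have hyf : (fun c => eval₂ (tm τ) x (s c)) = y := by
    funext c
    exact (hy c).symm
  have hrr : NoRel (fun i => y (r i)) := by
    have h1 : (fun i => y (r i)) = fun i => eval₂ (tm τ) x (s (r i)) := by
      funext i
      exact hy _
    rw [h1]
    exact hr
  simp only [hyf] at hne ⊢
  -- the forms
  obtain ⟨F', hF'⟩ : ∃ F' : Fin (N + 1) ⊕ Fin a → MvPolynomial (Fin (n + 1)) Ω,
      F' = Sum.elim F (fun i => (∑ c, C (h i c) * X c) ^ t) := ⟨_, rfl⟩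
  have hFl : ∀ j, F' (Sum.inl j) = F j := fun j => by rw [hF']; rfl
  have hFr : ∀ i, F' (Sum.inr i) = (∑ c, C (h i c) * X c) ^ t := fun i => by rw [hF']; rfl
  have hhom : ∀ j, (F' j).IsHomogeneous t := by
    rintro (j | i)
    · rw [hFl]
      exact hF j
    · rw [hFr]
      have h1 : (∑ c, C (h i c) * X c : MvPolynomial (Fin (n + 1)) Ω).IsHomogeneous 1 := by
        refine IsHomogeneous.sum _ _ _ fun c _ => ?_
        have h2 := (isHomogeneous_C (Fin (n + 1)) (h i c)).mul (isHomogeneous_X Ω c)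
        rw [zero_add] at h2
        exact h2
      have h3 := h1.pow t
      rw [one_mul] at h3
      exact h3
  obtain ⟨J', hJ'⟩ : ∃ J' : Finset (Fin (N + 1) ⊕ Fin a), J' = J.disjSum univ := ⟨_, rfl⟩
  have hJl : ∀ j, Sum.inl j ∈ J' ↔ j ∈ J := fun j => by rw [hJ', inl_mem_disjSum]
  have hJr : ∀ i, Sum.inr i ∈ J' := fun i => by rw [hJ', inr_mem_disjSum]; exact mem_univ _
  have hs' : (fun c => ∏ i, s i ^ ε c i) ∈ g'.tuples := by
    rw [hgt]
    exact ⟨s, hs, rfl⟩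
  have hy' : ∀ c, eval₂ (tm τ) x (∏ i, s i ^ ε c i) = ∏ i, y i ^ ε c i := by
    intro c
    rw [eval₂_prod]
    exact prod_congr rfl fun i _ => by rw [eval₂_pow, hy]
  have hmeet : ∀ v, v ≠ 0 → OnX S v → ∃ j ∈ J', ¬ g'.Meets (fun c => coeff (ε c) (F' j)) v := by
    intro v hv hvS
    by_contra hcon
    push Not at hcon
    obtain ⟨s', hs'', c, hc⟩ := g.defined v hv hvS
    have hme : ∀ j ∈ J', eval (fun c => eval v (s' c)) (F' j) = 0 := fun j hj =>
      ((hver (F' j) (hhom j)).1 v).1 (hcon j hj) s' hs''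
    have hz : (fun c => eval v (s' c)) ∈ zeros g F J := by
      refine ⟨⟨v, hvS, s', hs'', rfl⟩, fun j hj => ?_⟩
      rw [← hFl j]
      exact hme _ ((hJl j).2 hj)
    have h0 := hh _ hz (fun i => by
      have h1 := hme _ (hJr i)
      rw [hFr, map_pow, map_sum] at h1
      have h2 := eq_zero_of_pow_eq_zero h1
      rw [← h2]
      exact sum_congr rfl fun c _ => by rw [map_mul, eval_C, eval_X])
    exact hc (congrFun h0 c)
  have hsum : ∀ j, ∑ c, tm τ (coeff (ε c) (F' j)) * eval₂ (tm τ) x (∏ i, s i ^ ε c i) =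
      aeval y (map τ (F' j)) := by
    intro j
    rw [GGL_val τ ε hε hεs (F' j) (hhom j) y]
    refine sum_congr rfl fun c _ => ?_
    rw [hy' c]
    rfl
  obtain ⟨z, hz⟩ : ∃ z, z = aeval y (map τ (F j₀)) := ⟨_, rfl⟩
  rw [← hz] at hne
  obtain ⟨B, hB⟩ : ∃ B : Set Mer, B = {q : Mer | ∃ j ∈ J', q = aeval y (map τ (F' j)) / z} :=
    ⟨_, rfl⟩
  have hsum₀ : ∑ c, tm τ (coeff (ε c) (F' (Sum.inl j₀))) *
      eval₂ (tm τ) x (∏ i, s i ^ ε c i) = z := by
    rw [hsum, hFl, ← hz]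
  have hval : ∀ c, IsAlgebraic (Algebra.adjoin ℂ B) ((∏ i, y i ^ ε c i) / z) := by
    intro c
    have h1 := KEY_val hVAL g' (fun j c => coeff (ε c) (F' j)) J' hS hmeet τ x hx hx0
      (fun c => ∏ i, s i ^ ε c i) hs' (Sum.inl j₀) ((hJl j₀).2 hj₀)
      (by
        rw [hsum₀]
        exact hne) c
    have hset : {q : Mer | ∃ j ∈ J', q = (∑ c, tm τ (coeff (ε c) (F' j)) *
        eval₂ (tm τ) x (∏ i, s i ^ ε c i)) / ∑ c, tm τ (coeff (ε c) (F' (Sum.inl j₀))) *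
          eval₂ (tm τ) x (∏ i, s i ^ ε c i)} = B := by
      rw [hB]
      ext q
      constructor
      · rintro ⟨j, hj, hq⟩
        exact ⟨j, hj, by rw [hq, hsum, hsum₀]⟩
      · rintro ⟨j, hj, hq⟩
        exact ⟨j, hj, by rw [hq, hsum, hsum₀]⟩
    rw [hset, hsum₀, hy' c] at h1
    exact h1
  -- the quotients
  have hy0 : y (r 0) ≠ 0 := by
    have h1 := hrr 1 (X 0) (X_ne_zero 0) (isHomogeneous_X ℂ 0)
    rw [aeval_X] at h1
    exact h1
  have hval2 : ∀ u v : Fin (n + 1),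
      IsAlgebraic (Algebra.adjoin ℂ B) (y u * y v ^ (t - 1) / z) := by
    intro u v
    obtain ⟨c, hc⟩ := (hεs (Finsupp.single u 1 + Finsupp.single v (t - 1))).1 (by
      simp only [Finsupp.add_apply, Finset.sum_add_distrib, Finsupp.single_apply,
        Finset.sum_ite_eq, Finset.mem_univ, if_true]
      omega)
    have h1 := hval c
    rw [hc, KEY_mono] at h1
    exact h1
  have hp : ∀ i : Fin (δ' + 1), IsAlgebraic (Algebra.adjoin ℂ B) (y (r i.succ) / y (r 0)) := by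
    intro i
    have h1 := (hval2 (r i.succ) (r 0)).mul (hval2 (r 0) (r 0)).inv
    have h2 : y (r i.succ) * y (r 0) ^ (t - 1) / z * (y (r 0) * y (r 0) ^ (t - 1) / z)⁻¹ =
        y (r i.succ) / y (r 0) := by
      have h3 : y (r 0) ^ (t - 1) ≠ 0 := pow_ne_zero _ hy0
      field_simp
    rw [h2] at h1
    exact h1
  have hind : AlgebraicIndependent ℂ (fun j : Fin (δ' + 1) => y (r j.succ) / y (r 0)) :=
    hHOMR δ' (fun i => y (r i)) hy0 hrr
  obtain ⟨t₀, ht₀B, ht₀⟩ := hTRX (δ' + 1) _ B B hind hp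
    (fun b hb => isAlgebraic_algebraMap (⟨b, Algebra.subset_adjoin hb⟩ : Algebra.adjoin ℂ B))
  -- the selection
  obtain ⟨Gd, hGd⟩ : ∃ Gd : Finset (Fin (δ' + 1)),
      Gd = univ.filter (fun i => ∃ j ∈ J, t₀ i = aeval y (map τ (F j)) / z) := ⟨_, rfl⟩
  obtain ⟨Bd, hBd⟩ : ∃ Bd : Finset (Fin (δ' + 1)),
      Bd = univ.filter (fun i => ¬ ∃ j ∈ J, t₀ i = aeval y (map τ (F j)) / z) := ⟨_, rfl⟩
  have hcard : Gd.card + Bd.card = δ' + 1 := by
    rw [hGd, hBd, card_filter_add_card_filter_not, card_univ, Fintype.card_fin]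
  have hBcard : Bd.card ≤ a := by
    have h1 : Bd.image t₀ ⊆ univ.image (fun i : Fin a => aeval y (map τ (F' (Sum.inr i))) / z) := by
      intro q hq
      obtain ⟨i, hi, rfl⟩ := mem_image.1 hq
      rw [hBd] at hi
      have hi2 := (mem_filter.1 hi).2
      have hi3 := ht₀B i
      rw [hB] at hi3
      obtain ⟨j, hj, hjq⟩ := hi3
      rcases j with j | j
      · exact absurd ⟨j, (hJl j).1 hj, by rw [hjq, hFl]⟩ hi2
      · exact mem_image.2 ⟨j, mem_univ _, hjq.symm⟩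
    have h2 := (card_le_card h1).trans card_image_le
    rw [card_image_of_injective _ ht₀.injective, card_univ, Fintype.card_fin] at h2
    exact h2
  obtain ⟨G', hG', hGc⟩ := exists_subset_card_eq (show δ' + 1 - a ≤ Gd.card by omega)
  refine ⟨fun i => t₀ (G'.orderEmbOfFin hGc i), ht₀.comp _ (G'.orderEmbOfFin hGc).injective,
    fun i => ?_⟩
  have h1 := hG' (G'.orderEmbOfFin_mem hGc i)
  rw [hGd] at h1
  obtain ⟨j, hj, hjq⟩ := (mem_filter.1 h1).2
  exact ⟨j, hj, by rw [← hz]; exact hjq⟩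

end Pool.ThmQ
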