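import Pool.Agent.Work.MP_f82ddf_Q.Interface
import Pool.Agent.Work.MP_f82ddf_P.B_PK1

set_option autoImplicit false

/-! # Block PDC: a dense point and a common factor -/

namespace Pool.ThmQ

open MvPolynomial Finset Pool.Agent.Work.MP_f82ddf_nt Pool.Agent.Work.MP_f82ddf_nt.DQ Pool.ThmM
  Pool.ThmM0 Pool.ThmP

/-- a polynomial which does not contain any variable is a constant -/
theorem PDC_const {Ω : Type} [Field Ω] {b : ℕ} (P : MvPolynomial (Fin b) Ω)
    (h : ∀ i, degreeOf i P = 0) : P = C (coeff 0 P) := by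
  rw [← totalDegree_eq_zero_iff_eq_C, totalDegree_eq_zero_iff]
  intro m hm i
  have h1 := monomial_le_degreeOf i hm
  rw [h i] at h1
  omega

theorem PDC_var {Ω : Type} [Field Ω] {b : ℕ} (P : MvPolynomial (Fin b) Ω) (hP : ¬ IsUnit P)
    (h0 : P ≠ 0) : ∃ i, 0 < degreeOf i P := by
  by_contra hno
  push Not at hno
  have h1 := PDC_const P fun i => Nat.le_zero.1 (hno i)
  apply hP
  rw [h1]
  have h2 : coeff 0 P ≠ 0 := by
    intro h2
    apply h0
    rw [h1, h2, C_0]
  exact (isUnit_iff_ne_zero.2 h2).map C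

theorem PDC_ren {Ω : Type} [Field Ω] {b b' : ℕ} (r : Fin b → Fin b') (R : MvPolynomial (Fin b) Ω)
    (i : Fin b') (hi : i ∉ Set.range r) : degreeOf i (rename r R) = 0 := by
  rw [← Nat.le_zero, degreeOf_le_iff]
  intro m hm
  rw [mem_support_iff] at hm
  obtain ⟨u, hu, -⟩ := coeff_rename_ne_zero r R m hm
  rw [← hu, Finsupp.mapDomain_notin_range _ _ hi]

theorem PDC_map {Ω : Type} [Field Ω] (τ : Ω →+* ℂ) {b : ℕ} (P : MvPolynomial (Fin b) Ω)
    (i : Fin b) : degreeOf i (map τ P) = degreeOf i P := by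
  rw [degreeOf_eq_sup, degreeOf_eq_sup, support_map_of_injective P τ.injective]

/-- forms in quotients -/
theorem PDC_hom {n e : ℕ} (H : MvPolynomial (Fin (n + 1)) ℂ) (hH : H.IsHomogeneous e)
    (w : Fin (n + 1) → Mer) (a : Mer) :
    aeval (fun c => a * w c) H = a ^ e * aeval w H :=
  eval₂_smul_hom hH (algebraMap ℂ Mer) w a

theorem p_PDC (hSPZ : Stmt_SPZ) (hTRS : Pool.ThmP.Stmt_TRS) (hCDC : Pool.ThmP.Stmt_CDC)
    (hEXV : Pool.ThmP.Stmt_EXV) : Stmt_PDC := by
  classical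
  intro K Ω _ _ _ _ m n N s c S g F hsn hS hF hdim τ x hx hx0 s' hs' hNR P hP
  by_contra hlt
  push Not at hlt
  obtain ⟨J, hJ⟩ : ∃ J : Finset (Fin (N + 1)), ∀ j, j ∈ J ↔ P ∣ F j :=
    ⟨univ.filter fun j => P ∣ F j, fun j => by simp⟩
  have hJc : c < J.card := by
    have h1 : {j | P ∣ F j} = (J : Set (Fin (N + 1))) := by
      ext j
      simp [hJ]
    rwa [h1, Set.ncard_coe_finset] at hlt
  obtain ⟨i, hi⟩ := PDC_var P hP.not_isUnit hP.ne_zero
  -- the form `Q`
  obtain ⟨e, R, hR0, hRe, hRz⟩ := hdim J hJc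
    (fun l => i.succAbove (Fin.castLE (by omega) l))
  have hrinj : Function.Injective
      (fun l : Fin (s + 1) => i.succAbove (Fin.castLE (show s + 1 ≤ n by omega) l)) :=
    Fin.succAbove_right_injective.comp (Fin.castLE_injective _)
  obtain ⟨Q, hQ⟩ : ∃ Q, Q = rename
      (fun l : Fin (s + 1) => i.succAbove (Fin.castLE (show s + 1 ≤ n by omega) l)) R := ⟨_, rfl⟩
  have hQ0 : Q ≠ 0 := by
    intro h0
    apply hR0
    apply rename_injective _ hrinj
    rw [← hQ, h0, map_zero]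
  have hQh : Q.IsHomogeneous e := by
    rw [hQ]
    exact hRe.rename_isHomogeneous
  have hQi : degreeOf i Q = 0 := by
    rw [hQ]
    apply PDC_ren
    rintro ⟨l, hl⟩
    exact Fin.succAbove_ne i _ hl
  have hPQ : ¬ P ∣ Q := by
    rintro ⟨H, hH⟩
    have hH0 : H ≠ 0 := by
      rintro rfl
      exact hQ0 (by rw [hH, mul_zero])
    have h1 := degreeOf_mul_eq (n := i) hP.ne_zero hH0
    rw [← hH, hQi] at h1
    omega
  -- descent
  obtain ⟨P₁, hP₁, hP₁P⟩ := WfDvdMonoid.exists_irreducible_factor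
    (a := map τ P) (by
      intro hu
      rw [isUnit_iff_eq_C_of_isReduced] at hu
      obtain ⟨r, -, hr⟩ := hu
      have h1 := PDC_map τ P i
      rw [hr, degreeOf_C] at h1
      omega) (by
      intro h0
      exact hP.ne_zero (map_injective τ τ.injective (by rw [h0, map_zero])))
  have hP₁Q : ¬ P₁ ∣ map τ Q := by
    intro hd
    have h1 := hCDC Ω τ (n + 1) 1 1 ![P, Q] (by
      intro P' hP'
      have h2 : {j | P' ∣ (![P, Q] : Fin (1 + 1) → MvPolynomial (Fin (n + 1)) Ω) j} ≠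
          Set.univ := by
        intro h3
        have ha : P' ∣ P := by
          have h4 : (0 : Fin 2) ∈ {j | P' ∣ (![P, Q] : Fin (1 + 1) →
            MvPolynomial (Fin (n + 1)) Ω) j} := by rw [h3]; trivial
          exact h4
        have hb : P' ∣ Q := by
          have h4 : (1 : Fin 2) ∈ {j | P' ∣ (![P, Q] : Fin (1 + 1) →
            MvPolynomial (Fin (n + 1)) Ω) j} := by rw [h3]; trivial
          exact h4
        exact hPQ ((hP'.associated_of_dvd hP ha).symm.dvd.trans hb)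
      have h3 := Set.ncard_lt_card h2
      rw [Nat.card_eq_fintype_card, Fintype.card_fin] at h3
      exact Nat.lt_succ_iff.1 h3) P₁ hP₁
    have h5 : {j | P₁ ∣ map τ ((![P, Q] : Fin (1 + 1) → MvPolynomial (Fin (n + 1)) Ω) j)} =
        Set.univ := by
      ext j
      fin_cases j
      · simpa using hP₁P
      · simpa using hd
    rw [h5, Set.ncard_univ, Nat.card_eq_fintype_card, Fintype.card_fin] at h1
    omega
  -- the point
  set y : Fin (n + 1) → Mer := fun c => eval₂ (tm τ) x (s' c) with hy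
  have hyd : ∀ d, y d ≠ 0 := by
    intro d
    have h1 := hNR 1 (X d) (X_ne_zero _) (isHomogeneous_X _ _)
    rwa [aeval_X] at h1
  obtain ⟨θ, hθ⟩ := hTRS n y hNR
  have hθ0 : θ ≠ 0 := by
    intro h0
    have h1 := hθ.transcendental 0
    apply h1
    simp only [h0, zero_mul]
    exact isAlgebraic_zero
  obtain ⟨ι, hι⟩ := pk1_map _ hθ
  obtain ⟨V, hV1, hV2, hV3⟩ := pk1_val (FractionRing (MvPolynomial (Fin (n + 1)) ℂ)) P₁ hP₁.prime
  obtain ⟨V', hV'⟩ := hEXV (FractionRing (MvPolynomial (Fin (n + 1)) ℂ)) Mer ι.toRingHom V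
  have hV'' : ∀ a, ι a ∈ V' ↔ a ∈ V := hV'
  obtain ⟨d, hd⟩ : ∃ d : Fin (n + 1), ¬ P₁ ∣ X d := by
    by_contra hno
    push Not at hno
    have h1 := hno 0
    have h2 := hno (Fin.last n)
    have h3 : Associated P₁ (X 0) :=
      hP₁.associated_of_dvd (X_prime (R := ℂ) (i := (0 : Fin (n + 1)))).irreducible h1
    have h4 : (X 0 : MvPolynomial (Fin (n + 1)) ℂ) ∣ X (Fin.last n) := h3.symm.dvd.trans h2
    rw [X_dvd_X] at h4
    have h5 := congrArg Fin.val h4
    simp at h5
    omega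
  obtain ⟨am, ham⟩ : ∃ am : MvPolynomial (Fin (n + 1)) ℂ →+*
      FractionRing (MvPolynomial (Fin (n + 1)) ℂ), am = algebraMap _ _ := ⟨_, rfl⟩
  rw [← ham] at hV1 hV2 hV3
  have hι' : ∀ r, ι (am r) = aeval (fun c => θ * y c) r := fun r => by rw [ham]; exact hι r
  have ham0 : ∀ r, r ≠ 0 → am r ≠ 0 := by
    intro r hr h0
    rw [ham, IsFractionRing.to_map_eq_zero_iff] at h0
    exact hr h0
  have hιX : ∀ d, ι (am (X d)) = θ * y d := by
    intro d
    rw [hι', aeval_X]
  -- the value of a form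
  have hval : ∀ (h : ℕ) (H : MvPolynomial (Fin (n + 1)) ℂ), H.IsHomogeneous h →
      aeval (fun c => y c / y d) H = ι (am H * (am (X d))⁻¹ ^ h) := by
    intro h H hH
    rw [map_mul, map_pow, map_inv₀, hι', hιX, PDC_hom H hH]
    have h1 : (fun c => y c / y d) = fun c => (y d)⁻¹ * y c := by
      funext c
      rw [div_eq_inv_mul]
    rw [h1, PDC_hom H hH, inv_pow, inv_pow, mul_pow]
    have h2 : θ ^ h ≠ 0 := pow_ne_zero _ hθ0
    have h3 : y d ^ h ≠ 0 := pow_ne_zero _ (hyd d)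
    field_simp
  have hmapev : ∀ H : MvPolynomial (Fin (n + 1)) Ω,
      eval₂ (tm τ) (fun c => y c / y d) H = aeval (fun c => y c / y d) (map τ H) := by
    intro H
    rw [aeval_def, eval₂_map]
    rfl
  have hnon : ∀ a, ι a ∈ V'.nonunits ↔ a ∈ V.nonunits := by
    intro a
    rw [ValuationSubring.mem_nonunits_iff_or, ValuationSubring.mem_nonunits_iff_or,
      map_eq_zero_iff ι ι.toRingHom.injective, ← map_inv₀, hV'']
  have hXd : (am (X d))⁻¹ ∈ V := hV2 _ hd
  have hfin := hSPZ K Ω Mer m n e S g {H | ∃ j ∈ J, H = F j} Q hS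
    (by
      rintro H ⟨j, -, rfl⟩
      exact hF j)
    hQh
    (by
      intro v hv t ht hz
      have h1 := hRz (fun c => eval v (t c)) ⟨⟨v, hv, t, ht, rfl⟩, fun j hj => hz _ ⟨j, hj, rfl⟩⟩
      rw [hQ, eval_rename]
      exact h1)
    (tm τ) V'
    (by
      intro a
      have h1 : tm τ a = ι (algebraMap ℂ _ (τ a)) := by
        rw [AlgHom.commutes]
        rfl
      rw [h1, hV'', IsScalarTower.algebraMap_apply ℂ (MvPolynomial (Fin (n + 1)) ℂ)
        (FractionRing (MvPolynomial (Fin (n + 1)) ℂ)), ← ham]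
      exact hV1 _)
    x hx hx0 s' hs' d (hyd d)
    (by
      intro c
      have h1 : eval₂ (tm τ) x (s' c) / eval₂ (tm τ) x (s' d) =
          ι (am (X c) * (am (X d))⁻¹) := by
        show y c / y d = _
        rw [map_mul, map_inv₀, hιX, hιX]
        have := hyd d
        field_simp
      rw [h1, hV'']
      exact V.mul_mem _ _ (hV1 _) hXd)
    (by
      rintro H ⟨j, hj, rfl⟩
      show eval₂ (tm τ) (fun c => y c / y d) (F j) ∈ V'.nonunits
      obtain ⟨h, hh⟩ := hF j
      rw [hmapev, hval h _ (hh.map τ), hnon]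
      obtain ⟨q, hq⟩ : P₁ ∣ map τ (F j) := hP₁P.trans (map_dvd (map τ) ((hJ j).1 hj))
      rw [hq, map_mul, mul_assoc]
      have h1 : am P₁ ∈ V.nonunits := by
        rw [ValuationSubring.mem_nonunits_iff_or]
        exact Or.inr hV3
      have h2 : am q * (am (X d))⁻¹ ^ h ∈ V := V.mul_mem _ _ (hV1 _) (pow_mem hXd h)
      rw [ValuationSubring.mem_nonunits_iff] at h1 ⊢
      rw [map_mul]
      rw [← ValuationSubring.valuation_le_one_iff] at h2
      exact mul_lt_one_of_lt_of_le h1 h2)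
  have hfin' : eval₂ (tm τ) (fun c => y c / y d) Q ∈ V'.nonunits := hfin
  rw [hmapev, hval e _ (hQh.map τ), hnon, ValuationSubring.mem_nonunits_iff_or] at hfin'
  have hQm : map τ Q ≠ 0 := by
    intro h0
    exact hQ0 (map_injective τ τ.injective (by rw [h0, map_zero]))
  have hXd0 : am (X d) ≠ 0 := ham0 _ (X_ne_zero _)
  rcases hfin' with h | h
  · rcases mul_eq_zero.1 h with h | h
    · exact ham0 _ hQm h
    · exact hXd0 (inv_eq_zero.1 (eq_zero_of_pow_eq_zero h))
  · apply h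
    rw [mul_inv, inv_pow, inv_inv]
    exact V.mul_mem _ _ (hV2 _ hP₁Q) (pow_mem (hV1 _) e)

end Pool.ThmQ
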