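import Pool.Agent.Work.MP_f82ddf_Q.Interface

set_option autoImplicit false

/-! # Block REL (MP_f82ddf_nt, THEOREM U) -/

namespace Pool.ThmQ

open MvPolynomial Finset Pool.Agent.Work.MP_f82ddf_nt Pool.Agent.Work.MP_f82ddf_nt.DQ Pool.ThmM
  Pool.ThmM0 Pool.ThmP

/-- evaluation of a composite form -/
theorem REL_eval {Ω κ : Type} [Field Ω] [Field κ] {a b : ℕ} (f : Ω →+* κ) (x : Fin b → κ)
    (t : Fin a → MvPolynomial (Fin b) Ω) (G : MvPolynomial (Fin a) Ω) :
    eval₂ f x (aeval t G) = eval₂ f (fun c => eval₂ f x (t c)) G :=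
  eval₂Hom_bind₁ f x t G

/-- the same in `Mer` -/
theorem REL_mer {Ω : Type} [Field Ω] {a b : ℕ} (τ : Ω →+* ℂ) (x : Fin b → Mer)
    (t : Fin a → MvPolynomial (Fin b) Ω) (G : MvPolynomial (Fin a) Ω) :
    eval₂ (tm τ) x (aeval t G) = aeval (fun c => eval₂ (tm τ) x (t c)) (map τ G) := by
  rw [REL_eval, aeval_def, eval₂_map]
  rfl

theorem p_REL (hNUL : Pool.ThmP.Stmt_NUL) : Stmt_REL := by
  intro K Ω _ _ _ _ m n N s S g F J hD τ x hx t ht hF r
  obtain ⟨e, R, hR0, hRh, hR⟩ := hD r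
  have h1 := hNUL K Ω Mer m S {H | ∃ j ∈ J, H = aeval t (F j)} (aeval (fun i => t (r i)) R)
    (by
      intro v hv hE
      have h2 : eval v (aeval (fun i => t (r i)) R) = eval (fun i => eval v (t (r i))) R :=
        REL_eval (RingHom.id Ω) v (fun i => t (r i)) R
      rw [h2]
      refine hR (fun c => eval v (t c)) ⟨⟨v, hv, t, ht, rfl⟩, fun j hj => ?_⟩
      have h3 := hE (aeval t (F j)) ⟨j, hj, rfl⟩
      rw [← h3]
      exact (REL_eval (RingHom.id Ω) v t (F j)).symm) (tm τ) x hx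
    (by
      rintro H ⟨j, hj, rfl⟩
      rw [REL_mer]
      exact hF j hj)
  rw [REL_mer] at h1
  exact ⟨e, map τ R, fun h => hR0 (map_injective τ τ.injective (by rw [h, map_zero])),
    hRh.map τ, h1⟩

end Pool.ThmQ
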