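import Pool.Agent.Work.MP_f82ddf_Q.Interface

set_option autoImplicit false

/-! # Block RKB: the rank of forms with common zeros -/

namespace Pool.ThmQ

open MvPolynomial Finset Pool.Agent.Work.MP_f82ddf_nt Pool.Agent.Work.MP_f82ddf_nt.DQ Pool.ThmM
  Pool.ThmM0 Pool.ThmP

/-- the value of a form from its vector of coefficients -/
theorem RKB_eval {Ω : Type} [Field Ω] {n t q : ℕ} (ε : Fin q → Fin (n + 1) →₀ ℕ)
    (hε : Function.Injective ε)
    (hs : ∀ μ : Fin (n + 1) →₀ ℕ, ∑ i, μ i = t ↔ ∃ c, ε c = μ)
    (F : MvPolynomial (Fin (n + 1)) Ω) (hF : F.IsHomogeneous t) (w : Fin (n + 1) → Ω) :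
    eval w F = ∑ c, coeff (ε c) F * ∏ i, w i ^ ε c i := by
  classical
  rw [eval_eq']
  have h1 : F.support ⊆ Finset.univ.image ε := by
    intro μ hμ
    rw [Finset.mem_image]
    have h2 : coeff μ F ≠ 0 := mem_support_iff.1 hμ
    have h3 := hF h2
    have h4 : ∑ i, μ i = t := by
      rw [← h3, Finsupp.weight_apply, Finsupp.sum_fintype]
      · simp
      · intro i
        simp
    obtain ⟨c, hc⟩ := (hs μ).1 h4
    exact ⟨c, Finset.mem_univ _, hc⟩
  rw [Finset.sum_subset h1, Finset.sum_image]
  · intro a _ b _ hab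
    exact hε hab
  · intro μ _ hμ
    rw [notMem_support_iff.1 hμ, zero_mul]

/-- the rank can only decrease under a homomorphism of fields -/
theorem RKB_rank {Ω : Type} [Field Ω] (τ : Ω →+* ℂ) {κ ι : Type} [Fintype κ] (u : ι → κ → Ω)
    (J : Set ι) :
    Module.finrank ℂ (Submodule.span ℂ ((fun j c => τ (u j c)) '' J)) ≤
      Module.finrank Ω (Submodule.span Ω (u '' J)) := by
  classical
  let U := Submodule.span Ω (u '' J)
  let b := Module.finBasis Ω U
  let v : Fin (Module.finrank Ω U) → κ → ℂ := fun i c => τ ((b i : κ → Ω) c)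
  have h1 : Submodule.span ℂ ((fun j c => τ (u j c)) '' J) ≤ Submodule.span ℂ (Set.range v) := by
    rw [Submodule.span_le]
    rintro _ ⟨j, hj, rfl⟩
    have hu : u j ∈ U := Submodule.subset_span ⟨j, hj, rfl⟩
    have h2 := b.sum_repr ⟨u j, hu⟩
    have h3 : (fun c => τ (u j c)) = ∑ i, τ (b.repr ⟨u j, hu⟩ i) • v i := by
      funext c
      have h4 : u j c = ∑ i, b.repr ⟨u j, hu⟩ i * (b i : κ → Ω) c := by
        have h5 := congrArg (fun x : U => (x : κ → Ω) c) h2
        simp only [Submodule.coe_sum, Submodule.coe_smul, Finset.sum_apply, Pi.smul_apply,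
          smul_eq_mul] at h5
        exact h5.symm
      rw [h4, map_sum, Finset.sum_apply]
      refine Finset.sum_congr rfl fun i _ => ?_
      rw [map_mul, Pi.smul_apply, smul_eq_mul]
    show (fun c => τ (u j c)) ∈ _
    rw [h3]
    exact Submodule.sum_mem _ fun i _ => Submodule.smul_mem _ _ (Submodule.subset_span ⟨i, rfl⟩)
  calc _ ≤ Module.finrank ℂ (Submodule.span ℂ (Set.range v)) := Submodule.finrank_mono h1
    _ ≤ Fintype.card (Fin (Module.finrank Ω U)) := finrank_range_le_card v
    _ = _ := by rw [Fintype.card_fin]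

/-- the bound over `Ω` -/
theorem RKB_main {Ω : Type} [Field Ω] {n t N q : ℕ} (a : ℕ) (ε : Fin q → Fin (n + 1) →₀ ℕ)
    (hε : Function.Injective ε)
    (hs : ∀ μ : Fin (n + 1) →₀ ℕ, ∑ i, μ i = t ↔ ∃ c, ε c = μ)
    (F : Fin (N + 1) → MvPolynomial (Fin (n + 1)) Ω) (J : Finset (Fin (N + 1)))
    (Z : Set (Fin (n + 1) → Ω)) (ht : 1 ≤ t) (hF : ∀ j, (F j).IsHomogeneous t)
    (hZ : ∀ w ∈ Z, ∀ j ∈ J, eval w (F j) = 0) (hd : ∀ a' < a, ¬ DimLT a' Z) :
    Module.finrank Ω (Submodule.span Ω
      ((fun j (c : Fin q) => coeff (ε c) (F j)) '' (J : Set (Fin (N + 1))))) + a ≤ q := by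
  classical
  set U := Submodule.span Ω ((fun j (c : Fin q) => coeff (ε c) (F j)) ''
    (J : Set (Fin (N + 1)))) with hU
  rcases a with _ | a
  · have := Submodule.finrank_le U
    rw [Module.finrank_fin_fun] at this
    simpa using this
  · have h1 := hd a (Nat.lt_succ_self a)
    unfold DimLT at h1
    push Not at h1
    obtain ⟨r, hr⟩ := h1
    have hr' : ∀ (e : ℕ) (R : MvPolynomial (Fin (a + 1)) Ω), R.IsHomogeneous e →
        (∀ w ∈ Z, eval (fun i => w (r i)) R = 0) → R = 0 := by
      intro e R hR hv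
      by_contra hne
      obtain ⟨w, hw, hw2⟩ := hr e R hne hR
      exact hw2 (hv w hw)
    have ht0 : t ≠ 0 := by omega
    have hc : ∀ i : Fin (a + 1), ∃ c, ε c = Finsupp.single (r i) t := by
      intro i
      refine (hs _).1 ?_
      rw [Finset.sum_eq_single (r i)]
      · simp
      · intro k _ hk
        exact Finsupp.single_eq_of_ne hk
      · intro h
        exact absurd (Finset.mem_univ _) h
    choose c hc using hc
    let φ : (Fin (n + 1) → Ω) → (Fin q → Ω) →ₗ[Ω] Ω := fun w =>
      { toFun := fun x => ∑ c, x c * ∏ i, w i ^ ε c i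
        map_add' := by
          intro x y
          simp only [Pi.add_apply, add_mul, Finset.sum_add_distrib]
        map_smul' := by
          intro k x
          simp only [Pi.smul_apply, smul_eq_mul, RingHom.id_apply, Finset.mul_sum, mul_assoc] }
    have hφU : ∀ w ∈ Z, ∀ x ∈ U, φ w x = 0 := by
      intro w hw x hx
      have h2 : U ≤ LinearMap.ker (φ w) := by
        rw [hU, Submodule.span_le]
        rintro _ ⟨j, hj, rfl⟩
        show φ w (fun c => coeff (ε c) (F j)) = 0
        have h3 := RKB_eval ε hε hs (F j) (hF j) w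
        rw [hZ w hw j hj] at h3
        exact h3.symm
      exact h2 hx
    let E : (Fin (a + 1) → Ω) →ₗ[Ω] (Fin q → Ω) :=
      { toFun := fun β => ∑ i, Pi.single (c i) (β i)
        map_add' := by
          intro x y
          simp only [Pi.add_apply, Pi.single_add, Finset.sum_add_distrib]
        map_smul' := by
          intro k x
          simp only [Pi.smul_apply, RingHom.id_apply, Finset.smul_sum, ← Pi.single_smul] }
    have hφE : ∀ w β, φ w (E β) = ∑ i, β i * w (r i) ^ t := by
      intro w β
      show φ w (∑ i, Pi.single (c i) (β i)) = _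
      rw [map_sum]
      refine Finset.sum_congr rfl fun i _ => ?_
      show ∑ k, (Pi.single (c i) (β i) : Fin q → Ω) k * ∏ l, w l ^ ε k l = _
      rw [Finset.sum_eq_single (c i)]
      · rw [Pi.single_eq_same, hc i]
        congr 1
        rw [Finset.prod_eq_single (r i)]
        · simp
        · intro k _ hk
          rw [Finsupp.single_eq_of_ne hk, pow_zero]
        · intro h
          exact absurd (Finset.mem_univ _) h
      · intro k _ hk
        rw [Pi.single_eq_of_ne hk, zero_mul]
      · intro h
        exact absurd (Finset.mem_univ _) h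
    have hE : ∀ β, E β ∈ U → β = 0 := by
      intro β hβ
      have h2 : (∑ i, C (β i) * X i ^ t : MvPolynomial (Fin (a + 1)) Ω) = 0 := by
        refine hr' t _ ?_ ?_
        · refine IsHomogeneous.sum _ _ _ fun i _ => ?_
          exact (isHomogeneous_X_pow i t).C_mul (β i)
        · intro w hw
          rw [map_sum]
          have h3 := hφU w hw _ hβ
          rw [hφE] at h3
          rw [← h3]
          refine Finset.sum_congr rfl fun i _ => ?_
          rw [map_mul, map_pow, eval_C, eval_X]
      funext i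
      have h3 := congrArg (coeff (Finsupp.single i t)) h2
      rw [coeff_sum, coeff_zero, Finset.sum_eq_single i] at h3
      · rw [coeff_C_mul, coeff_X_pow, if_pos rfl, mul_one] at h3
        exact h3
      · intro k _ hk
        rw [coeff_C_mul, coeff_X_pow, if_neg, mul_zero]
        rw [Finsupp.single_left_inj ht0]
        exact hk
      · intro h
        exact absurd (Finset.mem_univ _) h
    let Φ : (U × (Fin (a + 1) → Ω)) →ₗ[Ω] (Fin q → Ω) := LinearMap.coprod U.subtype E
    have hΦ : Function.Injective Φ := by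
      rw [← LinearMap.ker_eq_bot, LinearMap.ker_eq_bot']
      rintro ⟨x, β⟩ hx
      have h2 : (x : Fin q → Ω) + E β = 0 := hx
      have h3 : E β = -(x : Fin q → Ω) := eq_neg_of_add_eq_zero_right h2
      have h4 : β = 0 := hE β (by rw [h3]; exact U.neg_mem x.2)
      subst h4
      rw [map_zero, add_zero] at h2
      exact Prod.ext (Subtype.ext h2) rfl
    have h5 := LinearMap.finrank_le_finrank_of_injective hΦ
    rw [Module.finrank_prod, Module.finrank_fin_fun, Module.finrank_fin_fun] at h5
    exact h5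

theorem p_RKB : Stmt_RKB := by
  intro Ω _ τ n t N a ε hε hs F J Z ht hF hZ hd
  have h1 := RKB_main a ε hε hs F J Z ht hF hZ hd
  have h2 := RKB_rank τ (fun (j : Fin (N + 1)) (c : Fin ((n + t).choose t - 1 + 1)) =>
    coeff (ε c) (F j)) (J : Set (Fin (N + 1)))
  have h3 : (fun (j : Fin (N + 1)) (c : Fin ((n + t).choose t - 1 + 1)) =>
      coeff (ε c) (map τ (F j))) = fun j c => τ (coeff (ε c) (F j)) := by
    funext j c
    rw [coeff_map]
  rw [h3]
  omega

end Pool.ThmQ
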