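import Pool.Agent.Work.MP_f82ddf_Q.Interface
import Pool.Agent.Work.MP_f82ddf_P.B_GGL

set_option autoImplicit false

/-! # THEOREM U, block UAB (helper87, after B_ONP of helper52): the abstract theorem -/

namespace Pool.ThmQ

open MvPolynomial Finset Pool.Agent.Work.MP_f82ddf_nt Pool.Agent.Work.MP_f82ddf_nt.DQ Pool.ThmM
  Pool.ThmM0 Pool.ThmP

theorem p_UAB (hCDR : Stmt_CDR) (hBAS : Pool.ThmP.Stmt_BAS) (hREP : Pool.ThmP.Stmt_REP)
    (hEXPO : Pool.ThmM0.Stmt_EXPO) : Stmt_UAB := by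
  classical
  intro n t c
  choose N₁ hN₁ using hCDR
  obtain ⟨M, hM⟩ : ∃ M : ℕ, M = (n + t).choose t - 1 := ⟨_, rfl⟩
  obtain ⟨B, hB⟩ : ∃ B : ℕ, B = (Finset.range (M + 1)).sup (fun ρ => N₁ ρ (c + 1)) + 1 := ⟨_, rfl⟩
  refine ⟨c + c * B + 1, ?_⟩
  intro k N s δ hk hN hsM ε hε hεs G hG y hy hquot hgood
  rw [← hM] at hsM ⊢
  by_contra hcon
  push Not at hcon
  have hsδ : s < δ := lt_of_le_of_lt (Nat.le_add_right _ _) hcon
  -- the vector of the monomials
  obtain ⟨y', hy'⟩ : ∃ y' : Fin ((n + t).choose t - 1 + 1) → Mer,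
      ∀ d, y' d = ∏ i, y i ^ ε d i := ⟨_, fun _ => rfl⟩
  have hy'0 : y' ≠ 0 := by
    obtain ⟨i₀, hi₀⟩ := Function.ne_iff.1 hy
    obtain ⟨d, hd⟩ := (hεs (Finsupp.single i₀ t)).1 (by simp [Finsupp.single_apply])
    intro h
    have h1 : y' d = y i₀ ^ t := by
      rw [hy', hd, Finset.prod_eq_single i₀]
      · rw [Finsupp.single_eq_same]
      · intro i _ hi
        rw [Finsupp.single_eq_of_ne hi, pow_zero]
      · intro h
        exact absurd (mem_univ _) h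
    rw [h] at h1
    exact pow_ne_zero t hi₀ h1.symm
  obtain ⟨ρ, ι, b, hρ, hlin, hyb, -⟩ := hBAS _ y' hy'0
  obtain ⟨cv, hcv⟩ : ∃ cv : Fin (N + 1) → Fin ((n + t).choose t - 1 + 1) → ℂ,
      cv = fun (j : Fin (N + 1)) (d : Fin ((n + t).choose t - 1 + 1)) => coeff (ε d) (G j) :=
    ⟨_, rfl⟩
  obtain ⟨u, hu⟩ : ∃ u : Fin (N + 1) → Fin (ρ + 1) → ℂ,
      ∀ j i, u j i = ∑ d, cv j d * b d i := ⟨_, fun _ _ => rfl⟩
  obtain ⟨z, hz⟩ : ∃ z : Fin (N + 1) → Mer, ∀ j, z j = aeval y (G j) := ⟨_, fun _ => rfl⟩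
  have hzu : ∀ j, z j = ∑ i, algebraMap ℂ Mer (u j i) * y' (ι i) := by
    intro j
    have h0 := GGL_val (RingHom.id ℂ) ε hε hεs (G j) (hG j) y
    rw [map_id] at h0
    rw [hz, h0]
    calc ∑ d, algebraMap ℂ Mer ((RingHom.id ℂ) (coeff (ε d) (G j))) * ∏ i, y i ^ ε d i
        = ∑ d, ∑ i, algebraMap ℂ Mer (cv j d * b d i) * y' (ι i) := by
          refine Finset.sum_congr rfl fun d _ => ?_
          rw [← hy', hyb d, Finset.mul_sum]
          refine Finset.sum_congr rfl fun i _ => ?_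
          rw [map_mul, mul_assoc, hcv]
          rfl
      _ = ∑ i, ∑ d, algebraMap ℂ Mer (cv j d * b d i) * y' (ι i) := Finset.sum_comm
      _ = ∑ i, algebraMap ℂ Mer (u j i) * y' (ι i) := by
          refine Finset.sum_congr rfl fun i _ => ?_
          rw [hu, map_sum, Finset.sum_mul]
  have hlin' := Fintype.linearIndependent_iff.1 hlin
  have hz0 : ∀ j, z j = 0 → u j = 0 := by
    intro j hj
    rw [hzu] at hj
    funext i
    exact hlin' (u j) (by simpa only [Algebra.smul_def] using hj) i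
  have hu0 : ∀ j, u j = 0 → z j = 0 := by
    intro j hj
    rw [hzu, hj]
    simp
  -- (a)
  have ha : (Finset.univ.filter fun j => u j = 0).card ≤ c := by
    by_contra hne
    push Not at hne
    obtain ⟨a, -, -, ⟨j, hj, hj'⟩, -⟩ := hgood _ hne
    exact hj' ((hz j).symm.trans (hu0 j (Finset.mem_filter.1 hj).2))
  -- (b)
  have hb : ∀ j, u j ≠ 0 → {j' | ∃ a : ℂ, u j' = a • u j}.ncard ≤ c := by
    intro j hj
    by_contra hne
    push Not at hne
    have hjz : z j ≠ 0 := fun h => hj (hz0 j h)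
    have hfin : {j' | ∃ a : ℂ, u j' = a • u j}.Finite := Set.toFinite _
    obtain ⟨a, has, -, -, hg3⟩ := hgood hfin.toFinset
      (by rwa [← Set.ncard_eq_toFinset_card _ hfin])
    obtain ⟨t', ht1, ht2⟩ := hg3 j (hfin.mem_toFinset.2 ⟨1, (one_smul ℂ _).symm⟩)
      (by rw [← hz]; exact hjz)
    obtain ⟨j', hj', ht⟩ := ht2 ⟨0, by omega⟩
    obtain ⟨a', ha'⟩ := hfin.mem_toFinset.1 hj'
    apply ht1.transcendental ⟨0, by omega⟩
    have h1 : z j' = algebraMap ℂ Mer a' * z j := by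
      rw [hzu, hzu, ha', Finset.mul_sum]
      refine Finset.sum_congr rfl fun i _ => ?_
      rw [Pi.smul_apply, smul_eq_mul, map_mul, mul_assoc]
    rw [ht, ← hz, ← hz, h1, mul_div_assoc, div_self hjz, mul_one]
    exact isAlgebraic_algebraMap a'
  have hBN : N₁ ρ (c + 1) ≤ B := by
    rw [hB]
    have h1 : N₁ ρ (c + 1) ≤ (Finset.range (M + 1)).sup (fun ρ => N₁ ρ (c + 1)) :=
      Finset.le_sup (f := fun ρ => N₁ ρ (c + 1)) (Finset.mem_range.2 (by omega))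
    omega
  obtain ⟨S₁, hS1, hS2, hS3⟩ := hREP ρ c (N + 1) B u ha hb (by omega)
  obtain ⟨v₀, hv₀⟩ : S₁.Nonempty := Finset.card_pos.1 (by omega)
  obtain ⟨hv₀0, j₀, hj₀⟩ := hS3 v₀ hv₀
  have hzj₀ : z j₀ ≠ 0 := fun h => hv₀0 (by rw [← hj₀]; exact hz0 j₀ h)
  have hkth : ∀ j, ∃ w : Mer, z j / z j₀ = w ^ k := by
    intro j
    obtain ⟨w, hw⟩ := hquot j j₀ (by rw [← hz]; exact hzj₀)
    exact ⟨w, by rw [hz, hz]; exact hw⟩
  obtain ⟨φ, hφ⟩ := hEXPO
  have hinj : Function.Injective φ := φ.toRingHom.injective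
  obtain ⟨x'', hx''⟩ : ∃ x'' : Fin (ρ + 1) → Mer, ∀ i, x'' i = φ (y' (ι i) / z j₀) :=
    ⟨_, fun _ => rfl⟩
  have hsum : ∀ v : Fin (ρ + 1) → ℂ, ∑ i, algebraMap ℂ Mer (v i) * x'' i =
      φ ((∑ i, algebraMap ℂ Mer (v i) * y' (ι i)) / z j₀) := by
    intro v
    rw [Finset.sum_div, map_sum]
    refine Finset.sum_congr rfl fun i _ => ?_
    rw [mul_div_assoc, map_mul, AlgHom.commutes, hx'']
  have hsumu : ∀ j, ∑ i, algebraMap ℂ Mer (u j i) * x'' i = φ (z j / z j₀) := by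
    intro j
    rw [hsum, ← hzu]
  have hlin'' : LinearIndependent ℂ x'' := by
    rw [Fintype.linearIndependent_iff]
    intro v hv
    simp only [Algebra.smul_def] at hv
    rw [hsum, map_eq_zero_iff φ hinj, div_eq_zero_iff] at hv
    rcases hv with hv | hv
    · exact hlin' v (by simpa only [Algebra.smul_def] using hv)
    · exact absurd hv hzj₀
  obtain ⟨T, hTS, hTc, hT⟩ := hN₁ ρ (c + 1) S₁ hS1 (hBN.trans hS2) k x'' hk hlin''
    (fun i => by rw [hx'']; exact hφ _) (by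
      intro v hv
      obtain ⟨-, j, rfl⟩ := hS3 v hv
      obtain ⟨w, hw⟩ := hkth j
      exact ⟨φ w, by rw [hsumu, hw, map_pow]⟩)
  have hjj : ∃ jj : (Fin (ρ + 1) → ℂ) → Fin (N + 1), ∀ v ∈ S₁, u (jj v) = v := by
    refine ⟨fun v => if h : ∃ j, u j = v then h.choose else 0, fun v hv => ?_⟩
    have h := (hS3 v hv).2
    simp only [h, dif_pos]
    exact h.choose_spec
  obtain ⟨jj, hjj⟩ := hjj
  have hTcard : (T.image jj).card = T.card := by
    apply Finset.card_image_of_injOn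
    intro v hv v' hv' h
    rw [← hjj v (hTS hv), ← hjj v' (hTS hv'), h]
  obtain ⟨a, has, hg1, ⟨j₁, hj₁, hzj₁⟩, hg3⟩ := hgood (T.image jj) (by omega)
  obtain ⟨u₀, hu₀, rfl⟩ := Finset.mem_image.1 hj₁
  obtain ⟨t', ht1, ht2⟩ := hg3 (jj u₀) hj₁ hzj₁
  have ht3 : ∀ i, ∃ v ∈ T, t' i = z (jj v) / z (jj u₀) := by
    intro i
    obtain ⟨j, hj, hti⟩ := ht2 i
    obtain ⟨v, hv, rfl⟩ := Finset.mem_image.1 hj
    exact ⟨v, hv, by rw [hti, hz, hz]⟩
  choose vv hvT hvt using ht3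
  have hfin := hT (δ - a) u₀ vv hu₀ hvT (by
    have h1 : AlgebraicIndependent ℂ (fun i => φ (t' i)) := ht1.map' (f := φ) hinj
    have h2 : (fun j => (∑ i, algebraMap ℂ Mer (vv j i) * x'' i) /
        ∑ i, algebraMap ℂ Mer (u₀ i) * x'' i) = fun i => φ (t' i) := by
      funext j
      have h3 : ∀ v ∈ T, ∑ i, algebraMap ℂ Mer (v i) * x'' i = φ (z (jj v) / z j₀) := by
        intro v hv
        rw [← hsumu (jj v), hjj v (hTS hv)]
      rw [h3 _ (hvT j), h3 _ hu₀, ← map_div₀, div_div_div_cancel_right₀ hzj₀, hvt]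
    rw [h2]
    exact h1)
  -- the rank
  have hrk : Module.finrank ℂ (Submodule.span ℂ (T : Set (Fin (ρ + 1) → ℂ))) ≤
      Module.finrank ℂ (Submodule.span ℂ (cv '' ((T.image jj : Finset (Fin (N + 1))) :
        Set (Fin (N + 1))))) := by
    have h1 : Submodule.span ℂ (T : Set (Fin (ρ + 1) → ℂ)) ≤
        (Submodule.span ℂ (cv '' ((T.image jj : Finset (Fin (N + 1))) :
        Set (Fin (N + 1))))).map (Matrix.vecMulLinear b) := by
      rw [Submodule.span_le]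
      intro v hv
      refine ⟨cv (jj v), Submodule.subset_span ⟨jj v, ?_, rfl⟩, ?_⟩
      · exact Finset.mem_coe.2 (Finset.mem_image_of_mem jj hv)
      · rw [Matrix.vecMulLinear_apply]
        funext i
        have h2 := hu (jj v) i
        rw [hjj v (hTS hv)] at h2
        rw [h2]
        rfl
    exact (Submodule.finrank_mono h1).trans (Submodule.finrank_map_le _ _)
  have hg1' : Module.finrank ℂ (Submodule.span ℂ (cv '' ((T.image jj : Finset (Fin (N + 1))) :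
        Set (Fin (N + 1))))) + a ≤ (n + t).choose t - 1 + 1 := by
    rw [hcv]
    exact hg1
  have h5 : (δ - a) * k + 1 + a ≤ M + 1 := by
    rw [hM]
    omega
  obtain ⟨d, hd⟩ : ∃ d, d = δ - s := ⟨_, rfl⟩
  obtain ⟨e, he⟩ : ∃ e, e = s - a := ⟨_, rfl⟩
  have h6 : δ - a = d + e := by omega
  rw [h6, add_mul] at h5
  have h7 : e ≤ e * k := Nat.le_mul_of_pos_right e (by omega)
  have h8 : d * k ≤ M - s := by omega
  have h9 : d ≤ (M - s) / k := (Nat.le_div_iff_mul_le (by omega)).2 h8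
  omega

end Pool.ThmQ
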