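import Pool.Agent.Work.MP_f82ddf_Q.Interface

set_option autoImplicit false

/-! # Block UCV: entire curves, the closure of `g(f)` -/

namespace Pool.ThmQ

open MvPolynomial Finset Pool.Agent.Work.MP_f82ddf_nt Pool.Agent.Work.MP_f82ddf_nt.DQ Pool.ThmM
  Pool.ThmM0 Pool.ThmP

theorem UCV_scale {σ A : Type} [Fintype σ] [Field A] [Algebra ℂ A] {d : ℕ}
    (f : MvPolynomial σ ℂ) (hf : f.IsHomogeneous d) (a : A) (y : σ → A) :
    aeval (fun i => a * y i) f = a ^ d * aeval y f := by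
  rw [aeval_def, aeval_def, eval₂_eq', eval₂_eq', Finset.mul_sum]
  refine Finset.sum_congr rfl fun t ht => ?_
  have h1 : ∑ i, t i = d := by
    by_contra hne
    refine (mem_support_iff.1 ht) (hf.coeff_eq_zero ?_)
    rwa [Finsupp.degree_eq_sum]
  rw [← h1, ← Finset.prod_pow_eq_pow_sum]
  simp only [mul_pow, Finset.prod_mul_distrib]
  ring

theorem p_UCV (hUVD : Stmt_UVD) (hMPT : Pool.ThmP.Stmt_MPT) (hMREL : Pool.ThmM0.Stmt_MREL) :
    Stmt_UCV := by
  intro n e
  obtain ⟨N₀, h⟩ := hUVD n e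
  refine ⟨N₀, fun k N s b hk hs hb K Ω _ _ _ _ m S hS g F hF hZ hdiv hN τ f hf hfX => ?_⟩
  obtain ⟨φ, hφ, i, h1, h2, h3, _⟩ :=
    exists_mer_of_curve hS (τ.comp (algebraMap K Ω)) f hf hfX
  set x : Fin (m + 1) → Mer := fun j => Mer.mk (φ j) (hφ j) with hxdef
  have hx : OnK (tm τ) S x := fun F hF => h2 F hF
  have hx0 : x ≠ 0 := by
    intro h0
    have h4 : x i = 1 := h1
    rw [h0] at h4
    exact zero_ne_one h4
  have hM := hMPT K Ω Mer m n S g (tm τ) x hx
  obtain ⟨s₀, hs₀, c₀, hc₀⟩ := hM.1 hx0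
  have hrel := h k N s b hk hs hb K Ω m S hS g F hF hZ hdiv hN τ x hx hx0 s₀ hs₀ ⟨c₀, hc₀⟩
  intro r
  obtain ⟨d, P, hP0, hPd, hP⟩ := hrel r
  refine ⟨d, P, hP0, hPd, ?_⟩
  rintro w ⟨z, t, ht, rfl⟩
  obtain ⟨e', he'⟩ := g.homogeneous t ht
  have hsc : ∀ b, eval₂ (tm τ) x (t b)
      = eval₂ (tm τ) x (t c₀) / eval₂ (tm τ) x (s₀ c₀) * eval₂ (tm τ) x (s₀ b) := by
    intro b
    have h4 := hM.2 t ht s₀ hs₀ b c₀
    rw [div_mul_eq_mul_div, eq_div_iff hc₀]
    exact h4
  have hzero : aeval (fun b => eval₂ (tm τ) x (t (r b))) P = 0 := by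
    have h5 : (fun b => eval₂ (tm τ) x (t (r b))) = fun b =>
        eval₂ (tm τ) x (t c₀) / eval₂ (tm τ) x (s₀ c₀) * eval₂ (tm τ) x (s₀ (r b)) :=
      funext fun b => hsc (r b)
    rw [h5, UCV_scale P hPd, hP, mul_zero]
  set Q : MvPolynomial (Fin (m + 1)) ℂ := aeval (fun b => MvPolynomial.map τ (t (r b))) P
    with hQdef
  have hQh : Q.IsHomogeneous (e' * d) :=
    hPd.aeval _ fun b => (he' (r b)).map τ
  have hQx : aeval x Q = 0 := by
    have h6 : aeval x Q = aeval (fun b => aeval x (MvPolynomial.map τ (t (r b)))) P := by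
      rw [hQdef, ← AlgHom.comp_apply, comp_aeval]
    have h7 : (fun b => aeval x (MvPolynomial.map τ (t (r b)))) =
        fun b => eval₂ (tm τ) x (t (r b)) := by
      funext b
      rw [aeval_def, eval₂_map]
      rfl
    rw [h6, h7, hzero]
  have h8 := hMREL m f φ hφ hf h3 (m + 1) (e' * d) id Q hQh hQx z
  have h9 : eval (f z).rep Q = eval (fun b => eval₂ τ (f z).rep (t (r b))) P := by
    have h10 : eval (f z).rep Q
        = eval (fun b => eval (f z).rep (MvPolynomial.map τ (t (r b)))) P := by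
      have h11 : ∀ G : MvPolynomial (Fin (bd n e k s + 1 + 1)) ℂ,
          eval (f z).rep (aeval (fun b => MvPolynomial.map τ (t (r b))) G)
            = eval (fun b => eval (f z).rep (MvPolynomial.map τ (t (r b)))) G := by
        intro G
        induction G using MvPolynomial.induction_on with
        | C a => simp
        | add p q hp hq => rw [map_add, map_add, map_add, hp, hq]
        | mul_X p j hp => rw [map_mul, map_mul, map_mul, hp, aeval_X, eval_X]
      exact h11 P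
    rw [h10]
    congr 1
    apply congrArg
    funext b
    rw [eval_map]
  rw [← h9]
  exact h8

end Pool.ThmQ
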