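import Pool.Agent.Work.MP_f82ddf_Q.Interface
import Pool.Agent.Work.MP_f82ddf_P.B_GGL

set_option autoImplicit false

/-! # Block UDM (MP_f82ddf_nt, THEOREM U) -/

namespace Pool.ThmQ

open MvPolynomial Finset Pool.Agent.Work.MP_f82ddf_nt Pool.Agent.Work.MP_f82ddf_nt.DQ Pool.ThmM
  Pool.ThmM0 Pool.ThmP

theorem p_UDM (hUAB : Stmt_UAB) (hREL : Stmt_REL) (hKEY : Stmt_KEY) (hRKB : Stmt_RKB)
    (hVER : Pool.ThmP.Stmt_VER) (hKTH : Pool.ThmP.Stmt_KTH) : Stmt_UDM := by
  classical
  intro n t c ht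
  obtain ⟨N₀, hN₀⟩ := hUAB n t c
  refine ⟨N₀, ?_⟩
  intro k N s hk hN hsM K Ω _ _ _ _ m S hS g F hF hJ hdiv τ x hx hx0 s' hs' hsne r
  by_contra hno
  have hNR : NoRel (fun i => eval₂ (tm τ) x (s' (r i))) := by
    intro e' P hP hPh h0
    exact hno ⟨e', P, hP, hPh, h0⟩
  obtain ⟨ε, g', hε, hεs, hgt, -, hver⟩ := hVER K Ω m n t S g ht
  obtain ⟨y, hy⟩ : ∃ y : Fin (n + 1) → Mer, y = fun c => eval₂ (tm τ) x (s' c) := ⟨_, rfl⟩
  have hy0 : y ≠ 0 := by
    obtain ⟨c, hc⟩ := hsne
    intro h
    apply hc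
    have h1 := congrFun h c
    rw [hy] at h1
    exact h1
  have hs'' : (fun c => ∏ i, s' i ^ ε c i) ∈ g'.tuples := by
    rw [hgt]
    exact ⟨s', hs', rfl⟩
  have hval : ∀ j, ∑ c, tm τ (coeff (ε c) (F j)) * eval₂ (tm τ) x (∏ i, s' i ^ ε c i) =
      aeval y (map τ (F j)) := by
    intro j
    rw [GGL_val τ ε hε hεs (F j) (hF j) y]
    refine sum_congr rfl fun c _ => ?_
    rw [eval₂_prod]
    have h1 : ∏ i, eval₂ (tm τ) x (s' i ^ ε c i) = ∏ i, y i ^ ε c i :=
      prod_congr rfl fun i _ => by rw [eval₂_pow, hy]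
    rw [h1]
    rfl
  have h := hN₀ k N s (s + ((n + t).choose t - 1 - s) / k + 1) hk hN hsM ε hε hεs
    (fun j => map τ (F j)) (fun j => (hF j).map τ) y hy0
    (by
      intro j j' h0
      obtain ⟨w, hw⟩ := hKTH K Ω m ((n + t).choose t - 1) k S g' (by omega) hS τ x hx _ hs''
        (fun c => coeff (ε c) (F j)) (fun c => coeff (ε c) (F j'))
        ((hver (F j) (hF j)).2 k (hdiv j)) ((hver (F j') (hF j')).2 k (hdiv j'))
        (by
          have h1 := hval j'
          intro h2
          apply h0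
          show aeval y (map τ (F j')) = 0
          rw [← h1]
          exact h2)
      refine ⟨w, ?_⟩
      show aeval y (map τ (F j)) / aeval y (map τ (F j')) = w ^ k
      rw [← hval, ← hval]
      exact hw)
    (by
      intro J hJc
      have hD := hJ J hJc
      have hex : ∃ a, DimLT a (zeros g F J) := ⟨s, hD⟩
      refine ⟨Nat.find hex, Nat.find_min' hex hD, ?_, ?_, ?_⟩
      · exact hRKB Ω τ n t N (Nat.find hex) ε hε hεs F J (zeros g F J) ht hF
          (fun w hw j hj => hw.2 j hj) (fun a' ha' => Nat.find_min hex ha')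
      · by_contra hcon
        push Not at hcon
        have h1 : RelLT s (fun c => eval₂ (tm τ) x (s' c)) := by
          refine hREL K Ω m n N s S g F J hD τ x hx s' hs' ?_
          intro j hj
          have h2 := hcon j hj
          rw [hy] at h2
          exact h2
        have hle : s + 1 ≤ s + ((n + t).choose t - 1 - s) / k + 1 + 1 :=
          Nat.succ_le_succ ((Nat.le_add_right s _).trans (Nat.le_succ _))
        obtain ⟨e, P, hP, hPh, hP0⟩ := h1 (fun i => r (Fin.castLE hle i))
        refine hNR e (rename (Fin.castLE hle) P) ?_ (hPh.rename_isHomogeneous) ?_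
        · intro h0
          apply hP
          exact rename_injective _ (Fin.castLE_injective hle) (by rw [h0, map_zero])
        · rw [aeval_rename]
          exact hP0
      · intro j₀ hj₀ h0
        have h1 : aeval (fun c => eval₂ (tm τ) x (s' c)) (map τ (F j₀)) ≠ 0 := by
          rw [hy] at h0
          exact h0
        obtain ⟨t', ht1, ht2⟩ := hKEY K Ω m n N t (Nat.find hex)
          (s + ((n + t).choose t - 1 - s) / k + 1) S ht hS g F J hF (Nat.find_spec hex) τ x hx hx0
          s' hs' r hNR j₀ hj₀ h1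
        refine ⟨t', ht1, fun i => ?_⟩
        obtain ⟨j, hj, hj2⟩ := ht2 i
        refine ⟨j, hj, ?_⟩
        rw [hy]
        exact hj2)
  omega

end Pool.ThmQ
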