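import Pool.Agent.Work.MP_f82ddf_Q.Interface

set_option autoImplicit false

/-! # Block UFN (MP_f82ddf_nt, THEOREM U): varieties over a field `K` -/

namespace Pool.ThmQ

open MvPolynomial Finset Pool.Agent.Work.MP_f82ddf_nt Pool.Agent.Work.MP_f82ddf_nt.DQ Pool.ThmM
  Pool.ThmM0 Pool.ThmP

theorem p_UFN (hUVD : Stmt_UVD) (hMPT : Pool.ThmP.Stmt_MPT) (hUNH : Stmt_UNH)
    (hUTH : Stmt_UTH) : Stmt_UFN := by
  intro n e
  obtain ⟨N₀, hN₀⟩ := hUVD n e
  refine ⟨N₀, ?_⟩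
  intro k N s b hk hs hb K _ m d S hS g F hF hJ hdiv hcard hcase σ x hx
  obtain ⟨τ, hx'⟩ : ∃ τ : AlgebraicClosure K →+* ℂ, OnK (tm τ) S x := by
    let τ : AlgebraicClosure K →+* ℂ :=
      letI : Algebra K ℂ := σ.toAlgebra
      (IsAlgClosed.lift (R := K) (M := ℂ) (S := AlgebraicClosure K)).toRingHom
    have hτ : τ.comp (algebraMap K (AlgebraicClosure K)) = σ := by
      let : Algebra K ℂ := σ.toAlgebra
      exact AlgHom.comp_algebraMap
        (IsAlgClosed.lift (R := K) (M := ℂ) (S := AlgebraicClosure K))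
    refine ⟨τ, ?_⟩
    intro F hF
    have h6 : (tm τ).comp (algebraMap K (AlgebraicClosure K)) =
        (algebraMap ℂ Mer).comp σ := by
      rw [tm, RingHom.comp_assoc, hτ]
    rw [h6]
    exact hx F hF
  by_cases hx0 : x = 0
  · intro r
    refine ⟨1, X 0, X_ne_zero 0, isHomogeneous_X ℂ 0, ?_⟩
    rw [aeval_X, hx0]
    rfl
  · obtain ⟨s', hs', hsc⟩ := (hMPT K (AlgebraicClosure K) Mer m n S g (tm τ) x hx').1 hx0
    have hU := hN₀ k N s b hk hs hb K (AlgebraicClosure K) m S hS g F hF hJ hdiv hcard τ x hx' hx0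
      s' hs' hsc
    rcases hcase with ⟨hfin, hd⟩ | hsm
    · rw [hd]
      exact hUNH K (AlgebraicClosure K) m n (bd n e k s) S g hS hfin τ x hx' s' hs' hsc hU
    · exact hUTH K (AlgebraicClosure K) m n (bd n e k s) d S g hS hsm τ x hx' s' hs' hsc hU

end Pool.ThmQ
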