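import Pool.Agent.Work.MP_f82ddf_Q.Interface

set_option autoImplicit false

namespace Pool.ThmQ

open MvPolynomial Finset Pool.Agent.Work.MP_f82ddf_nt Pool.Agent.Work.MP_f82ddf_nt.DQ Pool.ThmM
  Pool.ThmM0 Pool.ThmP

/-- A form which vanishes at `y` gives a relation for any `n + 1` of the coordinates. -/
theorem UFX_rel {n e : ℕ} {y : Fin (n + 1) → Mer} (P : MvPolynomial (Fin (n + 1)) ℂ)
    (hP : P ≠ 0) (he : P.IsHomogeneous e) (h0 : aeval y P = 0) : RelLT n y := by
  intro r
  by_cases hr : Function.Injective r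
  · have hb : Function.Bijective r := Finite.injective_iff_bijective.1 hr
    obtain ⟨q, hq⟩ : ∃ q : Fin (n + 1) ≃ Fin (n + 1), ∀ i, q i = r i :=
      ⟨Equiv.ofBijective r hb, fun _ => rfl⟩
    refine ⟨e, rename q.symm P, ?_, he.rename_isHomogeneous, ?_⟩
    · intro h
      exact hP (rename_injective _ q.symm.injective (by rw [h, map_zero]))
    · rw [aeval_rename]
      have h1 : (fun i => y (r i)) ∘ q.symm = y := by
        funext i
        show y (r (q.symm i)) = y i
        rw [← hq, q.apply_symm_apply]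
      rw [h1]
      exact h0
  · have h1 : ∃ i j, r i = r j ∧ i ≠ j := by
      by_contra h
      push Not at h
      exact hr fun i j hij => h i j hij
    obtain ⟨i, j, hij, hne⟩ := h1
    refine ⟨1, X i - X j, ?_, (isHomogeneous_X ℂ i).sub (isHomogeneous_X ℂ j), ?_⟩
    · intro h
      exact hne (X_injective (sub_eq_zero.1 h))
    · rw [map_sub, aeval_X, aeval_X]
      show y (r i) - y (r j) = 0
      rw [hij, sub_self]

/-- (UFX) Forms of one degree. -/
theorem p_UFX (hUDM : Stmt_UDM) (hUSL : Stmt_USL) (hPDC : Stmt_PDC)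
    (hGGM : Pool.ThmP.Stmt_GGM) : Stmt_UFX := by
  intro n t ht
  obtain ⟨N1, hN1⟩ := hUDM n t ((n + t).choose t - 1) ht
  obtain ⟨N2, hN2⟩ := hGGM n t ((n + t).choose t - 1) ht
  refine ⟨2 ^ (N1 + N2 + 1), ?_⟩
  intro k N s b hk hs hb K Ω _ _ _ _ m S hS g F hF hJ hdiv hN τ x hx hx0 s' hs' hc
  obtain ⟨φ, -, hφk, hφJ⟩ := hUSL K Ω m n N t s b k (N1 + N2) S g F ht hF hb hJ hN
  have hch : n + 1 ≤ (n + t).choose t := by
    have h1 : (n + 1).choose n ≤ (n + t).choose n := Nat.choose_le_choose n (by omega)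
    rw [Nat.choose_succ_self_right, Nat.choose_symm_add] at h1
    exact h1
  have hsM : s ≤ (n + t).choose t - 1 := by omega
  have hcard : {j : Fin (N1 + N2 + 1) | ¬ ∃ G, F (φ j) = G ^ k}.ncard = N1 + N2 + 1 := by
    have h1 : {j : Fin (N1 + N2 + 1) | ¬ ∃ G, F (φ j) = G ^ k} = Set.univ :=
      Set.eq_univ_of_forall fun j => hφk j
    rw [h1, Set.ncard_univ, Nat.card_eq_fintype_card, Fintype.card_fin]
  have h1 := hN1 k (N1 + N2) s hk (by omega) hsM K Ω m S hS g (fun i => F (φ i))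
    (fun j => hF _) hφJ (fun j => hdiv _) τ x hx hx0 s' hs' hc
  have h2 : ¬ NoRel (fun c => eval₂ (tm τ) x (s' c)) := by
    intro hno
    have h3 := hPDC K Ω m n (N1 + N2) s ((n + t).choose t - 1) S g (fun i => F (φ i)) hs hS
      (fun j => ⟨t, hF _⟩) hφJ τ x hx hx0 s' hs' hno
    exact hN2 k (N1 + N2) hk K Ω m S hS g (fun i => F (φ i)) (fun j => hF _) h3
      (fun j => hdiv _) (by rw [hcard]; omega) τ x hx hx0 s' hs' hc hno
  have h3 : RelLT n (fun c => eval₂ (tm τ) x (s' c)) := by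
    unfold NoRel at h2
    push Not at h2
    obtain ⟨e, P, hP, he, h0⟩ := h2
    exact UFX_rel P hP he h0
  rcases le_total (n - 1) (s + ((n + t).choose t - 1 - s) / k) with h | h
  · rw [min_eq_left h]
    have h4 : n - 1 + 1 = n := by omega
    rw [h4]
    exact h3
  · rw [min_eq_right h]
    exact h1

end Pool.ThmQ
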