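import Pool.Agent.Work.MP_f82ddf_Q.Interface
import Pool.Agent.Work.MP_f82ddf_M0.B_DHO

set_option autoImplicit false

/-! # Block UNH: from the closure of `g(f)` to the closure of `f`, `g` finite -/

namespace Pool.ThmQ

open MvPolynomial Finset Pool.Agent.Work.MP_f82ddf_nt Pool.Agent.Work.MP_f82ddf_nt.DQ Pool.ThmM
  Pool.ThmM0 Pool.ThmP

theorem p_UNH (hFIB : Pool.ThmP.Stmt_FIB) (hTRX : Pool.ThmP.Stmt_TRX)
    (hHOMR : Pool.ThmM0.Stmt_HOMR) : Stmt_UNH := by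
  intro K Ω _ _ _ _ m n D S g hS hfin τ x hx s hs hc hrel r
  obtain ⟨c₀, hc₀⟩ := hc
  by_contra hcon
  have hr : ∀ (e : ℕ) (P : MvPolynomial (Fin (D + 2)) ℂ), P ≠ 0 → P.IsHomogeneous e →
      aeval (fun i => x (r i)) P ≠ 0 := by
    intro e P h1 h2 h3
    exact hcon ⟨e, P, h1, h2, h3⟩
  have hr0 : x (r 0) ≠ 0 := by
    have h := hr 1 (X 0) (X_ne_zero _) (isHomogeneous_X _ _)
    rwa [aeval_X] at h
  have hind := hHOMR D (fun i => x (r i)) hr0 hr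
  set y : Fin (n + 1) → Mer := fun c => eval₂ (tm τ) x (s c) with hy
  set A : Set Mer := Set.range fun c => y c / y c₀ with hA
  have h1 : ∀ j : Fin (D + 1), IsAlgebraic (Algebra.adjoin ℂ A) (x (r j.succ) / x (r 0)) := by
    intro j
    exact hFIB K Ω m n S g hS hfin τ x hx s hs c₀ hc₀ (r j.succ) (r 0) hr0
  have h3 : ∀ a ∈ A, IsAlgebraic (Algebra.adjoin ℂ A) a := by
    intro a ha
    exact isAlgebraic_algebraMap (⟨a, Algebra.subset_adjoin ha⟩ : Algebra.adjoin ℂ A)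
  obtain ⟨t, ht1, ht2⟩ := hTRX (D + 1) _ A A hind h1 h3
  have hγ : ∀ j, ∃ c, y c / y c₀ = t j := fun j => ht1 j
  choose γ hγ using hγ
  obtain ⟨e, P, hP0, hPe, hP⟩ := hrel (Fin.cons c₀ γ)
  refine stmt_DHO D e (fun i => y ((Fin.cons c₀ γ : Fin (D + 1 + 1) → Fin (n + 1)) i)) P
    ?_ hP0 hPe hP ?_
  · show y ((Fin.cons c₀ γ : Fin (D + 1 + 1) → Fin (n + 1)) 0) ≠ 0
    rw [Fin.cons_zero]
    exact hc₀
  · have h7 : (fun j : Fin (D + 1) =>
        y ((Fin.cons c₀ γ : Fin (D + 1 + 1) → Fin (n + 1)) j.succ) /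
          y ((Fin.cons c₀ γ : Fin (D + 1 + 1) → Fin (n + 1)) 0)) = t := by
      funext j
      rw [Fin.cons_zero, Fin.cons_succ, hγ j]
    rw [h7]
    exact ht2

end Pool.ThmQ
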