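import Pool.Agent.Work.MP_f82ddf_Q.Interface

set_option autoImplicit false

/-! # Block USL (MP_f82ddf_nt, THEOREM U) -/

namespace Pool.ThmQ

open MvPolynomial Finset Pool.Agent.Work.MP_f82ddf_nt Pool.Agent.Work.MP_f82ddf_nt.DQ Pool.ThmM
  Pool.ThmM0 Pool.ThmP

/-- the exponents of a form of degree `e` -/
theorem USL_exp {R : Type} [CommSemiring R] {b e : ℕ} {F : MvPolynomial (Fin b) R}
    (hF : F.IsHomogeneous e) {d : Fin b →₀ ℕ} (hd : coeff d F ≠ 0) : ∑ i, d i = e := by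
  have h := hF hd
  rw [Finsupp.weight_apply] at h
  rw [← h, Finsupp.sum_fintype]
  · simp
  · simp

/-- the value of a form as a sum over the exponents of degree `e` -/
theorem USL_val {b e t : ℕ} {Ω : Type} [Field Ω]
    (ε : Fin t → Fin b →₀ ℕ) (hε : Function.Injective ε)
    (hεs : ∀ μ : Fin b →₀ ℕ, ∑ i, μ i = e ↔ ∃ c, ε c = μ) (F : MvPolynomial (Fin b) Ω)
    (hF : F.IsHomogeneous e) (w : Fin b → Ω) :
    eval w F = ∑ c, coeff (ε c) F * ∏ i, w i ^ ε c i := by
  classical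
  have h2 : ∑ c, coeff (ε c) F * ∏ i, w i ^ ε c i =
      ∑ d ∈ univ.image ε, coeff d F * ∏ i, w i ^ d i := by
    rw [sum_image (fun a _ b _ h => hε h)]
  rw [eval_eq', h2]
  apply sum_subset
  · intro d hd
    obtain ⟨c, hc⟩ := (hεs d).1 (USL_exp hF (mem_support_iff.1 hd))
    exact mem_image.2 ⟨c, mem_univ _, hc⟩
  · intro d _ hd
    rw [notMem_support_iff.1 hd]
    simp

theorem USL_mono {Ω : Type} [Field Ω] {n s : ℕ} {A B : Set (Fin (n + 1) → Ω)} (h : A ⊆ B)
    (hB : DimLT s B) : DimLT s A := by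
  intro r
  obtain ⟨e, R, h1, h2, h3⟩ := hB r
  exact ⟨e, R, h1, h2, fun w hw => h3 w (h hw)⟩

/-- the vectors of the forms which vanish on `B` -/
def USL_U {Ω : Type} [Field Ω] {b t : ℕ} (ε : Fin t → Fin b →₀ ℕ) (B : Set (Fin b → Ω)) :
    Submodule Ω (Fin t → Ω) where
  carrier := {a | ∀ w ∈ B, ∑ c, a c * ∏ i, w i ^ ε c i = 0}
  zero_mem' := by
    intro w _
    simp
  add_mem' := by
    intro a a' ha ha' w hw
    have h1 := ha w hw
    have h2 := ha' w hw
    simp only [Pi.add_apply, add_mul, sum_add_distrib]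
    rw [h1, h2, add_zero]
  smul_mem' := by
    intro c a ha w hw
    have h1 := ha w hw
    simp only [Pi.smul_apply, smul_eq_mul, mul_assoc]
    rw [← mul_sum, h1, mul_zero]

theorem p_USL (hSLU : Stmt_SLU) (hVER : Pool.ThmP.Stmt_VER) : Stmt_USL := by
  classical
  intro K Ω _ _ _ m n N t s b k M S g F ht hF hb hJ hcard
  obtain ⟨ε, g', hε, hεs, -, -, -⟩ := hVER K Ω m n t S g ht
  have hmem : ∀ (j : Fin (N + 1)) (B : Set (Fin (n + 1) → Ω)),
      (fun c => coeff (ε c) (F j)) ∈ USL_U ε B ↔ ∀ w ∈ B, eval w (F j) = 0 := by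
    intro j B
    constructor
    · intro h w hw
      rw [USL_val ε hε hεs (F j) (hF j) w]
      exact h w hw
    · intro h w hw
      have h1 := h w hw
      rw [USL_val ε hε hεs (F j) (hF j) w] at h1
      exact h1
  have hcardι : Fintype.card {j : Fin (N + 1) // ¬ ∃ G, F j = G ^ k} =
      {j | ¬ ∃ G, F j = G ^ k}.ncard := by
    rw [← Nat.card_eq_fintype_card]
    rfl
  have hkey := hSLU Ω (Fin ((n + t).choose t - 1 + 1) → Ω)
    {B : Set (Fin (n + 1) → Ω) // B ⊆ {w | ∃ v, OnX S v ∧ ∃ t ∈ g.tuples,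
      w = fun c => eval v (t c)} ∧ ¬ DimLT s B}
    {j : Fin (N + 1) // ¬ ∃ G, F j = G ^ k} (fun B => USL_U ε B.1)
    (fun j c => coeff (ε c) (F j.1)) (b - 1) (by
      rintro ⟨B, hB1, hB2⟩
      by_contra hcon
      push Not at hcon
      obtain ⟨J, hJe⟩ : ∃ J : Finset (Fin (N + 1)), J =
          (Finset.univ.filter fun j : {j : Fin (N + 1) // ¬ ∃ G, F j = G ^ k} =>
            (fun c => coeff (ε c) (F j.1)) ∈ USL_U ε B).image Subtype.val := ⟨_, rfl⟩
      have hJc : b ≤ J.card := by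
        rw [hJe, Finset.card_image_of_injective _ Subtype.val_injective]
        have h1 : {j : {j : Fin (N + 1) // ¬ ∃ G, F j = G ^ k} |
            (fun c => coeff (ε c) (F j.1)) ∈ USL_U ε B} =
            ((Finset.univ.filter fun j : {j : Fin (N + 1) // ¬ ∃ G, F j = G ^ k} =>
            (fun c => coeff (ε c) (F j.1)) ∈ USL_U ε B : Finset _) : Set _) := by
          ext j
          simp
        have h2 : b - 1 < {j : {j : Fin (N + 1) // ¬ ∃ G, F j = G ^ k} |
            (fun c => coeff (ε c) (F j.1)) ∈ USL_U ε B}.ncard := hcon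
        rw [h1, Set.ncard_coe_finset] at h2
        omega
      apply hB2
      refine USL_mono ?_ (hJ J hJc)
      intro w hw
      refine ⟨hB1 hw, fun j hj => ?_⟩
      rw [hJe, Finset.mem_image] at hj
      obtain ⟨i, hi, rfl⟩ := hj
      rw [Finset.mem_filter] at hi
      exact (hmem i.1 B).mp hi.2 w hw) (M + 1) (by
      rw [hcardι]
      have : b - 1 + 1 = b := by omega
      rw [this]
      exact hcard)
  obtain ⟨φ, hφ1, hφ2⟩ := hkey
  refine ⟨fun i => (φ i).1, fun i j hij => hφ1 (Subtype.ext hij), fun i => (φ i).2, ?_⟩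
  intro J hJc
  by_contra hcon
  have h1 := hφ2 ⟨zeros g (fun i => F (φ i).1) J, fun w hw => hw.1, hcon⟩
  have h2 : (J : Set (Fin (M + 1))) ⊆ {i | (fun c => coeff (ε c) (F (φ i).1)) ∈
      USL_U ε (zeros g (fun i => F (φ i).1) J)} := by
    intro i hi
    show (fun c => coeff (ε c) (F (φ i).1)) ∈ USL_U ε (zeros g (fun i => F (φ i).1) J)
    rw [hmem]
    intro w hw
    exact hw.2 i hi
  have h3 := Set.ncard_le_ncard h2 (Set.toFinite _)
  rw [Set.ncard_coe_finset] at h3
  rw [Module.finrank_fin_fun] at h1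
  have h4 : {i | (fun c => coeff (ε c) (F (φ i).1)) ∈
      USL_U ε (zeros g (fun i => F (φ i).1) J)}.ncard + 1 ≤ (n + t).choose t - 1 + 1 := h1
  omega

end Pool.ThmQ
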