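import Pool.Agent.Work.MP_f82ddf_Q.Interface

set_option autoImplicit false

/-! # Block UTH: morphisms with small preimages -/

namespace Pool.ThmQ

open MvPolynomial Finset Pool.Agent.Work.MP_f82ddf_nt Pool.Agent.Work.MP_f82ddf_nt.DQ Pool.ThmM
  Pool.ThmM0 Pool.ThmP

/-- homomorphisms of a finitely generated algebra with prescribed values on a family which is
algebraically independent over a field of constants -/
theorem UTH_key (hEXT : Pool.ThmP.Stmt_EXT) {Ω F κ : Type} [Field Ω] [IsAlgClosed Ω] [Field F]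
    [Field κ] [Algebra Ω F] [Algebra F κ] [Algebra Ω κ] [IsScalarTower Ω F κ]
    (Y : Set F) (hY : Y.Finite) {q : ℕ} (p : Fin q → κ) (hp : AlgebraicIndependent F p)
    (Z : Set κ) (hZ : Z.Finite) (hpZ : ∀ i, p i ∈ Algebra.adjoin Ω Z)
    (ι : Algebra.adjoin Ω Y →ₐ[Ω] Algebra.adjoin Ω Z)
    (hι : ∀ y : Algebra.adjoin Ω Y, ((ι y : Algebra.adjoin Ω Z) : κ) = algebraMap F κ (y : F)) :
    ∃ (θ₀ : Algebra.adjoin Ω Y →ₐ[Ω] Ω) (H : MvPolynomial (Fin q) Ω), H ≠ 0 ∧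
      ∀ ξ : Fin q → Ω, eval ξ H ≠ 0 → ∃ Θ : Algebra.adjoin Ω Z →ₐ[Ω] Ω,
        (∀ y : Algebra.adjoin Ω Y, Θ (ι y) = θ₀ y) ∧ ∀ i, Θ ⟨p i, hpZ i⟩ = ξ i := by
  classical
  -- the homomorphism from polynomials
  let fR : MvPolynomial (Fin q) (Algebra.adjoin Ω Y) →+* κ :=
    (MvPolynomial.aeval p : MvPolynomial (Fin q) F →ₐ[F] κ).toRingHom.comp
      (MvPolynomial.map ((Algebra.adjoin Ω Y).val : Algebra.adjoin Ω Y →+* F))
  have hfC : ∀ y : Algebra.adjoin Ω Y, fR (C y) = algebraMap F κ (y : F) := by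
    intro y
    show aeval p (map _ (C y)) = _
    rw [map_C, aeval_C]
    rfl
  have hfX : ∀ i, fR (X i) = p i := by
    intro i
    show aeval p (map _ (X i)) = _
    rw [map_X, aeval_X]
  let f : MvPolynomial (Fin q) (Algebra.adjoin Ω Y) →ₐ[Ω] κ :=
    { fR with
      commutes' := by
        intro r
        show fR (algebraMap Ω (MvPolynomial (Fin q) (Algebra.adjoin Ω Y)) r) = _
        rw [MvPolynomial.algebraMap_apply, hfC]
        show algebraMap F κ (algebraMap Ω F r) = _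
        rw [← IsScalarTower.algebraMap_apply] }
  have hff : ∀ P, f P = fR P := fun _ => rfl
  have hf : Function.Injective f := by
    intro P Q hPQ
    have h1 : Function.Injective (MvPolynomial.aeval p : MvPolynomial (Fin q) F →ₐ[F] κ) := hp
    have h2 : Function.Injective
        ((Algebra.adjoin Ω Y).val : Algebra.adjoin Ω Y →+* F) := Subtype.val_injective
    exact MvPolynomial.map_injective _ h2 (h1 hPQ)
  have hFT : ∀ (κ' : Type) [Field κ'] [Algebra Ω κ'] (W : Set κ'), W.Finite →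
      Algebra.FiniteType Ω (Algebra.adjoin Ω W) := by
    intro κ' _ _ W hW
    rw [← Subalgebra.fg_iff_finiteType]
    have := Subalgebra.fg_adjoin_finset (R := Ω) hW.toFinset
    rwa [Set.Finite.coe_toFinset] at this
  obtain ⟨h, hh0, hh⟩ := hEXT Ω (Algebra.adjoin Ω Z) (hFT κ Z hZ)
    (f.range.comap (Algebra.adjoin Ω Z).val)
  obtain ⟨P, hP⟩ : ∃ P, f P = ((h : Algebra.adjoin Ω Z) : κ) := h.2
  have hP0 : P ≠ 0 := by
    intro h0
    rw [h0, map_zero] at hP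
    apply hh0
    apply Subtype.ext
    apply Subtype.ext
    exact hP.symm
  obtain ⟨q', hq⟩ : ∃ q', P.coeff q' ≠ 0 := by
    by_contra hc
    push Not at hc
    exact hP0 (MvPolynomial.ext _ _ fun q' => by rw [hc q', MvPolynomial.coeff_zero])
  obtain ⟨a, ha⟩ : ∃ a, a = P.coeff q' := ⟨_, rfl⟩
  have ha0 : (a : F) ≠ 0 := by
    intro h0
    apply hq
    rw [← ha]
    exact Subtype.ext h0
  -- the homomorphism `θ₀`
  obtain ⟨h', hh'0, hh'⟩ := hEXT Ω (Algebra.adjoin Ω (Y ∪ {(a : F)⁻¹}))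
    (hFT F _ (hY.union (Set.finite_singleton _))) ⊥
  obtain ⟨Θ₀, -⟩ := hh' (Algebra.botEquiv Ω (Algebra.adjoin Ω (Y ∪ {(a : F)⁻¹}))).toAlgHom (by
    intro h0
    apply hh'0
    have h1 : (Algebra.botEquiv Ω (Algebra.adjoin Ω (Y ∪ {(a : F)⁻¹}))) h' = 0 := h0
    exact (map_eq_zero_iff _ (Algebra.botEquiv Ω _).injective).1 h1)
  have hle : Algebra.adjoin Ω Y ≤ Algebra.adjoin Ω (Y ∪ {(a : F)⁻¹}) :=
    Algebra.adjoin_mono Set.subset_union_left
  have hainv : (a : F)⁻¹ ∈ Algebra.adjoin Ω (Y ∪ {(a : F)⁻¹}) :=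
    Algebra.subset_adjoin (Or.inr rfl)
  let θ₀ : Algebra.adjoin Ω Y →ₐ[Ω] Ω := Θ₀.comp (Subalgebra.inclusion hle)
  have hθa : θ₀ a ≠ 0 := by
    intro h0
    have h1 : Θ₀ (Subalgebra.inclusion hle a) * Θ₀ ⟨(a : F)⁻¹, hainv⟩ = 1 := by
      rw [← map_mul, ← map_one Θ₀]
      congr 1
      apply Subtype.ext
      show (a : F) * (a : F)⁻¹ = 1
      exact mul_inv_cancel₀ ha0
    have h2 : Θ₀ (Subalgebra.inclusion hle a) = 0 := h0
    rw [h2, zero_mul] at h1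
    exact zero_ne_one h1
  have hmap : MvPolynomial.map (θ₀ : Algebra.adjoin Ω Y →+* Ω) P ≠ 0 := by
    intro h0
    apply hθa
    have h1 := congrArg (fun R : MvPolynomial (Fin q) Ω => R.coeff q') h0
    simp only [MvPolynomial.coeff_map, MvPolynomial.coeff_zero] at h1
    rw [ha]
    exact h1
  refine ⟨θ₀, MvPolynomial.map (θ₀ : Algebra.adjoin Ω Y →+* Ω) P, hmap, ?_⟩
  intro ξ hξ
  let ev : MvPolynomial (Fin q) (Algebra.adjoin Ω Y) →ₐ[Ω] Ω :=
    { MvPolynomial.eval₂Hom (θ₀ : Algebra.adjoin Ω Y →+* Ω) ξ with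
      commutes' := by
        intro r
        show MvPolynomial.eval₂ (θ₀ : Algebra.adjoin Ω Y →+* Ω) ξ
          (algebraMap Ω (MvPolynomial (Fin q) (Algebra.adjoin Ω Y)) r) = r
        rw [MvPolynomial.algebraMap_apply, MvPolynomial.eval₂_C]
        exact θ₀.commutes r }
  have hevC : ∀ y, ev (C y) = θ₀ y := by
    intro y
    show MvPolynomial.eval₂ (θ₀ : Algebra.adjoin Ω Y →+* Ω) ξ (C y) = θ₀ y
    rw [MvPolynomial.eval₂_C]
    rfl
  have hevX : ∀ i, ev (X i) = ξ i := by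
    intro i
    show MvPolynomial.eval₂ (θ₀ : Algebra.adjoin Ω Y →+* Ω) ξ (X i) = ξ i
    rw [MvPolynomial.eval₂_X]
  let eqv := AlgEquiv.ofInjective f hf
  let gg : (f.range.comap (Algebra.adjoin Ω Z).val) →ₐ[Ω] f.range :=
    ((Algebra.adjoin Ω Z).val.comp (f.range.comap (Algebra.adjoin Ω Z).val).val).codRestrict
      f.range (fun b => b.2)
  let θ : (f.range.comap (Algebra.adjoin Ω Z).val) →ₐ[Ω] Ω :=
    (ev.comp eqv.symm.toAlgHom).comp gg
  have hθ : ∀ (b : f.range.comap (Algebra.adjoin Ω Z).val)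
      (R : MvPolynomial (Fin q) (Algebra.adjoin Ω Y)),
      f R = ((b : Algebra.adjoin Ω Z) : κ) → θ b = ev R := by
    intro b R hR
    show ev (eqv.symm (gg b)) = ev R
    congr 1
    rw [AlgEquiv.symm_apply_eq]
    apply Subtype.ext
    exact hR.symm
  obtain ⟨Θ, hΘ⟩ := hh θ (by
    rw [hθ h P hP]
    intro h0
    apply hξ
    show MvPolynomial.eval ξ (MvPolynomial.map (θ₀ : Algebra.adjoin Ω Y →+* Ω) P) = 0
    rw [MvPolynomial.eval_map]
    exact h0)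
  refine ⟨Θ, fun y => ?_, fun i => ?_⟩
  · have h2 : f (C y) = ((ι y : Algebra.adjoin Ω Z) : κ) := by
      rw [hff, hfC, hι]
    have h1 := hΘ ⟨ι y, ⟨C y, h2⟩⟩
    rw [hθ _ (C y) h2, hevC] at h1
    exact h1
  · have h2 : f (X i) = p i := by
      rw [hff, hfX]
    have h1 := hΘ ⟨⟨p i, hpZ i⟩, ⟨X i, h2⟩⟩
    rw [hθ _ (X i) h2, hevX] at h1
    exact h1

/-- dehomogenisation -/
theorem UTH_dehom {q : ℕ} {Ω : Type} [Field Ω] [Infinite Ω] {e : ℕ}
    {R : MvPolynomial (Fin (q + 1)) Ω} (hR : R.IsHomogeneous e) (hR0 : R ≠ 0) :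
    ∃ R₁ : MvPolynomial (Fin q) Ω, R₁ ≠ 0 ∧
      ∀ ξ : Fin q → Ω, eval ξ R₁ = eval (Fin.cons 1 ξ : Fin (q + 1) → Ω) R := by
  have h1 : ∀ ξ : Fin q → Ω,
      eval ξ (aeval (Fin.cons 1 X : Fin (q + 1) → MvPolynomial (Fin q) Ω) R) =
        eval (Fin.cons 1 ξ : Fin (q + 1) → Ω) R := by
    intro ξ
    have h2 := MvPolynomial.comp_aeval_apply
      (Fin.cons 1 X : Fin (q + 1) → MvPolynomial (Fin q) Ω) (aeval ξ : MvPolynomial (Fin q) Ω →ₐ[Ω] Ω)
      R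
    have h3 : (fun i => (aeval ξ : MvPolynomial (Fin q) Ω →ₐ[Ω] Ω)
        ((Fin.cons 1 X : Fin (q + 1) → MvPolynomial (Fin q) Ω) i)) =
        (Fin.cons 1 ξ : Fin (q + 1) → Ω) := by
      funext i
      refine Fin.cases ?_ (fun j => ?_) i
      · simp
      · simp
    rw [h3] at h2
    exact h2
  refine ⟨_, ?_, h1⟩
  intro h0
  apply hR0
  have hX : (X 0 : MvPolynomial (Fin (q + 1)) Ω) * R = 0 := by
    apply MvPolynomial.funext
    intro w
    rw [map_mul, eval_X, map_zero]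
    by_cases hw : w 0 = 0
    · rw [hw, zero_mul]
    · have h2 : w = w 0 • (Fin.cons 1 (fun i => w i.succ / w 0) : Fin (q + 1) → Ω) := by
        funext i
        refine Fin.cases ?_ (fun j => ?_) i
        · rw [Pi.smul_apply, Fin.cons_zero, smul_eq_mul, mul_one]
        · rw [Pi.smul_apply, Fin.cons_succ, smul_eq_mul, mul_div_cancel₀ _ hw]
      have h3 : eval w R = 0 := by
        rw [h2]
        have h4 := eval₂_smul_hom hR (RingHom.id Ω)
          (Fin.cons 1 (fun i => w i.succ / w 0) : Fin (q + 1) → Ω) (w 0)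
        have h5 : eval (Fin.cons 1 (fun i => w i.succ / w 0) : Fin (q + 1) → Ω) R = 0 := by
          rw [← h1, h0, map_zero]
        have h6 : eval₂ (RingHom.id Ω) (Fin.cons 1 (fun i => w i.succ / w 0) : Fin (q + 1) → Ω) R = 0 :=
          h5
        rw [h6, mul_zero] at h4
        exact h4
      rw [h3, mul_zero]
  rcases mul_eq_zero.1 hX with h2 | h2
  · exact absurd h2 (X_ne_zero 0)
  · exact h2

/-- a nonzero coefficient -/
theorem UTH_coeff {σ : Type} {P : MvPolynomial σ ℂ} (h : P ≠ 0) : ∃ μ, P.coeff μ ≠ 0 := by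
  by_contra hc
  push Not at hc
  exact h (MvPolynomial.ext _ _ fun μ => by rw [hc μ, MvPolynomial.coeff_zero])

theorem p_UTH (hEXT : Pool.ThmP.Stmt_EXT) (hMPT : Pool.ThmP.Stmt_MPT)
    (hHOMR : Pool.ThmM0.Stmt_HOMR) : Stmt_UTH := by
  classical
  intro K Ω _ _ _ _ m n D d S g hS hsmall τ x hx s hs hc₀ hrel r
  by_contra hno
  have hno' : ∀ (e : ℕ) (P : MvPolynomial (Fin (d + 2)) ℂ), P ≠ 0 → P.IsHomogeneous e →
      aeval (fun i => x (r i)) P ≠ 0 := fun e P h1 h2 h3 => hno ⟨e, P, h1, h2, h3⟩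
  have hr0 : x (r 0) ≠ 0 := by
    have h1 := hno' 1 (X 0) (X_ne_zero 0) (isHomogeneous_X ℂ 0)
    rwa [aeval_X] at h1
  have hAI := hHOMR d (fun i => x (r i)) hr0 hno'
  obtain ⟨c₀, hc₀⟩ := hc₀
  letI : Algebra Ω ℂ := τ.toAlgebra
  letI : Algebra Ω Mer := (tm τ).toAlgebra
  haveI : IsScalarTower Ω ℂ Mer := IsScalarTower.of_algebraMap_eq (fun _ => rfl)
  have hτ : algebraMap Ω Mer = tm τ := rfl
  haveI : Infinite Ω := IsAlgClosed.instInfinite
  obtain ⟨x', hx'⟩ : ∃ x' : Fin (m + 1) → Mer, x' = (x (r 0))⁻¹ • x := ⟨_, rfl⟩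
  have hx'K : OnK (tm τ) S x' := by
    intro F hF
    obtain ⟨d, hd⟩ := hS F hF
    rw [hx', eval₂_smul_hom hd, hx F hF, mul_zero]
  have hx'0 : x' (r 0) = 1 := by
    rw [hx']
    exact inv_mul_cancel₀ hr0
  have hAI' : AlgebraicIndependent ℂ (fun j : Fin (d + 1) => x' (r j.succ)) := by
    have h1 : (fun j : Fin (d + 1) => x' (r j.succ)) =
        fun j : Fin (d + 1) => x (r j.succ) / x (r 0) := by
      funext j
      rw [hx', Pi.smul_apply, smul_eq_mul, div_eq_mul_inv, mul_comm]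
    rw [h1]
    exact hAI
  obtain ⟨es, hes⟩ := g.homogeneous s hs
  have hsx : ∀ c, eval₂ (tm τ) x' (s c) = ((x (r 0))⁻¹) ^ es * eval₂ (tm τ) x (s c) := fun c => by
    rw [hx', eval₂_smul_hom (hes c)]
  have hu : ((x (r 0))⁻¹) ^ es ≠ 0 := pow_ne_zero _ (inv_ne_zero hr0)
  have hc₀' : eval₂ (tm τ) x' (s c₀) ≠ 0 := by
    rw [hsx]; exact mul_ne_zero hu hc₀
  -- the relations
  choose e P hP0 hPh hP using hrel
  choose μ hμ using fun ρ => UTH_coeff (hP0 ρ)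
  obtain ⟨Y, hY⟩ : ∃ Y : Set ℂ, Y = (⋃ ρ, ((P ρ).coeffs : Set ℂ)) ∪
      Set.range (fun ρ => ((P ρ).coeff (μ ρ))⁻¹) := ⟨_, rfl⟩
  have hYfin : Y.Finite := by
    rw [hY]
    exact (Set.finite_iUnion fun ρ => Finset.finite_toSet _).union (Set.finite_range _)
  obtain ⟨Z, hZ⟩ : ∃ Z : Set Mer, Z = (algebraMap ℂ Mer '' Y) ∪ Set.range x' := ⟨_, rfl⟩
  have hZfin : Z.Finite := by
    rw [hZ]
    exact (hYfin.image _).union (Set.finite_range _)
  have hxZ : ∀ l, x' l ∈ Algebra.adjoin Ω Z := fun l =>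
    Algebra.subset_adjoin (by rw [hZ]; exact Or.inr ⟨l, rfl⟩)
  have hYZ : ∀ y ∈ Algebra.adjoin Ω Y, algebraMap ℂ Mer y ∈ Algebra.adjoin Ω Z := by
    intro y hy
    induction hy using Algebra.adjoin_induction with
    | mem a ha => exact Algebra.subset_adjoin (by rw [hZ]; exact Or.inl ⟨a, ha, rfl⟩)
    | algebraMap r =>
      rw [← IsScalarTower.algebraMap_apply]
      exact (Algebra.adjoin Ω Z).algebraMap_mem r
    | add a b _ _ ha hb => rw [map_add]; exact add_mem ha hb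
    | mul a b _ _ ha hb => rw [map_mul]; exact mul_mem ha hb
  let ι : Algebra.adjoin Ω Y →ₐ[Ω] Algebra.adjoin Ω Z :=
    ((IsScalarTower.toAlgHom Ω ℂ Mer).comp (Algebra.adjoin Ω Y).val).codRestrict
      (Algebra.adjoin Ω Z) (fun y => hYZ y y.2)
  have hι : ∀ y : Algebra.adjoin Ω Y,
      ((ι y : Algebra.adjoin Ω Z) : Mer) = algebraMap ℂ Mer (y : ℂ) := fun _ => rfl
  obtain ⟨θ₀, H, hH0, hΘ⟩ := UTH_key hEXT Y hYfin (fun j : Fin (d + 1) => x' (r j.succ)) hAI' Z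
    hZfin (fun j => hxZ _) ι hι
  -- the relations over the subring
  have hQ : ∀ ρ, ∃ Q : MvPolynomial (Fin (D + 1 + 1)) (Algebra.adjoin Ω Y),
      MvPolynomial.map ((Algebra.adjoin Ω Y).val : Algebra.adjoin Ω Y →+* ℂ) Q = P ρ := by
    intro ρ
    have h1 : P ρ ∈ Set.range
        (MvPolynomial.map ((Algebra.adjoin Ω Y).val : Algebra.adjoin Ω Y →+* ℂ)) := by
      rw [mem_range_map_iff_coeffs_subset]
      intro c hc
      have h2 : c ∈ Algebra.adjoin Ω Y := Algebra.subset_adjoin (by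
        rw [hY]
        exact Or.inl (Set.mem_iUnion.2 ⟨ρ, hc⟩))
      exact ⟨⟨c, h2⟩, rfl⟩
    exact h1
  choose Q hQ using hQ
  have hinj : Function.Injective ((Algebra.adjoin Ω Y).val : Algebra.adjoin Ω Y →+* ℂ) :=
    Subtype.val_injective
  have hQh : ∀ ρ, (Q ρ).IsHomogeneous (e ρ) := by
    intro ρ
    apply IsHomogeneous.of_map hinj
    rw [hQ]
    exact hPh ρ
  have hQ0 : ∀ ρ, MvPolynomial.map (θ₀ : Algebra.adjoin Ω Y →+* Ω) (Q ρ) ≠ 0 := by
    intro ρ h0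
    have h1 := congrArg (fun R : MvPolynomial (Fin (D + 1 + 1)) Ω => R.coeff (μ ρ)) h0
    simp only [MvPolynomial.coeff_map, MvPolynomial.coeff_zero] at h1
    have h2 : (((Q ρ).coeff (μ ρ) : Algebra.adjoin Ω Y) : ℂ) = (P ρ).coeff (μ ρ) := by
      rw [← hQ ρ, MvPolynomial.coeff_map]
      rfl
    have h3 : ((P ρ).coeff (μ ρ))⁻¹ ∈ Algebra.adjoin Ω Y := Algebra.subset_adjoin (by
      rw [hY]
      exact Or.inr ⟨ρ, rfl⟩)
    have h4 : θ₀ ((Q ρ).coeff (μ ρ)) * θ₀ ⟨_, h3⟩ = 1 := by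
      rw [← map_mul, ← map_one θ₀]
      congr 1
      apply Subtype.ext
      show (((Q ρ).coeff (μ ρ) : Algebra.adjoin Ω Y) : ℂ) * ((P ρ).coeff (μ ρ))⁻¹ = 1
      rw [h2]
      exact mul_inv_cancel₀ (hμ ρ)
    have h5 : θ₀ ((Q ρ).coeff (μ ρ)) = 0 := h1
    rw [h5, zero_mul] at h4
    exact zero_ne_one h4
  -- the small set
  obtain ⟨B₀, hB₀⟩ : ∃ B₀ : Set (Fin (n + 1) → Ω), B₀ = {w | ∀ ρ : Fin (D + 1 + 1) → Fin (n + 1),
      eval (fun i => w (ρ i)) (MvPolynomial.map (θ₀ : Algebra.adjoin Ω Y →+* Ω) (Q ρ)) = 0} :=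
    ⟨_, rfl⟩
  have hB₀dim : DimLT (D + 1) B₀ := by
    intro ρ
    refine ⟨e ρ, MvPolynomial.map (θ₀ : Algebra.adjoin Ω Y →+* Ω) (Q ρ), hQ0 ρ,
      (hQh ρ).map _, fun w hw => ?_⟩
    rw [hB₀] at hw
    exact hw ρ
  obtain ⟨e', R, hR0, hRh, hR⟩ := hsmall B₀ hB₀dim r
  obtain ⟨R₁, hR₁0, hR₁⟩ := UTH_dehom hRh hR0
  obtain ⟨ξ, hξ⟩ : ∃ ξ : Fin (d + 1) → Ω, eval ξ (H * R₁) ≠ 0 := by
    by_contra hc
    push Not at hc
    apply mul_ne_zero hH0 hR₁0
    apply MvPolynomial.funext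
    intro ξ
    rw [hc ξ, map_zero]
  rw [map_mul] at hξ
  obtain ⟨Θ, hΘ1, hΘ2⟩ := hΘ ξ (left_ne_zero_of_mul hξ)
  let xB : Fin (m + 1) → Algebra.adjoin Ω Z := fun l => ⟨x' l, hxZ l⟩
  have hxB : ∀ G : MvPolynomial (Fin (m + 1)) Ω,
      ((aeval xB G : Algebra.adjoin Ω Z) : Mer) = eval₂ (tm τ) x' G := by
    intro G
    have h1 := MvPolynomial.comp_aeval_apply xB (Algebra.adjoin Ω Z).val G
    exact h1
  obtain ⟨v, hv⟩ : ∃ v : Fin (m + 1) → Ω, v = fun l => Θ (xB l) := ⟨_, rfl⟩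
  have hpe : ∀ G : MvPolynomial (Fin (m + 1)) Ω, eval v G = Θ (aeval xB G) := by
    intro G
    have h3 := MvPolynomial.comp_aeval_apply xB Θ G
    rw [h3, hv]
    rfl
  have hvX : OnX S v := by
    intro F hF
    have h3 : eval v (map (algebraMap K Ω) F) = 0 := by
      rw [hpe]
      have h4 : (aeval xB (map (algebraMap K Ω) F) : Algebra.adjoin Ω Z) = 0 := by
        apply Subtype.ext
        rw [hxB, eval₂_map]
        exact hx'K F hF
      rw [h4, map_zero]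
    rw [eval_map] at h3
    exact h3
  have hvr : (fun i => v (r i)) = (Fin.cons 1 ξ : Fin (d + 1 + 1) → Ω) := by
    funext i
    refine Fin.cases ?_ (fun j => ?_) i
    · rw [hv, Fin.cons_zero]
      show Θ (xB (r 0)) = 1
      rw [← map_one Θ]
      congr 1
      exact Subtype.ext hx'0
    · rw [hv, Fin.cons_succ]
      exact hΘ2 j
  apply right_ne_zero_of_mul hξ
  rw [hR₁, ← hvr]
  apply hR
  refine ⟨hvX, fun t ht => ?_⟩
  rw [hB₀]
  intro ρ
  -- `P_ρ` vanishes at `t (x') ∘ ρ`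
  have hPt : aeval (fun i => eval₂ (tm τ) x' (t (ρ i))) (P ρ) = 0 := by
    have h1 : ∀ c, eval₂ (tm τ) x' (s c₀) * eval₂ (tm τ) x' (t c) =
        eval₂ (tm τ) x' (t c₀) * ((x (r 0))⁻¹) ^ es * eval₂ (tm τ) x (s c) := by
      intro c
      have h2 := (hMPT K Ω Mer m n S g (tm τ) x' hx'K).2 s hs t ht c₀ c
      rw [h2, hsx c]
      ring
    have h2 : eval₂ (tm τ) x' (s c₀) • (fun i => eval₂ (tm τ) x' (t (ρ i))) =
        (eval₂ (tm τ) x' (t c₀) * ((x (r 0))⁻¹) ^ es) • (fun i => eval₂ (tm τ) x (s (ρ i))) := by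
      funext i
      exact h1 (ρ i)
    have h3 := eval₂_smul_hom (hPh ρ) (algebraMap ℂ Mer)
      (fun i => eval₂ (tm τ) x' (t (ρ i))) (eval₂ (tm τ) x' (s c₀))
    rw [h2, eval₂_smul_hom (hPh ρ)] at h3
    have h4 : eval₂ (algebraMap ℂ Mer) (fun i => eval₂ (tm τ) x (s (ρ i))) (P ρ) = 0 := hP ρ
    rw [h4, mul_zero] at h3
    rcases mul_eq_zero.1 h3.symm with h5 | h5
    · exact absurd h5 (pow_ne_zero _ hc₀')
    · exact h5
  show eval (fun i => eval v (t (ρ i))) (MvPolynomial.map (θ₀ : Algebra.adjoin Ω Y →+* Ω) (Q ρ)) = 0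
  have h1 : (θ₀ : Algebra.adjoin Ω Y →+* Ω) =
      (Θ : Algebra.adjoin Ω Z →+* Ω).comp (ι : Algebra.adjoin Ω Y →+* Algebra.adjoin Ω Z) := by
    ext y
    exact (hΘ1 y).symm
  have h2 : (fun i => eval v (t (ρ i))) = fun i => (Θ : Algebra.adjoin Ω Z →+* Ω)
      (aeval xB (t (ρ i))) := by
    funext i
    exact hpe _
  rw [eval_map, h1, h2]
  have h3 := eval₂_comp_left (Θ : Algebra.adjoin Ω Z →+* Ω)
    (ι : Algebra.adjoin Ω Y →+* Algebra.adjoin Ω Z) (fun i => aeval xB (t (ρ i))) (Q ρ)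
  have h4 : eval₂ (ι : Algebra.adjoin Ω Y →+* Algebra.adjoin Ω Z)
      (fun i => aeval xB (t (ρ i))) (Q ρ) = 0 := by
    apply Subtype.ext
    have h5 := eval₂_comp_left ((Algebra.adjoin Ω Z).val : Algebra.adjoin Ω Z →+* Mer)
      (ι : Algebra.adjoin Ω Y →+* Algebra.adjoin Ω Z) (fun i => aeval xB (t (ρ i))) (Q ρ)
    have h6 : (((eval₂ (ι : Algebra.adjoin Ω Y →+* Algebra.adjoin Ω Z)
      (fun i => aeval xB (t (ρ i))) (Q ρ) : Algebra.adjoin Ω Z) : Mer)) = _ := h5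
    rw [h6]
    have h7 : (⇑((Algebra.adjoin Ω Z).val : Algebra.adjoin Ω Z →+* Mer) ∘
        fun i => aeval xB (t (ρ i))) = fun i => eval₂ (tm τ) x' (t (ρ i)) := by
      funext i
      exact hxB _
    have h8 : ((Algebra.adjoin Ω Z).val : Algebra.adjoin Ω Z →+* Mer).comp
        (ι : Algebra.adjoin Ω Y →+* Algebra.adjoin Ω Z) =
        (algebraMap ℂ Mer).comp ((Algebra.adjoin Ω Y).val : Algebra.adjoin Ω Y →+* ℂ) := by
      ext y
      rfl
    rw [h7, h8, ← eval₂_map, hQ ρ]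
    exact hPt
  rw [h4, map_zero] at h3
  exact h3.symm

end Pool.ThmQ
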