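import Pool.Agent.Work.MP_f82ddf_Q.Interface

set_option autoImplicit false

namespace Pool.ThmQ

open MvPolynomial Finset Pool.Agent.Work.MP_f82ddf_nt Pool.Agent.Work.MP_f82ddf_nt.DQ Pool.ThmM
  Pool.ThmM0 Pool.ThmP

/-- A relation for `a + 1` coordinates is one for `a' + 1`, `a ≤ a'`. -/
theorem UVD_mono {n a a' : ℕ} (haa : a ≤ a') {y : Fin (n + 1) → Mer} (h : RelLT a y) :
    RelLT a' y := by
  intro r
  have hle : a + 1 ≤ a' + 1 := Nat.add_le_add_right haa 1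
  obtain ⟨e, P, hP, hPe, hP0⟩ := h (fun i => r (Fin.castLE hle i))
  refine ⟨e, rename (Fin.castLE hle) P, ?_, hPe.rename_isHomogeneous, ?_⟩
  · intro h0
    exact hP (rename_injective _ (Fin.castLE_injective hle) (by rw [h0, map_zero]))
  · rw [aeval_rename]
    exact hP0

/-- The bound for degree `t ≤ e`. -/
theorem UVD_bd {n e t k s : ℕ} (hte : t ≤ e) :
    min (n - 1) (s + ((n + t).choose t - 1 - s) / k) + 1 ≤ bd n e k s + 1 := by
  unfold bd
  have h1 : (n + t).choose t ≤ (n + e).choose n := by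
    rw [← Nat.choose_symm_add]
    exact Nat.choose_le_choose n (by omega)
  have h2 : ((n + t).choose t - 1 - s) / k ≤ ((n + e).choose n - 1 - s) / k :=
    Nat.div_le_div_right (by omega)
  omega

/-- (UVD) Forms of different degrees. -/
theorem p_UVD (hUFX : Stmt_UFX) (hPIG : Stmt_PIG) : Stmt_UVD := by
  intro n e
  choose N0 hN0 using fun t : {t : ℕ // 1 ≤ t} => hUFX n t.1 t.2
  refine ⟨1 + ∑ t ∈ Finset.Icc 1 e, (if h : 1 ≤ t then N0 ⟨t, h⟩ else 0), ?_⟩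
  intro k N s b hk hs hb K Ω _ _ _ _ m S hS g F hF hD hd hlt τ x hx hx0 s' hs' hsx
  have hlt' : ∑ t ∈ Finset.Icc 1 e, (if h : 1 ≤ t then N0 ⟨t, h⟩ else 0) * b <
      {j | ¬ ∃ G, F j = G ^ k}.ncard := by
    refine lt_of_lt_of_le ?_ hlt
    rw [← Finset.sum_mul, Nat.add_mul]
    omega
  obtain ⟨t, N', γ, ht1, hte, hγ, hQ, hP⟩ := hPIG N e
    (fun t => (if h : 1 ≤ t then N0 ⟨t, h⟩ else 0) * b) (fun j => ¬ ∃ G, F j = G ^ k)
    (fun t j => (F j).IsHomogeneous t) hF hlt'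
  simp only [dif_pos ht1] at hP
  refine UVD_mono (UVD_bd hte) (hN0 ⟨t, ht1⟩ k N' s b hk hs hb K Ω m S hS g
    (fun i => F (γ i)) hQ ?_ (fun j => hd _) hP.le τ x hx hx0 s' hs' hsx)
  intro J hJ
  have h1 : zeros g (fun i => F (γ i)) J = zeros g F (J.map ⟨γ, hγ⟩) := by
    unfold zeros
    ext w
    constructor
    · rintro ⟨h2, h3⟩
      refine ⟨h2, fun j hj => ?_⟩
      obtain ⟨i, hi, rfl⟩ := Finset.mem_map.1 hj
      exact h3 i hi
    · rintro ⟨h2, h3⟩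
      exact ⟨h2, fun i hi => h3 (γ i) (Finset.mem_map.2 ⟨i, hi, rfl⟩)⟩
  rw [h1]
  exact hD _ (by rw [Finset.card_map]; exact hJ)

end Pool.ThmQ
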