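import Pool.Agent.Work.MP_f82ddf_Q.B_NRS
import Pool.Agent.Work.MP_f82ddf_P.Every

/-!
# THEOREM U (MP_f82ddf_nt): the bound `s + (n - s) / k` for hyperplanes is optimal for every variety
-/

set_option autoImplicit false

namespace Pool.ThmQ

open MvPolynomial Pool.ThmP

/-- Every projective variety `X` of dimension at most `s + (n - s) / k`, `s < n`, has a finite morphism
`g` to the projective space of dimension `n`, and there are any number of hyperplanes, any
`n - s + 1` of which have common zeros of dimension less than `s` only, whose pull backs under `g` are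
locally defined by `k`-th powers. -/
def Stmt_EVY : Prop :=
  ∀ (n s r k : ℕ), 2 ≤ k → s < n → ∀ (K : Type) [Field K] [CharZero K] (m : ℕ)
    (S : Set (MvPolynomial (Fin (m + 1)) K)), (∀ F ∈ S, ∃ d, F.IsHomogeneous d) →
    DimLT (s + (n - s) / k + 1) {v : Fin (m + 1) → AlgebraicClosure K | OnX S v} →
    ∃ (g : Mor K (AlgebraicClosure K) m n S)
      (F : Fin (r + 1) → MvPolynomial (Fin (n + 1)) (AlgebraicClosure K)),
      g.Finite ∧ (∀ j, (F j).IsHomogeneous 1) ∧ (∀ j, ¬ ∃ G, F j = G ^ k) ∧
      (∀ j, g.DivisibleF k (F j)) ∧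
      ∀ J : Finset (Fin (r + 1)), n - s < J.card →
        DimLT s {w : Fin (n + 1) → AlgebraicClosure K | ∀ j ∈ J, eval w (F j) = 0}

theorem all_EVY : Stmt_EVY := by
  classical
  intro n s r k hk hsn K _ _ m S hS hd
  obtain ⟨q, hq⟩ : ∃ q, q = (n - s) / k := ⟨_, rfl⟩
  rw [← hq] at hd
  have hqk : k * q ≤ n - s := by
    rw [hq]
    exact Nat.mul_div_le _ k
  obtain ⟨y, hy⟩ := p_NRS (AlgebraicClosure K) m (s + q + 1)
    {v : Fin (m + 1) → AlgebraicClosure K | OnX S v} hd
  have hlfe : ∀ (a v : Fin (m + 1) → AlgebraicClosure K),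
      eval v (∑ j, C (a j) * X j : MvPolynomial (Fin (m + 1)) (AlgebraicClosure K)) =
        ∑ j, a j * v j := by
    intro a v
    rw [map_sum]
    exact Finset.sum_congr rfl fun j _ => by rw [map_mul, eval_C, eval_X]
  obtain ⟨h, hh⟩ : ∃ h : Fin (s + q + 1) → MvPolynomial (Fin (m + 1)) (AlgebraicClosure K),
      h = fun i => ∑ j, C (y i j) * X j := ⟨_, rfl⟩
  have hhom : ∀ i, (h i).IsHomogeneous 1 := by
    intro i
    rw [hh]
    refine IsHomogeneous.sum _ _ _ fun j _ => ?_
    simpa using (isHomogeneous_C (Fin (m + 1)) (y i j)).mul (isHomogeneous_X _ j)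
  -- the first `q + 1` forms
  obtain ⟨h₁, hh₁⟩ : ∃ h₁ : Fin (q + 1) → MvPolynomial (Fin (m + 1)) (AlgebraicClosure K),
      h₁ = fun i : Fin (q + 1) => h ⟨i, by omega⟩ := ⟨_, rfl⟩
  obtain ⟨P, hP⟩ : ∃ P : Polynomial (MvPolynomial (Fin (m + 1)) (AlgebraicClosure K)),
      P = ∑ i : Fin (q + 1), Polynomial.monomial (i : ℕ) (h₁ i) := ⟨_, rfl⟩
  have hPc : ∀ c, (P.coeff c).IsHomogeneous 1 := by
    intro c
    rw [hP, Polynomial.finsetSum_coeff]
    refine IsHomogeneous.sum _ _ _ fun i _ => ?_
    rw [Polynomial.coeff_monomial]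
    split_ifs
    · rw [hh₁]
      exact hhom _
    · exact isHomogeneous_zero _ _ _
  have hPdeg : P.natDegree ≤ q := by
    rw [hP]
    refine Polynomial.natDegree_sum_le_of_forall_le _ _ fun i _ => ?_
    refine (Polynomial.natDegree_monomial_le _).trans ?_
    have := i.isLt
    omega
  have hPkdeg : (P ^ k).natDegree ≤ n - s :=
    (Polynomial.natDegree_pow_le_of_le k hPdeg).trans hqk
  -- the coordinates of `g`
  obtain ⟨σ, hσ⟩ : ∃ σ : Fin (n + 1) → MvPolynomial (Fin (m + 1)) (AlgebraicClosure K),
      σ = fun c : Fin (n + 1) => if hc : (c : ℕ) ≤ n - s then (P ^ k).coeff (c : ℕ) else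
        h ⟨q + (c - (n - s)), by omega⟩ ^ k := ⟨_, rfl⟩
  have hσ1 : ∀ c : Fin (n + 1), (c : ℕ) ≤ n - s → σ c = (P ^ k).coeff (c : ℕ) := by
    intro c hc
    rw [hσ]
    exact dif_pos hc
  have hσ2 : ∀ c : Fin (n + 1), ∀ hc : ¬ (c : ℕ) ≤ n - s,
      σ c = h ⟨q + (c - (n - s)), by omega⟩ ^ k := by
    intro c hc
    rw [hσ]
    exact dif_neg hc
  have hPv : ∀ v : Fin (m + 1) → AlgebraicClosure K,
      ((P ^ k).map (eval v)) = (∑ i : Fin (q + 1), Polynomial.monomial (i : ℕ) (eval v (h₁ i))) ^ k := by
    intro v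
    rw [Polynomial.map_pow, hP, Polynomial.map_sum]
    congr 1
    exact Finset.sum_congr rfl fun i _ => by rw [Polynomial.map_monomial]
  have hpc : ∀ (v : Fin (m + 1) → AlgebraicClosure K) (i : Fin (q + 1)),
      (∑ i : Fin (q + 1), Polynomial.monomial (i : ℕ) (eval v (h₁ i))).coeff i = eval v (h₁ i) := by
    intro v i
    rw [Polynomial.finsetSum_coeff, Finset.sum_eq_single i]
    · rw [Polynomial.coeff_monomial, if_pos rfl]
    · intro b _ hb
      rw [Polynomial.coeff_monomial, if_neg]
      intro hbi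
      exact hb (Fin.ext hbi)
    · intro hi
      exact absurd (Finset.mem_univ _) hi
  have hsne : ∀ v : Fin (m + 1) → AlgebraicClosure K, OnX S v → (∀ c, eval v (σ c) = 0) →
      v = 0 := by
    intro v hv hc
    apply hy v hv
    intro i
    rw [← hlfe]
    change eval v ((fun i => ∑ j, C (y i j) * X j) i) = 0
    rw [← hh]
    by_cases hi : (i : ℕ) ≤ q
    · have hpz : (∑ i : Fin (q + 1), Polynomial.monomial (i : ℕ) (eval v (h₁ i))) = 0 := by
        apply (pow_eq_zero_iff (n := k) (by omega)).1
        rw [← hPv]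
        ext c
        rw [Polynomial.coeff_map, Polynomial.coeff_zero]
        by_cases hcn : c ≤ n - s
        · have h1 := hc ⟨c, by omega⟩
          rw [hσ1 _ hcn] at h1
          exact h1
        · rw [Polynomial.coeff_eq_zero_of_natDegree_lt (by omega), map_zero]
      have h1 := hpc v ⟨i, by omega⟩
      rw [hpz, Polynomial.coeff_zero] at h1
      rw [h1, hh₁]
    · have h1 := hc ⟨n - s + (i - q), by omega⟩
      rw [hσ2 _ (by simp only; omega), map_pow] at h1
      have h2 := eq_zero_of_pow_eq_zero h1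
      rw [← h2]
      congr 2
      apply Fin.ext
      simp only
      omega
  have hshom : ∀ c, (σ c).IsHomogeneous k := by
    intro c
    by_cases hc : (c : ℕ) ≤ n - s
    · rw [hσ1 c hc]
      exact EVX_hom k P hPc c
    · rw [hσ2 c hc]
      simpa using (hhom _).pow k
  obtain ⟨g, hg, hgf⟩ := all_FFB K (AlgebraicClosure K) m n k S σ hS (by omega) hshom hsne
  -- the hyperplanes
  obtain ⟨F, hF⟩ : ∃ F : Fin (r + 1) → MvPolynomial (Fin (n + 1)) (AlgebraicClosure K),
      F = fun j : Fin (r + 1) => ∑ c : Fin (n - s + 1),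
        C (((j : ℕ) : AlgebraicClosure K) ^ (c : ℕ)) * X (⟨c, by omega⟩ : Fin (n + 1)) := ⟨_, rfl⟩
  have hFe : ∀ (j : Fin (r + 1)) (x : Fin (n + 1) → AlgebraicClosure K),
      eval x (F j) = ∑ c : Fin (n - s + 1), ((j : ℕ) : AlgebraicClosure K) ^ (c : ℕ) *
        x ⟨c, by omega⟩ := by
    intro j x
    rw [hF, map_sum]
    exact Finset.sum_congr rfl fun j _ => by rw [map_mul, eval_C, eval_X]
  have hFv : ∀ (j : Fin (r + 1)) (v : Fin (m + 1) → AlgebraicClosure K),
      eval (fun c => eval v (σ c)) (F j) =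
        (∑ i : Fin (q + 1), ((j : ℕ) : AlgebraicClosure K) ^ (i : ℕ) * eval v (h₁ i)) ^ k := by
    intro j v
    rw [hFe]
    have h1 : Polynomial.eval ((j : ℕ) : AlgebraicClosure K) ((P ^ k).map (eval v)) =
        ∑ c : Fin (n - s + 1), ((j : ℕ) : AlgebraicClosure K) ^ (c : ℕ) *
          eval v (σ ⟨c, by omega⟩) := by
      rw [Polynomial.eval_eq_sum_range' (n := n - s + 1)
        (lt_of_le_of_lt (Polynomial.natDegree_map_le) (by omega)), Finset.sum_range]
      refine Finset.sum_congr rfl fun c _ => ?_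
      rw [Polynomial.coeff_map, hσ1 ⟨c, by omega⟩ (by simp only; omega), mul_comm]
    rw [← h1, hPv, Polynomial.eval_pow, Polynomial.eval_finsetSum]
    congr 1
    exact Finset.sum_congr rfl fun i _ => by rw [Polynomial.eval_monomial, mul_comm]
  have hF1 : ∀ j, (F j).IsHomogeneous 1 := by
    intro j
    rw [hF]
    refine IsHomogeneous.sum _ _ _ fun c _ => ?_
    simpa using (isHomogeneous_C (Fin (n + 1)) (((j : ℕ) : AlgebraicClosure K) ^ (c : ℕ))).mul
      (isHomogeneous_X _ _)
  refine ⟨g, F, hgf, hF1, fun j => EVX_np hk (hF1 j) fun h0 => ?_, fun j v hv0 hv => ?_,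
    fun J hJ => ?_⟩
  · have h1 := hFe j (Pi.single 0 1)
    rw [h0, map_zero, Finset.sum_eq_single 0] at h1
    · simp at h1
    · intro b _ hb
      rw [Pi.single_eq_of_ne, mul_zero]
      intro h2
      apply hb
      apply Fin.ext
      have h3 := congrArg Fin.val h2
      simpa using h3
    · intro h2
      exact absurd (Finset.mem_univ _) h2
  · refine ⟨σ, by rw [hg]; rfl, ?_, 0, 1, 1,
      ∑ i : Fin (q + 1), C (((j : ℕ) : AlgebraicClosure K) ^ (i : ℕ)) * h₁ i, isHomogeneous_one _ _,
      ?_, by rw [map_one]; exact one_ne_zero, fun u hu => ?_⟩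
    · by_contra hcon
      push Not at hcon
      exact hv0 (hsne v hv hcon)
    · refine IsHomogeneous.sum _ _ _ fun i _ => ?_
      rw [hh₁]
      simpa using (isHomogeneous_C (Fin (m + 1)) (((j : ℕ) : AlgebraicClosure K) ^ (i : ℕ))).mul
        (hhom _)
    · rw [map_one, one_mul, hFv, map_sum]
      congr 1
      exact Finset.sum_congr rfl fun i _ => by rw [map_mul, eval_C]
  · -- the common zeros of more than `n - s` of the hyperplanes
    have hz : ∀ w : Fin (n + 1) → AlgebraicClosure K, (∀ j ∈ J, eval w (F j) = 0) →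
        ∀ c : Fin (n + 1), (c : ℕ) ≤ n - s → w c = 0 := by
      intro w hw c hc
      obtain ⟨p, hp⟩ : ∃ p : Polynomial (AlgebraicClosure K),
          p = ∑ c : Fin (n - s + 1), Polynomial.monomial (c : ℕ) (w ⟨c, by omega⟩) := ⟨_, rfl⟩
      have hpdeg : p.natDegree < J.card := by
        refine lt_of_le_of_lt ?_ hJ
        rw [hp]
        refine Polynomial.natDegree_sum_le_of_forall_le _ _ fun i _ => ?_
        refine (Polynomial.natDegree_monomial_le _).trans ?_
        have := i.isLt
        omega
      have hinj : Function.Injective (fun j : Fin (r + 1) => ((j : ℕ) : AlgebraicClosure K)) := by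
        intro a b hab
        exact Fin.ext (Nat.cast_injective hab)
      have hp0 : p = 0 := by
        apply Polynomial.eq_zero_of_natDegree_lt_card_of_eval_eq_zero' p
          (J.image fun j : Fin (r + 1) => ((j : ℕ) : AlgebraicClosure K))
        · intro a ha
          obtain ⟨j, hj, rfl⟩ := Finset.mem_image.1 ha
          have h1 := hw j hj
          rw [hFe] at h1
          rw [hp, Polynomial.eval_finsetSum, ← h1]
          exact Finset.sum_congr rfl fun i _ => by rw [Polynomial.eval_monomial, mul_comm]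
        · rw [Finset.card_image_of_injective _ hinj]
          exact hpdeg
      have h2 : p.coeff c = w c := by
        rw [hp, Polynomial.finsetSum_coeff, Finset.sum_eq_single ⟨c, by omega⟩]
        · rw [Polynomial.coeff_monomial, if_pos rfl]
        · intro b _ hb
          rw [Polynomial.coeff_monomial, if_neg]
          intro hbi
          exact hb (Fin.ext hbi)
        · intro hi
          exact absurd (Finset.mem_univ _) hi
      rw [← h2, hp0, Polynomial.coeff_zero]
    intro ρ
    by_cases hρ : ∃ i, (ρ i : ℕ) ≤ n - s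
    · obtain ⟨i, hi⟩ := hρ
      refine ⟨1, X i, X_ne_zero i, isHomogeneous_X _ i, fun w hw => ?_⟩
      rw [eval_X]
      exact hz w hw _ hi
    · push Not at hρ
      have hni : ¬ Function.Injective ρ := by
        intro hinj
        have h1 : Function.Injective
            (fun i => (⟨ρ i - (n - s + 1), by have := hρ i; have := (ρ i).isLt; omega⟩ : Fin s)) := by
          intro a b hab
          apply hinj
          apply Fin.ext
          have h2 := congrArg Fin.val hab
          have h3 := hρ a
          have h4 := hρ b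
          simp only at h2
          omega
        have h5 := Fintype.card_le_of_injective _ h1
        simp at h5
      obtain ⟨a, b, hab, hne⟩ : ∃ a b, ρ a = ρ b ∧ a ≠ b := by
        simp only [Function.Injective] at hni
        push Not at hni
        exact hni
      refine ⟨1, X a - X b, ?_, (isHomogeneous_X _ a).sub (isHomogeneous_X _ b), fun w _ => ?_⟩
      · intro h0
        exact hne (X_injective (sub_eq_zero.1 h0))
      · rw [map_sub, eval_X, eval_X, hab, sub_self]

end Pool.ThmQ
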