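import Pool.Agent.Work.MP_f82ddf_P.All4
import Pool.Agent.Work.MP_f82ddf_Q.Every2
import Pool.Agent.Work.MP_f82ddf_Q.B_REL
import Pool.Agent.Work.MP_f82ddf_Q.B_KEY
import Pool.Agent.Work.MP_f82ddf_Q.B_RKB
import Pool.Agent.Work.MP_f82ddf_Q.B_CDR
import Pool.Agent.Work.MP_f82ddf_Q.B_UAB
import Pool.Agent.Work.MP_f82ddf_Q.B_UDM
import Pool.Agent.Work.MP_f82ddf_Q.B_SLU
import Pool.Agent.Work.MP_f82ddf_Q.B_USL
import Pool.Agent.Work.MP_f82ddf_Q.B_SPZ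
import Pool.Agent.Work.MP_f82ddf_Q.B_PDC
import Pool.Agent.Work.MP_f82ddf_Q.B_UFX
import Pool.Agent.Work.MP_f82ddf_Q.B_UVD
import Pool.Agent.Work.MP_f82ddf_Q.B_UCV
import Pool.Agent.Work.MP_f82ddf_Q.B_UNH
import Pool.Agent.Work.MP_f82ddf_Q.B_UTH
import Pool.Agent.Work.MP_f82ddf_Q.B_UFN

/-!
# THEOREM U: assembly
-/

set_option autoImplicit false

namespace Pool.ThmQ

open Pool.ThmP

theorem all_REL : Stmt_REL := p_REL all_NUL
theorem all_KEY : Stmt_KEY := p_KEY p_NRS p_VER all_VAL p_TRX Pool.ThmM0.stmt_HOMR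
theorem all_CDR : Stmt_CDR := p_CDR all_CDP
theorem all_UAB : Stmt_UAB := p_UAB all_CDR p_BAS p_REP Pool.ThmM0.stmt_EXPO
theorem all_UDM : Stmt_UDM := p_UDM all_UAB all_REL all_KEY p_RKB p_VER all_KTH
theorem all_USL : Stmt_USL := p_USL p_SLU p_VER
theorem all_SPZ : Stmt_SPZ := p_SPZ all_NUL all_MPT
theorem all_PDC : Stmt_PDC := p_PDC all_SPZ all_TRS all_CDC p_EXV
theorem all_UFX : Stmt_UFX := p_UFX all_UDM all_USL all_PDC all_GGM
theorem all_UVD : Stmt_UVD := p_UVD all_UFX p_PIG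
/-- Entire curves. -/
theorem all_UCV : Stmt_UCV := p_UCV all_UVD all_MPT Pool.ThmM0.stmt_MREL
theorem all_UNH : Stmt_UNH := p_UNH all_FIB p_TRX Pool.ThmM0.stmt_HOMR
theorem all_UTH : Stmt_UTH := p_UTH p_EXT all_MPT Pool.ThmM0.stmt_HOMR
/-- The dimension bounds. -/
theorem all_UFN : Stmt_UFN := p_UFN all_UVD all_MPT all_UNH all_UTH

end Pool.ThmQ
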