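import Pool.Agent.Work.MP_f82ddf_Q.Interface
import Pool.Agent.Work.MP_f82ddf_W.B_TRM
import Pool.Agent.Work.MP_f82ddf_Y.B_YEX
import Pool.Agent.Work.MP_f82ddf_Y.B_DDR
import Pool.Agent.Work.MP_f82ddf_Y.B_DCO

set_option autoImplicit false

namespace Pool.ThmQ

open MvPolynomial Pool.ThmP

theorem p_NRS : Stmt_NRS := by
  classical
  intro Ω _ _ n s Z hZ
  let I : Ideal (MvPolynomial (Fin (n + 1)) Ω) :=
    { carrier := {f | ∀ z ∈ Z, ∀ a : Ω, eval (fun i => a * z i) f = 0}
      add_mem' := by
        intro p q hp hq z hz a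
        rw [map_add, hp z hz a, hq z hz a, add_zero]
      zero_mem' := by
        intro z _ a
        rw [map_zero]
      smul_mem' := by
        intro c p hp z hz a
        rw [smul_eq_mul, map_mul, hp z hz a, mul_zero] }
  have hI : ∀ f, f ∈ I ↔ ∀ z ∈ Z, ∀ a : Ω, eval (fun i => a * z i) f = 0 := fun f => Iff.rfl
  have hsub : ∀ (a : Ω) (f : MvPolynomial (Fin (n + 1)) Ω) (v : Fin (n + 1) → Ω),
      eval v (aeval (fun i => (C a * X i : MvPolynomial (Fin (n + 1)) Ω)) f) =
        eval (fun i => a * v i) f := by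
    intro a f v
    have h2 : (eval v).comp (aeval (fun i => (C a * X i : MvPolynomial (Fin (n + 1)) Ω)) :
        MvPolynomial (Fin (n + 1)) Ω →ₐ[Ω] _).toRingHom = eval (fun i => a * v i) := by
      apply MvPolynomial.ringHom_ext
      · intro b
        simp
      · intro i
        simp
    exact DFunLike.congr_fun h2 f
  have hIc : Pool.MPY.YEX_Cone I := by
    intro z hz a f hf
    rw [← hsub]
    apply hz
    rw [hI]
    intro w hw b
    rw [hsub]
    have h3 := hf w hw (a * b)
    rw [show (fun i => a * (b * w i)) = fun i => a * b * w i from funext fun i => by ring]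
    exact h3
  obtain ⟨y, hy⟩ := Pool.MPY.YEX_claim Pool.MPY.p_DDR s I hIc (fun q hq hIq => by
    apply Pool.MPY.p_DCO Pool.MPW.p_TRM Ω n s q hq
    intro r hr
    obtain ⟨e, R, hR0, hRe, hR⟩ := hZ r
    apply hR0
    apply hr
    apply hIq
    rw [hI]
    intro z hz a
    have h1 : eval (fun i => a * z i) (aeval (fun i => (X (r i) : MvPolynomial (Fin (n + 1)) Ω)) R) =
        eval (fun i => a * z (r i)) R := by
      have h2 : (eval (fun i => a * z i)).comp
          (aeval (fun i => (X (r i) : MvPolynomial (Fin (n + 1)) Ω)) :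
          MvPolynomial (Fin (s + 1)) Ω →ₐ[Ω] _).toRingHom = eval (fun i => a * z (r i)) := by
        apply MvPolynomial.ringHom_ext
        · intro b
          simp
        · intro i
          simp
      exact DFunLike.congr_fun h2 R
    rw [h1, show (fun i => a * z (r i)) = fun i => a * (fun i => z (r i)) i from rfl,
      Pool.MPY.YEX_smul hRe, hR z hz, mul_zero])
  refine ⟨y, fun z hz h => hy z (fun f hf => ?_) h⟩
  have h4 := (hI f).1 hf z hz 1
  simpa using h4

end Pool.ThmQ
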