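import Pool.Agent.Work.MP_f82ddf_Q.Interface

set_option autoImplicit false

/-! # THEOREM U (MP_f82ddf_nt), block SPZ: specialisation in a valuation ring -/

namespace Pool.ThmQ

open MvPolynomial Finset Pool.Agent.Work.MP_f82ddf_nt Pool.Agent.Work.MP_f82ddf_nt.DQ Pool.ThmM
  Pool.ThmM0 Pool.ThmP

theorem SPZ_bind {Ω R : Type} [Field Ω] [CommRing R] {m n : ℕ} (τ : Ω →+* R)
    (p : Fin (m + 1) → R) (t : Fin (n + 1) → MvPolynomial (Fin (m + 1)) Ω)
    (H : MvPolynomial (Fin (n + 1)) Ω) :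
    eval₂ τ p (bind₁ t H) = eval₂ τ (fun c => eval₂ τ p (t c)) H := by
  have h := eval₂Hom_bind₁ (f := τ) (g := p) (h := t) H
  exact h

theorem p_SPZ (hN : ThmP.Stmt_NUL) (h1 : ThmP.Stmt_MPT) : Stmt_SPZ := by
  intro K Ω κ _ _ _ _ _ m n q S g E Q hS hE hQ himp τ V hτ x hx hx0 s hs d hd hV hEv
  -- the largest coordinate
  obtain ⟨i₁, -, hmax⟩ := Finset.exists_max_image Finset.univ (fun i => V.valuation (x i))
    ⟨0, Finset.mem_univ _⟩
  have hi₁ : x i₁ ≠ 0 := by
    intro h0
    apply hx0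
    funext i
    have h3 := hmax i (Finset.mem_univ i)
    rw [h0, map_zero] at h3
    exact (map_eq_zero V.valuation).1 (le_antisymm h3 zero_le)
  have hvi₁ : V.valuation (x i₁) ≠ 0 := (Valuation.ne_zero_iff _).2 hi₁
  have hmem : ∀ i, x i / x i₁ ∈ V := by
    intro i
    rw [← V.valuation_le_one_iff, map_div₀]
    exact div_le_one_of_le₀ (hmax i (Finset.mem_univ i)) zero_le
  set x' : Fin (m + 1) → κ := fun i => x i / x i₁ with hx'
  have hxx' : x = x i₁ • x' := by
    funext i
    rw [Pi.smul_apply, smul_eq_mul, hx']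
    field_simp
  have hx'S : OnK τ S x' := by
    intro F hF
    obtain ⟨e, he⟩ := hS F hF
    have h3 := hx F hF
    rw [hxx', eval₂_smul_hom he] at h3
    exact (mul_eq_zero.1 h3).resolve_left (pow_ne_zero _ hi₁)
  -- the reduction
  set τV : Ω →+* V := τ.codRestrict V.toSubring hτ with hτV
  set xV : Fin (m + 1) → V := fun i => ⟨x' i, hmem i⟩ with hxV
  have hcoe : ∀ H : MvPolynomial (Fin (m + 1)) Ω, ((eval₂ τV xV H : V) : κ) = eval₂ τ x' H := by
    intro H
    have h3 := eval₂_comp_left V.subtype τV xV H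
    exact h3
  have hcoeK : ∀ H : MvPolynomial (Fin (m + 1)) K,
      ((eval₂ (τV.comp (algebraMap K Ω)) xV H : V) : κ) = eval₂ (τ.comp (algebraMap K Ω)) x' H := by
    intro H
    have h3 := eval₂_comp_left V.subtype (τV.comp (algebraMap K Ω)) xV H
    exact h3
  set τr : Ω →+* IsLocalRing.ResidueField V := (IsLocalRing.residue V).comp τV with hτr
  set p : Fin (m + 1) → IsLocalRing.ResidueField V := fun i => IsLocalRing.residue V (xV i) with hp
  have hres : ∀ H : MvPolynomial (Fin (m + 1)) Ω,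
      IsLocalRing.residue V (eval₂ τV xV H) = eval₂ τr p H := by
    intro H
    exact eval₂_comp_left (IsLocalRing.residue V) τV xV H
  have hpS : OnK τr S p := by
    intro F hF
    have h3 : eval₂ (τV.comp (algebraMap K Ω)) xV F = 0 := by
      apply Subtype.ext
      rw [hcoeK F]
      exact hx'S F hF
    have h4 := eval₂_comp_left (IsLocalRing.residue V) (τV.comp (algebraMap K Ω)) xV F
    rw [h3, map_zero] at h4
    exact h4.symm
  have hp1 : p i₁ = 1 := by
    have h3 : xV i₁ = 1 := by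
      apply Subtype.ext
      exact div_self hi₁
    show IsLocalRing.residue V (xV i₁) = 1
    rw [h3, map_one]
  have hp0 : p ≠ 0 := by
    intro h0
    rw [h0] at hp1
    exact zero_ne_one hp1
  obtain ⟨s', hs', c₁, hc₁⟩ := (h1 K Ω _ m n S g τr p hpS).1 hp0
  -- units
  have hunit : ∀ a : V, IsLocalRing.residue V a ≠ 0 → V.valuation (a : κ) = 1 := by
    intro a ha
    rw [← V.valuation_eq_one_iff]
    exact (IsLocalRing.residue_ne_zero_iff_isUnit a).1 ha
  have hv1 : V.valuation (eval₂ τ x' (s' c₁)) = 1 := by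
    rw [← hcoe]
    apply hunit
    rw [hres]
    exact hc₁
  -- the two tuples are proportional
  obtain ⟨e, he⟩ := g.homogeneous s' hs'
  have hprop : ∀ c c', eval₂ τ x (s c) * eval₂ τ x' (s' c') =
      eval₂ τ x (s c') * eval₂ τ x' (s' c) := by
    intro c c'
    have h3 := (h1 K Ω κ m n S g τ x hx).2 s hs s' hs' c c'
    have h4 : ∀ b, eval₂ τ x (s' b) = x i₁ ^ e * eval₂ τ x' (s' b) := by
      intro b
      conv_lhs => rw [hxx']
      exact eval₂_smul_hom (he b) τ x' (x i₁)
    rw [h4, h4] at h3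
    apply mul_left_cancel₀ (pow_ne_zero e hi₁)
    linear_combination h3
  have hv0 : eval₂ τ x' (s' c₁) ≠ 0 := by
    intro h0
    rw [h0, map_zero] at hv1
    exact zero_ne_one hv1
  have hd' : eval₂ τ x' (s' d) ≠ 0 := by
    intro h0
    have h3 := hprop d c₁
    rw [h0, mul_zero] at h3
    rcases mul_eq_zero.1 h3 with h4 | h4
    · exact hd h4
    · exact hv0 h4
  have hratio : ∀ c, eval₂ τ x (s c) / eval₂ τ x (s d) =
      eval₂ τ x' (s' c) / eval₂ τ x' (s' d) := by
    intro c
    rw [div_eq_div_iff hd hd']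
    linear_combination hprop c d
  have hvd1 : V.valuation (eval₂ τ x' (s' d)) ≤ 1 := by
    rw [← hcoe]
    exact V.valuation_le_one _
  have hvd2 : 1 ≤ V.valuation (eval₂ τ x' (s' d)) := by
    have h3 := hV c₁
    rw [hratio c₁, ← V.valuation_le_one_iff, map_div₀, hv1] at h3
    have h5 : V.valuation (eval₂ τ x' (s' d)) ≠ 0 := (Valuation.ne_zero_iff _).2 hd'
    rw [div_le_one₀ (zero_lt_iff.2 h5)] at h3
    exact h3
  have hvd : V.valuation (eval₂ τ x' (s' d)) = 1 := le_antisymm hvd1 hvd2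
  -- forms at the ratios
  have hkey : ∀ (H : MvPolynomial (Fin (n + 1)) Ω) (h : ℕ), H.IsHomogeneous h →
      (eval₂ τ (fun c => eval₂ τ x (s c) / eval₂ τ x (s d)) H ∈ V.nonunits ↔
        eval₂ τr (fun c => eval₂ τr p (s' c)) H = 0) := by
    intro H h hH
    have e1 : (fun c => eval₂ τ x (s c) / eval₂ τ x (s d)) =
        (eval₂ τ x' (s' d))⁻¹ • (fun c => eval₂ τ x' (s' c)) := by
      funext c
      rw [Pi.smul_apply, smul_eq_mul, hratio c, div_eq_inv_mul]
    have e2 : eval₂ τ (fun c => eval₂ τ x' (s' c)) H =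
        ((eval₂ τV (fun c => eval₂ τV xV (s' c)) H : V) : κ) := by
      have h3 := eval₂_comp_left V.subtype τV (fun c => eval₂ τV xV (s' c)) H
      have h4 : (⇑V.subtype ∘ fun c => eval₂ τV xV (s' c)) = fun c => eval₂ τ x' (s' c) := by
        funext c
        exact hcoe (s' c)
      rw [h4] at h3
      exact h3.symm
    have e3 : IsLocalRing.residue V (eval₂ τV (fun c => eval₂ τV xV (s' c)) H) =
        eval₂ τr (fun c => eval₂ τr p (s' c)) H := by
      have h3 := eval₂_comp_left (IsLocalRing.residue V) τV (fun c => eval₂ τV xV (s' c)) H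
      have h4 : (⇑(IsLocalRing.residue V) ∘ fun c => eval₂ τV xV (s' c)) =
          fun c => eval₂ τr p (s' c) := by
        funext c
        exact hres (s' c)
      rw [h4] at h3
      exact h3
    rw [ValuationSubring.mem_nonunits_iff, e1, eval₂_smul_hom hH, map_mul, map_pow, map_inv₀, hvd,
      inv_one, one_pow, one_mul, e2, ← e3, ← ValuationSubring.valuation_lt_one_iff,
      IsLocalRing.residue_eq_zero_iff]
  rw [hkey Q q hQ, ← SPZ_bind]
  refine hN K Ω (IsLocalRing.ResidueField V) m S {G | ∃ H ∈ E, G = bind₁ s' H} (bind₁ s' Q) ?_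
    τr p hpS ?_
  · intro v hv hz
    have h3 : ∀ H : MvPolynomial (Fin (n + 1)) Ω,
        eval v (bind₁ s' H) = eval (fun c => eval v (s' c)) H := by
      intro H
      exact SPZ_bind (RingHom.id Ω) v s' H
    rw [h3]
    refine himp v hv s' hs' ?_
    intro H hH
    rw [← h3]
    exact hz _ ⟨H, hH, rfl⟩
  · rintro _ ⟨H, hH, rfl⟩
    obtain ⟨h, hh⟩ := hE H hH
    rw [SPZ_bind]
    exact (hkey H h hh).1 (hEv H hH)

end Pool.ThmQ
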