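import Pool.Agent.Work.MP_f82ddf_P.Interface6

set_option autoImplicit false

/-! # THEOREM U (MP_f82ddf_nt): one theorem for all positions

`g : X → P^n` is a morphism over `Ω`, `F_0, .., F_N` forms of degrees between `1` and `e`, the pull backs
`g^* F_j` are locally `k`-th powers, at least `N₀(n, e) * b` of the `F_j` are not `k`-th powers, and for
some `s < n` ANY `b` OF THE HYPERSURFACES `F_j = 0` HAVE ON `g(X)` COMMON ZEROS OF DIMENSION `< s` ONLY.
Then for every entire curve `f` in `X` the closure of `g(f)` has dimension at most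
`D = min (n - 1) (s + (M - s) / k)`, `M = (n + e).choose n - 1`.

`s = 0` is the old part (II) of RamifiedCovers, `s = n - 1` the old part (I).

IDEA.  `y = g(x)`, `x` a point of `X` with values in `Mer`, `δ` = the dimension of the closure of `y`.
The CD lemma gives a set `J` of at least `b` indices such that (number of independent quotients
`F_j(y) / F_(j₀)(y)`, `j ∈ J`) `* k + 1 ≤ rank of the F_j, j ∈ J`.  Let `a ≤ s` be such that the common
zeros of the `F_j`, `j ∈ J`, on `g(X)` have dimension `a - 1`.  Then `a` linear forms, added to the `F_j`,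
`j ∈ J`, have no common zero on `g(X)`, so the number of independent quotients is at least `δ - a`; and
the rank of the `F_j`, `j ∈ J`, is at most `M + 1 - a` (the `e`-th powers of `a` coordinates which are
independent on the common zeros are independent modulo the `F_j`).  So `(δ - a) k ≤ M - a`, and
`δ ≤ s + (M - s) / k` because `a ≤ s`.

Table `thq_blocks`.  Block file `MP_f82ddf_Q/B_X.lean`: import this file (and other block files for
auxiliary lemmas), namespace `Pool.ThmQ`, final theorem `p_X (h1 : Stmt_A) ... : Stmt_X` with exactly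
the blocks of the column `uses` in that order; all other lemmas with the prefix `X_`.  In the column
`uses`: `P.X` = `Pool.ThmP.Stmt_X`, `M0.X` = `Pool.ThmM0.Stmt_X`, `M1.X` = `Pool.ThmM.Stmt_X`, without
prefix = `Pool.ThmQ.Stmt_X`. -/

namespace Pool.ThmQ

open MvPolynomial Finset Pool.Agent.Work.MP_f82ddf_nt Pool.Agent.Work.MP_f82ddf_nt.DQ Pool.ThmM
  Pool.ThmM0 Pool.ThmP

/-! ## Definitions -/

/-- The set `Z` of points of an affine cone has (projective) dimension less than `s`: any `s + 1` of the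
homogeneous coordinates satisfy on it a nontrivial homogeneous relation.  (`s = 0`: `Z ⊆ {0}`.) -/
def DimLT {Ω : Type} [Field Ω] {n : ℕ} (s : ℕ) (Z : Set (Fin (n + 1) → Ω)) : Prop :=
  ∀ r : Fin (s + 1) → Fin (n + 1), ∃ (e : ℕ) (R : MvPolynomial (Fin (s + 1)) Ω), R ≠ 0 ∧
    R.IsHomogeneous e ∧ ∀ w ∈ Z, eval (fun i => w (r i)) R = 0

/-- The common zeros of the forms `F j`, `j ∈ J`, on `g(X)`. -/
def zeros {K Ω : Type} [Field K] [Field Ω] [Algebra K Ω] {m n N : ℕ}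
    {S : Set (MvPolynomial (Fin (m + 1)) K)} (g : Mor K Ω m n S)
    (F : Fin (N + 1) → MvPolynomial (Fin (n + 1)) Ω) (J : Finset (Fin (N + 1))) :
    Set (Fin (n + 1) → Ω) :=
  {w | (∃ v, OnX S v ∧ ∃ t ∈ g.tuples, w = fun c => eval v (t c)) ∧ ∀ j ∈ J, eval w (F j) = 0}

/-- Any `s + 1` of the coordinates `y` satisfy a nontrivial homogeneous relation over `ℂ`
(`RelP M x` is `RelLT (M + 1) x`). -/
def RelLT {n : ℕ} (s : ℕ) (y : Fin (n + 1) → Mer) : Prop :=
  ∀ r : Fin (s + 1) → Fin (n + 1), ∃ (e : ℕ) (P : MvPolynomial (Fin (s + 1)) ℂ), P ≠ 0 ∧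
    P.IsHomogeneous e ∧ aeval (fun i => y (r i)) P = 0

/-! ## A. Common zeros on `g(X)` -/

/-- REL (60 lines), uses P.NUL.  PROOF.  Let `r` be given and `R ≠ 0` the form over `Ω` of `DimLT`.  `NUL`
with `κ = Mer`, `E = {aeval t (F j) | j ∈ J}` (the forms `F j (t)` in the coordinates of `X`) and
`G = aeval (fun i => t (r i)) R`: if `v` is a point of `X` over `Ω` with `F_j(t(v)) = 0` for all `j ∈ J`,
then `t(v) ∈ zeros g F J`, so `R(t(v) ∘ r) = 0`.  So `(map τ R)(y ∘ r) = 0`, and `map τ R ≠ 0`. -/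
def Stmt_REL : Prop :=
  ∀ (K Ω : Type) [Field K] [Field Ω] [Algebra K Ω] [IsAlgClosed Ω] (m n N s : ℕ)
    (S : Set (MvPolynomial (Fin (m + 1)) K)) (g : Mor K Ω m n S)
    (F : Fin (N + 1) → MvPolynomial (Fin (n + 1)) Ω) (J : Finset (Fin (N + 1))),
    DimLT s (zeros g F J) → ∀ (τ : Ω →+* ℂ) (x : Fin (m + 1) → Mer), OnK (tm τ) S x →
    ∀ t ∈ g.tuples, (∀ j ∈ J, aeval (fun c => eval₂ (tm τ) x (t c)) (map τ (F j)) = 0) →
      RelLT s (fun c => eval₂ (tm τ) x (t c))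

/-- NRS (taken by helper32; a copy of `EVX_norm` in MP_f82ddf_P/Every.lean).  Noether normalization for
sets of points: `s` linear forms without common zero `≠ 0` on `Z`. -/
def Stmt_NRS : Prop :=
  ∀ (Ω : Type) [Field Ω] [Infinite Ω] (n s : ℕ) (Z : Set (Fin (n + 1) → Ω)), DimLT s Z →
    ∃ h : Fin s → Fin (n + 1) → Ω, ∀ z ∈ Z, (∀ i, ∑ c, h i c * z c = 0) → z = 0

/-- KEY (250 lines), uses NRS P.VER P.VAL P.TRX M0.HOMR.  If the common zeros of the `F_j`, `j ∈ J`, on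
`g(X)` have dimension less than `a`, and the closure of `y = s(x)` has dimension at least `δ`, then at
least `δ - a` of the quotients `F_j(y) / F_(j₀)(y)`, `j ∈ J`, are algebraically independent.
PROOF.  `δ = 0`: `t'` is the empty family (`algebraicIndependent_empty_type`).  Let `1 ≤ δ`.  NRS: linear
forms `h_i = ∑ c, h i c * X c`, `i : Fin a`, without common zero `≠ 0` on `zeros g F J`.  VER (degree
`t`): `ε`, `g'`.  `F' = Fin.append F (fun i => h_i ^ t) : Fin (N + 1 + a) → ..` (cast to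
`Fin (N + a + 1)`, or use an explicit case distinction `if hj : j < N + 1`), all homogeneous of degree
`t`; `l j c = coeff (ε c) (F' j)`, `J'` = the image of `J` and all the new indices.  Hypothesis of
VAL: let `v ≠ 0` be a point of `X` over `Ω` and suppose `g'.Meets (l j) v` for all `j ∈ J'`; by VER
`g.MeetsF (F' j) v`; by `g.defined` some tuple `s'` has `w = s'(v) ≠ 0`; `F_j(w) = 0` for `j ∈ J`, so
`w ∈ zeros g F J`, and `h_i(w) ^ t = 0` for all `i`, so `w = 0`, a contradiction.  VAL for `g'`, the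
tuple `s'_c = ∏ i, s i ^ ε c i` of `g'` and `j₀`: with `z = F_(j₀)(y)` (`GGL_val` in P/B_GGL.lean, import it:
`∑ c, τ(coeff (ε c) G) * ∏ y_i ^ (ε c i) = G(y)`) all the quotients `(∏ i, y_i ^ ε c i) / z` are algebraic
over `Algebra.adjoin ℂ B`, `B = {F'_j(y) / z | j ∈ J'}`.  So for all `i` the element
`p_i = y_(r (i+1)) / y_(r 0)`, `i : Fin δ`, is algebraic over `Algebra.adjoin ℂ B`: it is the quotient of
`y_(r (i+1)) * y_(r 0) ^ (t-1) / z` and `y_(r 0) ^ t / z` (`y_(r i) ≠ 0` by `NoRel` for the form `X i`;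
`IsAlgebraic.mul`, `IsAlgebraic.inv`).  The `p_i` are algebraically independent: HOMR
(`δ = δ' + 1`).  TRX (`m = δ`, both sets `B`) gives `u : Fin δ → Mer`, `u i ∈ B`, algebraically
independent, hence injective.  At most `a` of the `u i` are in the set of the `h_i(y) ^ t / z`,
`i : Fin a`, so at least `δ - a` of the indices `i` have `u i = F_j(y) / z` with `j ∈ J`; choose
an injection `γ : Fin (δ - a) → Fin δ` to these indices (`Finset.orderEmbOfFin` or
`Finset.exists_subset_card_eq`), `t' = u ∘ γ` (`AlgebraicIndependent.comp`). -/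
def Stmt_KEY : Prop :=
  ∀ (K Ω : Type) [Field K] [Field Ω] [Algebra K Ω] [IsAlgClosed Ω] (m n N t a δ : ℕ)
    (S : Set (MvPolynomial (Fin (m + 1)) K)), 1 ≤ t → (∀ F ∈ S, ∃ d, F.IsHomogeneous d) →
    ∀ (g : Mor K Ω m n S) (F : Fin (N + 1) → MvPolynomial (Fin (n + 1)) Ω)
      (J : Finset (Fin (N + 1))), (∀ j, (F j).IsHomogeneous t) → DimLT a (zeros g F J) →
    ∀ (τ : Ω →+* ℂ) (x : Fin (m + 1) → Mer), OnK (tm τ) S x → x ≠ 0 → ∀ s ∈ g.tuples,
    ∀ r : Fin (δ + 1) → Fin (n + 1), NoRel (fun i => eval₂ (tm τ) x (s (r i))) →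
    ∀ j₀ ∈ J, aeval (fun c => eval₂ (tm τ) x (s c)) (map τ (F j₀)) ≠ 0 →
      ∃ t' : Fin (δ - a) → Mer, AlgebraicIndependent ℂ t' ∧ ∀ i, ∃ j ∈ J,
        t' i = aeval (fun c => eval₂ (tm τ) x (s c)) (map τ (F j)) /
          aeval (fun c => eval₂ (tm τ) x (s c)) (map τ (F j₀))

/-- RKB (150 lines).  The rank of forms of degree `t` with common zeros of dimension at least `a - 1`.
PROOF.  `a = 0`: the span is a subspace of `Fin (..) → ℂ`.  `a = a' + 1`: `¬ DimLT a' Z` gives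
`r : Fin (a' + 1) → Fin (n + 1)` such that no form `R ≠ 0` has `R(w ∘ r) = 0` for all `w ∈ Z`; `r` is
injective (`X i - X i'`).  Let `u_j = (coeff (ε c) (F j))_c ∈ Ω^(M+1)` and `e_i ∈ Ω^(M+1)` the unit vector at
the index `c_i` with `ε c_i = t δ_(r i)` (the coefficient vector of `X_(r i) ^ t`).  Let `U` be the span
over `Ω` of the `u_j`, `j ∈ J`.  CLAIM: if `∑ i, β_i e_i ∈ U` then `β = 0`: the form
`∑ i, β_i X_(r i) ^ t` is a linear combination of the `F_j`, `j ∈ J` (compare coefficients; forms of degree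
`t`), so it vanishes on `Z`, so `R = ∑ i, β_i X_i ^ t` in `a' + 1` variables is `0`, so `β = 0` (`1 ≤ t`).
So `U` and the span of the `e_i` (of dimension `a' + 1`) are disjoint and
`finrank U + (a' + 1) ≤ M + 1` (`Submodule.finrank_add_finrank_le_of_disjoint`).  The span over `ℂ` of the
vectors `τ(u_j)` has at most the dimension of `U`: let `v_1, .., v_q` be a basis of `U`; every
`u_j` is a linear combination of them, so every `τ(u_j)` is a linear combination of the `q` vectors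
`τ(v_i)` over `ℂ` (`finrank_span_le_card` or `finrank_range_le_card`); `coeff (ε c) (map τ F) =
τ (coeff (ε c) F)`. -/
def Stmt_RKB : Prop :=
  ∀ (Ω : Type) [Field Ω] (τ : Ω →+* ℂ) (n t N a : ℕ)
    (ε : Fin ((n + t).choose t - 1 + 1) → Fin (n + 1) →₀ ℕ), Function.Injective ε →
    (∀ μ : Fin (n + 1) →₀ ℕ, ∑ i, μ i = t ↔ ∃ c, ε c = μ) →
    ∀ (F : Fin (N + 1) → MvPolynomial (Fin (n + 1)) Ω) (J : Finset (Fin (N + 1)))
      (Z : Set (Fin (n + 1) → Ω)), 1 ≤ t → (∀ j, (F j).IsHomogeneous t) →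
    (∀ w ∈ Z, ∀ j ∈ J, eval w (F j) = 0) → (∀ a' < a, ¬ DimLT a' Z) →
    Module.finrank ℂ (Submodule.span ℂ
      ((fun (j : Fin (N + 1)) (c : Fin ((n + t).choose t - 1 + 1)) =>
        coeff (ε c) (map τ (F j))) '' (J : Set (Fin (N + 1))))) + a ≤ (n + t).choose t - 1 + 1

/-! ## B. The CD lemma -/

/-- CDR (200 lines), uses P.CDP.  The lemma CDP with the rank of the chosen vectors.  PROOF by strong
induction on `r`.  Let `B` be the maximum of `b`, `2` and the numbers `N₁(r', b)` for `r' < r`; `N₁` from CDP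
for `(r, B)`.  CDP gives `T ⊆ S`, `B ≤ T.card`, with `m * k ≤ r` for the families of elements of `T`.
CASE 1: the span of `T` is everything: its dimension is `r + 1`.  CASE 2: the span `W` of `T` has
dimension `r' + 1` with `r' < r` (`T` has nonzero elements).  The descent to `W` as in CASE 2 of the
proof of CDP (copy it from P/B_CDP.lean): a basis `v_0, .., v_(r')` of `W`, the coordinates
`c(u) ∈ ℂ^(r'+1)` of `u ∈ W`, `x'_i = ⟨v_i, x⟩` linearly independent and periodic,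
`⟨c(u), x'⟩ = ⟨u, x⟩`.  The induction hypothesis for `T' = c(T)` gives `T'' ⊆ T'`; take
`T₁ = {u ∈ T | c(u) ∈ T''}`; `c` is a linear isomorphism from `W` to `ℂ^(r'+1)` which maps `T₁` onto `T''`, so
the spans have the same dimension. -/
def Stmt_CDR : Prop :=
  ∀ r b : ℕ, ∃ N₁ : ℕ, ∀ S : Finset (Fin (r + 1) → ℂ),
    (∀ u ∈ S, ∀ v ∈ S, u ≠ v → NonProp u v) → N₁ ≤ S.card →
    ∀ (k : ℕ) (x : Fin (r + 1) → Mer), 2 ≤ k → LinearIndependent ℂ x → (∀ i, Per (x i)) →
      (∀ u ∈ S, ∃ y : Mer, ∑ i, algebraMap ℂ Mer (u i) * x i = y ^ k) →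
      ∃ T ⊆ S, b ≤ T.card ∧
        ∀ (m : ℕ) (u₀ : Fin (r + 1) → ℂ) (τ : Fin m → Fin (r + 1) → ℂ), u₀ ∈ T →
          (∀ j, τ j ∈ T) →
          AlgebraicIndependent ℂ (fun j => (∑ i, algebraMap ℂ Mer (τ j i) * x i) /
            ∑ i, algebraMap ℂ Mer (u₀ i) * x i) →
          m * k + 1 ≤ Module.finrank ℂ (Submodule.span ℂ (T : Set (Fin (r + 1) → ℂ)))

/-- The set `J` of indices is good for `a` (see the introduction): (i) the rank of the forms `G_j`,
`j ∈ J`, is at most `M + 1 - a`; (ii) not all of them vanish at `y`; (iii) at least `δ - a` of the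
quotients `G_j(y) / G_(j₀)(y)` are algebraically independent. -/
def Good {n N t : ℕ} (ε : Fin ((n + t).choose t - 1 + 1) → Fin (n + 1) →₀ ℕ)
    (G : Fin (N + 1) → MvPolynomial (Fin (n + 1)) ℂ) (y : Fin (n + 1) → Mer) (δ a : ℕ)
    (J : Finset (Fin (N + 1))) : Prop :=
  Module.finrank ℂ (Submodule.span ℂ
    ((fun (j : Fin (N + 1)) (c : Fin ((n + t).choose t - 1 + 1)) =>
      coeff (ε c) (G j)) '' (J : Set (Fin (N + 1))))) + a ≤ (n + t).choose t - 1 + 1 ∧
  (∃ j ∈ J, aeval y (G j) ≠ 0) ∧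
  ∀ j₀ ∈ J, aeval y (G j₀) ≠ 0 → ∃ t' : Fin (δ - a) → Mer, AlgebraicIndependent ℂ t' ∧
    ∀ i, ∃ j ∈ J, t' i = aeval y (G j) / aeval y (G j₀)

/-- UAB (250 lines), uses CDR P.BAS P.REP M0.EXPO.  The abstract form of the theorem (no geometry).
PROOF.  `M = (n + t).choose t - 1`; `N₁` = the maximum over `ρ ≤ M` of the numbers of CDR for
`(ρ, c + 1)`, increased by 1, and `N₀ = c + c * N₁ + 1`.  Suppose `s + (M - s) / k < δ`.  BAS for the
vector `y'_c = ∏ i, y_i ^ ε c i` (`≠ 0`: `y_i ≠ 0` for some `i` and `ε c = t δ_i` for some `c`):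
`ρ ≤ M, ι, b`, `x'_i = y' (ι i)`.  `z_j = aeval y (G j) = ∑ c, coeff (ε c) (G j) * y'_c` (`GGL_val` in
P/B_GGL.lean with `τ = RingHom.id ℂ`, `map_id`) `= ∑ i, v_(j i) x'_i` with
`v_(j i) = ∑ c, coeff (ε c) (G j) * b c i`; `z_j = 0` iff `v_j = 0`.
(a) At most `c` of the `v_j` are `0`: otherwise let `J` be the set of these `j`; `Good` (ii) is wrong.
(b) For `v_j ≠ 0` the set `J` of the `j'` with `v_(j') ∈ ℂ v_j` has at most `c` elements: otherwise
`Good` (iii) for `J` and `j₀ = j` gives algebraically independent `t'_i = z_(j') / z_j`, which are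
constants, `i : Fin (δ - a)`, `a ≤ s < δ`, so there is at least one: contradiction.
REP gives `S₁`, pairwise non proportional nonzero `v_j`, `N₁ ≤ S₁.card`; it is not empty; fix `j₀` with
`v_(j₀) ∈ S₁`, so `z_(j₀) ≠ 0`.  By hypothesis `z_j / z_(j₀) = w_j ^ k` for all `j`.  Take `φ` from EXPO and
`x''_i = φ (x'_i / z_(j₀))`: linearly independent over `ℂ`, `Per`, and `∑ i, v_i x''_i = φ (w_j) ^ k` for
`v = v_j ∈ S₁`.  CDR for `(ρ, c + 1)`: `T ⊆ S₁`, `c + 1 ≤ T.card`.  For every `v ∈ T` choose `jj v` with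
`v_(jj v) = v`; `J = jj(T)` has `T.card > c` elements: `a ≤ s` with `Good a J`.  (ii), (iii): some
`j₁ ∈ J`, `z_(j₁) ≠ 0`, and `δ - a` algebraically independent `t'_i = z_(j) / z_(j₁)`, `j ∈ J`; `φ` (injective)
preserves the independence (`AlgebraicIndependent.map'`), and
`φ(t'_i) = ⟨v_j, x''⟩ / ⟨v_(j₁), x''⟩`.  (All this is as in P/B_ONP.lean: copy it.)  CDR:
`(δ - a) * k + 1 ≤ finrank (span T)`.  `T` is the image of the vectors `(coeff (ε c) (G j))_c`, `j ∈ J`,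
under the linear map given by `b`, so `finrank (span T)` is at most the rank in `Good` (i)
(`Submodule.finrank_map_le`, `Submodule.map_span`): `(δ - a) * k + 1 + a ≤ M + 1`.  As `a ≤ s < δ`, `2 ≤ k`:
`(δ - s) * k + s ≤ (δ - a) * k + a ≤ M`, so `δ - s ≤ (M - s) / k` (`Nat.le_div_iff_mul_le`):
contradiction. -/
def Stmt_UAB : Prop :=
  ∀ n t c : ℕ, ∃ N₀ : ℕ, ∀ (k N s δ : ℕ), 2 ≤ k → N₀ ≤ N → s ≤ (n + t).choose t - 1 →
    ∀ ε : Fin ((n + t).choose t - 1 + 1) → Fin (n + 1) →₀ ℕ, Function.Injective ε →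
    (∀ μ : Fin (n + 1) →₀ ℕ, ∑ i, μ i = t ↔ ∃ c, ε c = μ) →
    ∀ G : Fin (N + 1) → MvPolynomial (Fin (n + 1)) ℂ, (∀ j, (G j).IsHomogeneous t) →
    ∀ y : Fin (n + 1) → Mer, y ≠ 0 →
      (∀ j j', aeval y (G j') ≠ 0 → ∃ w : Mer, aeval y (G j) / aeval y (G j') = w ^ k) →
      (∀ J : Finset (Fin (N + 1)), c < J.card → ∃ a ≤ s, Good ε G y δ a J) →
      δ ≤ s + ((n + t).choose t - 1 - s) / k

/-- UDM (150 lines), uses UAB REL KEY RKB P.VER P.KTH.  PROOF.  `N₀` from UAB for `(n, t, c)`.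
`y_c = s'_c(x)`, `D = s + (M - s) / k`; let `r : Fin (D + 2) → Fin (n + 1)` (`D + 1 + 1`) and suppose that
there is no relation, i.e. `NoRel (y ∘ r)`.  Apply UAB with `δ = D + 1`, `ε` and `g'` from VER, `G j =
map τ (F j)`: the conclusion `D + 1 ≤ D` is absurd.  Hypotheses: the quotients are `k`-th powers by KTH for
`g'`, `l j c = coeff (ε c) (F j)`, the tuple `∏ i, s' i ^ ε c i` of `g'` (`GGL_val`; see P/B_GGM.lean), and
`g'.Divisible` by VER.  Let `c < J.card`, and let `a` be the smallest number with `DimLT a (zeros g F J)`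
(`Nat.find`), `a ≤ s`.  (i) RKB for `Z = zeros g F J`.  (ii) If all the `G_j(y)`, `j ∈ J`, are `0`, then
REL: `RelLT s y`; applied to the first `s + 1 ≤ D + 2` of the coordinates `r` this contradicts
`NoRel (y ∘ r)` (rename the variables by `Fin.castLE`).  (iii) KEY. -/
def Stmt_UDM : Prop :=
  ∀ n t c : ℕ, 1 ≤ t → ∃ N₀ : ℕ, ∀ (k N s : ℕ), 2 ≤ k → N₀ ≤ N → s ≤ (n + t).choose t - 1 →
    ∀ (K Ω : Type) [Field K] [Field Ω] [Algebra K Ω] [IsAlgClosed Ω] (m : ℕ)
      (S : Set (MvPolynomial (Fin (m + 1)) K)), (∀ F ∈ S, ∃ d, F.IsHomogeneous d) →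
      ∀ (g : Mor K Ω m n S) (F : Fin (N + 1) → MvPolynomial (Fin (n + 1)) Ω),
        (∀ j, (F j).IsHomogeneous t) →
        (∀ J : Finset (Fin (N + 1)), c < J.card → DimLT s (zeros g F J)) →
        (∀ j, g.DivisibleF k (F j)) →
        ∀ (τ : Ω →+* ℂ) (x : Fin (m + 1) → Mer), OnK (tm τ) S x → x ≠ 0 → ∀ s' ∈ g.tuples,
          (∃ c, eval₂ (tm τ) x (s' c) ≠ 0) →
          RelLT (s + ((n + t).choose t - 1 - s) / k + 1) (fun c => eval₂ (tm τ) x (s' c))

/-! ## C. Selection of forms: the number of forms may be proportional to `b` -/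

/-- SLU (120 lines).  Selection of `m` vectors.  PROOF.  A copy of `Pool.MPSel.sel`
(MP_f82ddf_E/Sel.lean) with `F j ∈ U p` in place of `ev p (F j) = 0`: one after the other, such that for
every set `A` of chosen vectors which is contained in some `U p` the next vector is not in `U (z A)`,
where `U (z A)` is one fixed subspace containing `A`.  Then the chosen vectors in `U p` are linearly
independent, and `U p` is not everything (`c < card ι`). -/
def Stmt_SLU : Prop :=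
  ∀ (κ V P ι : Type) [Field κ] [AddCommGroup V] [Module κ V] [FiniteDimensional κ V] [Fintype ι]
    (U : P → Submodule κ V) (F : ι → V) (c : ℕ), (∀ p, {j | F j ∈ U p}.ncard ≤ c) →
    ∀ m : ℕ, 2 ^ m * (c + 1) ≤ Fintype.card ι →
      ∃ φ : Fin m → ι, Function.Injective φ ∧
        ∀ p, {i | F (φ i) ∈ U p}.ncard + 1 ≤ Module.finrank κ V

/-- USL (150 lines), uses SLU P.VER.  PROOF.  `ε` from VER (for `g`, degree `t`);
`V = Fin ((n + t).choose t - 1 + 1) → Ω`, `ι = {j // ¬ ∃ G, F j = G ^ k}`, the vector of `j` is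
`(coeff (ε c) (F j))_c`; `P` = the subtype of the sets `B ⊆ {w | ∃ v, OnX S v ∧ ∃ t ∈ g.tuples, w = t(v)}`
with `¬ DimLT s B`; `U B = {a ∈ V | ∀ w ∈ B, ∑ c, a c * ∏ i, w i ^ ε c i = 0}`; a form `F j` has its
vector in `U B` iff it vanishes on `B`.  For `B ∈ P` at most `b - 1` of the `F j` are in `U B`: if `J` is a set
of `b` such `j`, then `B ⊆ zeros g F J`, so `DimLT s B` by the hypothesis, a contradiction.  SLU
(`c = b - 1`, `m = M + 1`) gives `φ`.  Let `J ⊆ Fin (M + 1)` have more than `(n + t).choose t - 1` elements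
and suppose `¬ DimLT s (zeros g (F ∘ φ) J)`: this set is in `P`, and all the `F (φ i)`, `i ∈ J`, are in
`U B`: `J.card + 1 ≤ finrank V = (n + t).choose t - 1 + 1`, a contradiction. -/
def Stmt_USL : Prop :=
  ∀ (K Ω : Type) [Field K] [Field Ω] [Algebra K Ω] (m n N t s b k M : ℕ)
    (S : Set (MvPolynomial (Fin (m + 1)) K)) (g : Mor K Ω m n S)
    (F : Fin (N + 1) → MvPolynomial (Fin (n + 1)) Ω), 1 ≤ t → (∀ j, (F j).IsHomogeneous t) →
    1 ≤ b → (∀ J : Finset (Fin (N + 1)), b ≤ J.card → DimLT s (zeros g F J)) →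
    2 ^ (M + 1) * b ≤ {j | ¬ ∃ G, F j = G ^ k}.ncard →
    ∃ φ : Fin (M + 1) → Fin (N + 1), Function.Injective φ ∧ (∀ i, ¬ ∃ G, F (φ i) = G ^ k) ∧
      ∀ J : Finset (Fin (M + 1)), (n + t).choose t - 1 < J.card →
        DimLT s (zeros g (fun i => F (φ i)) J)

/-! ## D. The bound `n - 1` -/

/-- SPZ (150 lines), uses P.NUL P.MPT.  Specialisation in a valuation ring.  PROOF.  As P/B_SPT.lean.
Choose `i₁` with `x i₁ ≠ 0` and `x i / x i₁ ∈ V` for all `i`; `x' = x / x i₁`, `OnK τ S x'`; `p` = the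
reduction of `x'` in the residue field `k_V` of `V`, `p i₁ = 1`, `OnK _ S p`.  MPT at `p`: a tuple `s'` with
`s'_(c₁)(p) ≠ 0`, so `s'_(c₁)(x')` is a unit of `V`.  `s(x)` and `s'(x')` are proportional, both not zero:
`s_c(x) / s_d(x) = s'_c(x') / s'_d(x')` for all `c`; for `c = c₁` this is in `V`, so `s'_d(x')` is a unit,
and the residue of `s_c(x) / s_d(x)` is `s'_c(p) / s'_d(p)`, `s'_d(p) ≠ 0`.  By hypothesis the residue of
`H(s(x) / s_d(x))` is `0` for `H ∈ E`, so `H(s'(p)) = 0` (homogeneity).  NUL over `k_V` at `p` with the set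
`{aeval s' H | H ∈ E}` and the polynomial `aeval s' Q`: `Q(s'(p)) = 0`, so the residue of
`Q(s(x) / s_d(x))` is `0`. -/
def Stmt_SPZ : Prop :=
  ∀ (K Ω κ : Type) [Field K] [Field Ω] [Algebra K Ω] [IsAlgClosed Ω] [Field κ] (m n q : ℕ)
    (S : Set (MvPolynomial (Fin (m + 1)) K)) (g : Mor K Ω m n S)
    (E : Set (MvPolynomial (Fin (n + 1)) Ω)) (Q : MvPolynomial (Fin (n + 1)) Ω),
    (∀ F ∈ S, ∃ d, F.IsHomogeneous d) → (∀ H ∈ E, ∃ d, H.IsHomogeneous d) → Q.IsHomogeneous q →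
    (∀ v, OnX S v → ∀ t ∈ g.tuples, (∀ H ∈ E, eval (fun c => eval v (t c)) H = 0) →
      eval (fun c => eval v (t c)) Q = 0) →
    ∀ (τ : Ω →+* κ) (V : ValuationSubring κ), (∀ a, τ a ∈ V) →
    ∀ x : Fin (m + 1) → κ, OnK τ S x → x ≠ 0 → ∀ s ∈ g.tuples, ∀ d, eval₂ τ x (s d) ≠ 0 →
      (∀ c, eval₂ τ x (s c) / eval₂ τ x (s d) ∈ V) →
      (∀ H ∈ E, eval₂ τ (fun c => eval₂ τ x (s c) / eval₂ τ x (s d)) H ∈ V.nonunits) →
      eval₂ τ (fun c => eval₂ τ x (s c) / eval₂ τ x (s d)) Q ∈ V.nonunits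

/-- PDC (250 lines), uses SPZ P.TRS P.CDC P.EXV.  If the image of the point is dense in `P^n`, then no
irreducible form divides more than `c` of the `F_j`.  PROOF.  `y_c = s'_c(x)`; suppose that the
irreducible polynomial `P` over `Ω` divides `F_j` for all `j ∈ J`, `c < J.card`.
(1) `P` is not a constant: `0 < degreeOf i P` for some variable `i`.  Apply `DimLT s (zeros g F J)` to the
injective map `r l = i.succAbove (Fin.castLE _ l)`, `l : Fin (s + 1)` (`s + 1 ≤ n`): a form `R ≠ 0` with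
`R(w ∘ r) = 0` for `w ∈ zeros g F J`.  `Q = rename r R ≠ 0` is a form which does not contain the variable
`i`, so `P` does not divide `Q` (`degreeOf_mul_eq` or `MvPolynomial.degreeOf_mul_eq`: the degree in the
variable `i`).  If `v` is a point of `X` over `Ω`, `t ∈ g.tuples` and `F_j(t(v)) = 0` for all `j ∈ J`, then
`Q(t(v)) = 0`.
(2) There is an irreducible `P₁` over `ℂ` which divides `map τ P` and not `map τ Q`: `map τ P` is not
zero and not a unit (its degree in the variable `i` is positive), let `P₁` be any irreducible factor;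
CDC for the two polynomials `![P, Q]` and `c = 1` (an irreducible polynomial which divides `P` is
associated to `P`, so it does not divide `Q`) says that `P₁` does not divide both.
(3) TRS: `θ` such that the `θ * y c` are algebraically independent over `ℂ`; `pk1_map` (P/B_PK1.lean,
import it) gives `ι : L → Mer`, `L = FractionRing (MvPolynomial (Fin (n + 1)) ℂ)`,
`ι r = aeval (θ * y) r`; `pk1_val` for the prime `P₁` gives `V ⊆ L`; EXV: `V' ⊆ Mer` with
`ι a ∈ V' ↔ a ∈ V`.  As `n ≥ 1`, some variable `X_d` is not divisible by `P₁` (two different variables are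
not associated), so `X_d` is a unit of `V`.  `y_c / y_d = ι (X_c / X_d) ∈ V'`, and for a form `H` of degree `h`
over `ℂ`: `H(y / y_d) = ι (H / X_d ^ h)`.  For `H = map τ (F_j)`, `j ∈ J`, this is in the nonunits of `V'`
(`P₁ ∣ H`: `H / X_d ^ h` is a multiple in `V` of `P₁`, whose inverse is not in `V`), for
`H = map τ Q` it is not (`P₁` does not divide `map τ Q`: a unit of `V`).  This contradicts SPZ with
`κ = Mer`, `tm τ`, `V'`, `E = {F_j | j ∈ J}`, `s = s'`. -/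
def Stmt_PDC : Prop :=
  ∀ (K Ω : Type) [Field K] [Field Ω] [Algebra K Ω] [IsAlgClosed Ω] (m n N s c : ℕ)
    (S : Set (MvPolynomial (Fin (m + 1)) K)) (g : Mor K Ω m n S)
    (F : Fin (N + 1) → MvPolynomial (Fin (n + 1)) Ω), s < n →
    (∀ F ∈ S, ∃ d, F.IsHomogeneous d) → (∀ j, ∃ d, (F j).IsHomogeneous d) →
    (∀ J : Finset (Fin (N + 1)), c < J.card → DimLT s (zeros g F J)) →
    ∀ (τ : Ω →+* ℂ) (x : Fin (m + 1) → Mer), OnK (tm τ) S x → x ≠ 0 → ∀ s' ∈ g.tuples,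
      NoRel (fun c => eval₂ (tm τ) x (s' c)) → ∀ P, Irreducible P → {j | P ∣ F j}.ncard ≤ c

/-! ## E. The theorem for points with values in `Mer` -/

/-- UFX (120 lines), uses UDM USL PDC P.GGM.  Forms of one degree.  PROOF.  `c₀ = (n + t).choose t - 1`,
`M` = the sum of the numbers `N₀` of UDM and of GGM for `(n, t, c₀)`, and `N₀ = 2 ^ (M + 1)`.  USL gives
`φ : Fin (M + 1) → Fin (N + 1)`; put `F' i = F (φ i)`, none of them a `k`-th power, so
`{i | ¬ ∃ G, F' i = G ^ k}.ncard = M + 1`.  UDM (with `N = M`, `c = c₀`; `s < n ≤ (n + t).choose t - 1` as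
`1 ≤ t`) gives `RelLT (s + .. + 1) y`.  `¬ NoRel y`: otherwise PDC (`c = c₀`) and GGM are in
contradiction.  So there is a form `P ≠ 0` with `P(y) = 0`, and `RelLT n y` (`r : Fin (n + 1) →
Fin (n + 1)`: not injective, `X i - X j`; bijective, `rename`), `n - 1 + 1 = n`.  One of the two numbers
is the minimum. -/
def Stmt_UFX : Prop :=
  ∀ n t : ℕ, 1 ≤ t → ∃ N₀ : ℕ, ∀ (k N s b : ℕ), 2 ≤ k → s < n → 1 ≤ b →
    ∀ (K Ω : Type) [Field K] [Field Ω] [Algebra K Ω] [IsAlgClosed Ω] (m : ℕ)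
      (S : Set (MvPolynomial (Fin (m + 1)) K)), (∀ F ∈ S, ∃ d, F.IsHomogeneous d) →
      ∀ (g : Mor K Ω m n S) (F : Fin (N + 1) → MvPolynomial (Fin (n + 1)) Ω),
        (∀ j, (F j).IsHomogeneous t) →
        (∀ J : Finset (Fin (N + 1)), b ≤ J.card → DimLT s (zeros g F J)) →
        (∀ j, g.DivisibleF k (F j)) → N₀ * b ≤ {j | ¬ ∃ G, F j = G ^ k}.ncard →
        ∀ (τ : Ω →+* ℂ) (x : Fin (m + 1) → Mer), OnK (tm τ) S x → x ≠ 0 → ∀ s' ∈ g.tuples,
          (∃ c, eval₂ (tm τ) x (s' c) ≠ 0) →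
          RelLT (min (n - 1) (s + ((n + t).choose t - 1 - s) / k) + 1)
            (fun c => eval₂ (tm τ) x (s' c))

/-- The bound for the dimension. -/
def bd (n e k s : ℕ) : ℕ := min (n - 1) (s + ((n + e).choose n - 1 - s) / k)

/-- UVD (120 lines), uses UFX P.PIG.  Forms of different degrees.  PROOF.  `N₀ = 1 + ∑_(1 ≤ t ≤ e) N₀(t)`
with the numbers of UFX (`0` for `t = 0`).  PIG with `f t = N₀(t) * b`, `P j` = not a `k`-th power, `Q t j` =
`F j` is homogeneous of degree `t` (`∑ f t < N₀ * b` because `1 ≤ b`): `t`, `γ`; UFX for `t` and `F ∘ γ`: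
for `J` with `b ≤ J.card` the set `zeros g (F ∘ γ) J` is `zeros g F (J.map γ)`.  `RelLT a y` implies
`RelLT a' y` for `a ≤ a'` (rename by `Fin.castLE`), and
`(n + t).choose t = (n + t).choose n ≤ (n + e).choose n`. -/
def Stmt_UVD : Prop :=
  ∀ n e : ℕ, ∃ N₀ : ℕ, ∀ (k N s b : ℕ), 2 ≤ k → s < n → 1 ≤ b →
    ∀ (K Ω : Type) [Field K] [Field Ω] [Algebra K Ω] [IsAlgClosed Ω] (m : ℕ)
      (S : Set (MvPolynomial (Fin (m + 1)) K)), (∀ F ∈ S, ∃ d, F.IsHomogeneous d) →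
      ∀ (g : Mor K Ω m n S) (F : Fin (N + 1) → MvPolynomial (Fin (n + 1)) Ω),
        (∀ j, ∃ d, 1 ≤ d ∧ d ≤ e ∧ (F j).IsHomogeneous d) →
        (∀ J : Finset (Fin (N + 1)), b ≤ J.card → DimLT s (zeros g F J)) →
        (∀ j, g.DivisibleF k (F j)) → N₀ * b ≤ {j | ¬ ∃ G, F j = G ^ k}.ncard →
        ∀ (τ : Ω →+* ℂ) (x : Fin (m + 1) → Mer), OnK (tm τ) S x → x ≠ 0 → ∀ s' ∈ g.tuples,
          (∃ c, eval₂ (tm τ) x (s' c) ≠ 0) →
          RelLT (bd n e k s + 1) (fun c => eval₂ (tm τ) x (s' c))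

/-- UCV (100 lines), uses UVD P.MPT M0.MREL.  Entire curves: the closure of `g(f)`.  PROOF.  As P/B_CUR.lean,
with the relation `P(y ∘ r) = 0` of `RelLT` for a given `r` (for a tuple `s₀` with `y = s₀(x) ≠ 0`); for
any tuple `t` the vector `t(x)` is a multiple of `y`, so `P(t(x) ∘ r) = 0`, and MREL gives
`P(t((f z).rep) ∘ r) = 0` for all `z`. -/
def Stmt_UCV : Prop :=
  ∀ n e : ℕ, ∃ N₀ : ℕ, ∀ (k N s b : ℕ), 2 ≤ k → s < n → 1 ≤ b →
    ∀ (K Ω : Type) [Field K] [Field Ω] [Algebra K Ω] [IsAlgClosed Ω] (m : ℕ)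
      (S : Set (MvPolynomial (Fin (m + 1)) K)), (∀ F ∈ S, ∃ d, F.IsHomogeneous d) →
      ∀ (g : Mor K Ω m n S) (F : Fin (N + 1) → MvPolynomial (Fin (n + 1)) Ω),
        (∀ j, ∃ d, 1 ≤ d ∧ d ≤ e ∧ (F j).IsHomogeneous d) →
        (∀ J : Finset (Fin (N + 1)), b ≤ J.card → DimLT s (zeros g F J)) →
        (∀ j, g.DivisibleF k (F j)) → N₀ * b ≤ {j | ¬ ∃ G, F j = G ^ k}.ncard →
        ∀ (τ : Ω →+* ℂ) (f : ℂ → PSpace ℂ m), HolomorphicOn f Set.univ →
          (∀ z, f z ∈ complexPoints S (τ.comp (algebraMap K Ω))) →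
          DimLT (bd n e k s + 1)
            {w : Fin (n + 1) → ℂ | ∃ z, ∃ t ∈ g.tuples, w = fun c => eval₂ τ (f z).rep (t c)}

/-! ## F. From `g(X)` to `X` -/

/-- The preimage under `g` of every closed set of dimension at most `D` has dimension at most `d`. -/
def Small {K Ω : Type} [Field K] [Field Ω] [Algebra K Ω] {m n : ℕ}
    {S : Set (MvPolynomial (Fin (m + 1)) K)} (g : Mor K Ω m n S) (D d : ℕ) : Prop :=
  ∀ B : Set (Fin (n + 1) → Ω), DimLT (D + 1) B →
    DimLT (d + 1) {v : Fin (m + 1) → Ω | OnX S v ∧ ∀ t ∈ g.tuples, (fun c => eval v (t c)) ∈ B}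

/-- UNH (100 lines), uses P.FIB P.TRX M0.HOMR.  `g` finite.  PROOF.  As P/B_NHR.lean.  Suppose that for
`r : Fin (D + 2) → Fin (m + 1)` there is no relation: `NoRel (x ∘ r)`.  Let `y_(c₀) ≠ 0`.  The
`p_i = x (r (i+1)) / x (r 0)`, `i : Fin (D + 1)`, are algebraically independent (HOMR) and algebraic over
`Algebra.adjoin ℂ (range (y_c / y_(c₀)))` (FIB).  TRX gives `t_i = y_(γ i) / y_(c₀)`, `i : Fin (D + 1)`,
algebraically independent.  `RelLT (D + 1) y` for `Fin.cons c₀ γ` gives a form `P ≠ 0` with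
`P(y_(c₀), y_(γ 0), ..) = 0`; divide by `y_(c₀) ^ e`: `P(1, t) = 0`, so the polynomial `P(1, T)` is `0`, and
then `P = 0` (homogeneous: different monomials of `P` go to different monomials; see the end of
P/B_NHR.lean). -/
def Stmt_UNH : Prop :=
  ∀ (K Ω : Type) [Field K] [Field Ω] [Algebra K Ω] [IsAlgClosed Ω] (m n D : ℕ)
    (S : Set (MvPolynomial (Fin (m + 1)) K)) (g : Mor K Ω m n S),
    (∀ F ∈ S, ∃ d, F.IsHomogeneous d) → g.Finite →
    ∀ (τ : Ω →+* ℂ) (x : Fin (m + 1) → Mer), OnK (tm τ) S x → ∀ s ∈ g.tuples,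
      (∃ c, eval₂ (tm τ) x (s c) ≠ 0) → RelLT (D + 1) (fun c => eval₂ (tm τ) x (s c)) → RelP D x

/-- UTH (250 lines), uses P.EXT P.MPT M0.HOMR.  Any morphism with small preimages.  PROOF.  Suppose that
`RelP d x` fails: for some `r : Fin (d + 2) → Fin (m + 1)` there is no relation.  `x (r 0) ≠ 0`; let
`x'_l = x l / x (r 0)`, `OnK (tm τ) S x'` (homogeneity).  The `p_i = x'_(r (i+1))`, `i : Fin (d + 1)`, are
algebraically independent over `ℂ` (HOMR).  `y_c = s_c(x)`, `y_(c₀) ≠ 0`.  For every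
`ρ : Fin (D + 2) → Fin (n + 1)` (finitely many) let `P_ρ ≠ 0` be a form over `ℂ` of degree `e_ρ` with
`P_ρ(y ∘ ρ) = 0`, and `a_ρ ≠ 0` one of its coefficients, at the monomial `μ_ρ`.  `Mer` is an `Ω`-algebra via
`tm τ` (`ℂ` via `τ`).  Let `A₀ ⊆ Mer` be the `Ω`-subalgebra generated by the (images of the) coefficients
of all the `P_ρ` and the inverses `a_ρ⁻¹`, `A = A₀[p_0, .., p_d]` and `B = A₀[x'_0, .., x'_m] ⊇ A`, a domain
of finite type over `Ω`.  EXT for `A ⊆ B`: `h ∈ A`, `h ≠ 0`, such that every homomorphism `θ : A → Ω` of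
`Ω`-algebras with `θ(h) ≠ 0` extends to `Θ : B → Ω`.  `A` is a polynomial ring over `A₀` in the `p_i` (`A₀`
is contained in the image of `ℂ`): `h = ∑ h_q p^q`, some `h_q ≠ 0` in `A₀`.  EXT for `⊥ ⊆ A₀[h_q⁻¹]` (as in
P/B_FIB.lean) gives a homomorphism `θ₀ : A₀ → Ω` with `θ₀(h_q) ≠ 0`.  Let `P⁰_ρ = θ₀(P_ρ)`, a form over `Ω`,
not `0` because `θ₀(a_ρ) θ₀(a_ρ⁻¹) = 1`.  The set `B₀ = {w | ∀ ρ, P⁰_ρ(w ∘ ρ) = 0}` satisfies
`DimLT (D + 1) B₀`.  `Small`: a form `R ≠ 0` over `Ω` in `d + 2` variables with `R(v ∘ r) = 0` for all the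
points `v` of `X` over `Ω` with `t(v) ∈ B₀` for all `t ∈ g.tuples`.  The polynomials `R(1, T_0, .., T_d)` and
`θ₀(h)(T) = ∑ θ₀(h_q) T^q` over the infinite field `Ω` are not `0`; choose `ξ ∈ Ω^(d+1)` at which both
are not `0`.  `θ : A → Ω`, `θ = θ₀` on `A₀`, `p_i ↦ ξ_i`, has `θ(h) ≠ 0`; let `Θ : B → Ω` be an extension and
`v = Θ(x')`.  Then `OnX S v`, `v (r 0) = 1`, `v (r (i + 1)) = ξ_i`.  Let `t ∈ g.tuples`: by MPT (2) (for `x'`
and proportionality of `s(x)` and `s(x')`) `t_c(x') y_(c') = t_(c')(x') y_c`, so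
`y_(c₀) ^ e_ρ P_ρ(t(x') ∘ ρ) = t_(c₀)(x') ^ e_ρ P_ρ(y ∘ ρ) = 0`, so `P_ρ(t(x') ∘ ρ) = 0` in `B`; apply `Θ`:
`P⁰_ρ(t(v) ∘ ρ) = 0`.  So `t(v) ∈ B₀` for all `t`, and `R(1, ξ) = R(v ∘ r) = 0`: contradiction. -/
def Stmt_UTH : Prop :=
  ∀ (K Ω : Type) [Field K] [Field Ω] [Algebra K Ω] [IsAlgClosed Ω] (m n D d : ℕ)
    (S : Set (MvPolynomial (Fin (m + 1)) K)) (g : Mor K Ω m n S),
    (∀ F ∈ S, ∃ d, F.IsHomogeneous d) → Small g D d →
    ∀ (τ : Ω →+* ℂ) (x : Fin (m + 1) → Mer), OnK (tm τ) S x → ∀ s ∈ g.tuples,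
      (∃ c, eval₂ (tm τ) x (s c) ≠ 0) → RelLT (D + 1) (fun c => eval₂ (tm τ) x (s c)) → RelP d x

/-- UFN (80 lines), uses UVD P.MPT UNH UTH.  PROOF.  As P/B_DM3.lean (extension `τ` of `σ` to the algebraic
closure): for `x = 0` the relation `X 0`; MPT: a tuple `s'` with `s'(x) ≠ 0`; UVD and UNH or UTH. -/
def Stmt_UFN : Prop :=
  ∀ n e : ℕ, ∃ N₀ : ℕ, ∀ (k N s b : ℕ), 2 ≤ k → s < n → 1 ≤ b →
    ∀ (K : Type) [Field K] (m d : ℕ) (S : Set (MvPolynomial (Fin (m + 1)) K)),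
      (∀ F ∈ S, ∃ d, F.IsHomogeneous d) →
      ∀ (g : Mor K (AlgebraicClosure K) m n S)
        (F : Fin (N + 1) → MvPolynomial (Fin (n + 1)) (AlgebraicClosure K)),
        (∀ j, ∃ d, 1 ≤ d ∧ d ≤ e ∧ (F j).IsHomogeneous d) →
        (∀ J : Finset (Fin (N + 1)), b ≤ J.card → DimLT s (zeros g F J)) →
        (∀ j, g.DivisibleF k (F j)) → N₀ * b ≤ {j | ¬ ∃ G, F j = G ^ k}.ncard →
        (g.Finite ∧ d = bd n e k s ∨ Small g (bd n e k s) d) → DimMer S d

end Pool.ThmQ
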